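import Pool.Agent.V5helper42.FG.F

/-!
# Friedlander-Granville phenomenon: all blocks, all residues (helper42)
-/

set_option autoImplicit false

namespace Pool.Agent.V5helper42.FG

open Finset Filter Topology Asymptotics

lemma dev_add (x c u v w : ℕ) (h1 : u ≤ v) (h2 : v ≤ w) : dev x c u w = dev x c u v + dev x c v w := by
  unfold dev
  rw [← sum_union]
  · refine sum_congr ?_ fun _ _ => rfl
    rw [← filter_union, Ioc_union_Ioc_eq_Ioc h1 h2]
  · rw [disjoint_left]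
    intro n hn hn2
    rw [mem_filter, mem_Ioc] at hn hn2
    omega

lemma dev_self (x c u : ℕ) : dev x c u u = 0 := by
  unfold dev
  rw [Ioc_self, filter_empty, sum_empty]

/-- the ends of the blocks -/
noncomputable def U (η : ℝ) (u : ℕ) : ℕ → ℕ
  | 0 => u
  | (j + 1) => U η u j + ⌊η * (U η u j : ℝ)⌋₊

lemma U_mono (η : ℝ) (u j : ℕ) : u ≤ U η u j := by
  induction j with
  | zero => exact le_rfl
  | succ j ih => exact ih.trans (Nat.le_add_right _ _)

lemma U_le (η : ℝ) (hη : 0 ≤ η) (u j : ℕ) : (U η u j : ℝ) ≤ Real.exp (η * j) * u := by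
  induction j with
  | zero => simp [U]
  | succ j ih =>
    have h1 : (U η u (j + 1) : ℝ) ≤ (1 + η) * U η u j := by
      have e : U η u (j + 1) = U η u j + ⌊η * (U η u j : ℝ)⌋₊ := rfl
      rw [e]
      push_cast
      have h2 : (⌊η * (U η u j : ℝ)⌋₊ : ℝ) ≤ η * (U η u j : ℝ) := Nat.floor_le (by positivity)
      linarith
    have h3 : 1 + η ≤ Real.exp η := by linarith [Real.add_one_le_exp η]
    calc (U η u (j + 1) : ℝ) ≤ (1 + η) * U η u j := h1
      _ ≤ Real.exp η * (Real.exp (η * j) * u) := by gcongr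
      _ = Real.exp (η * ((j + 1 : ℕ) : ℝ)) * u := by
          rw [← mul_assoc, ← Real.exp_add]
          push_cast
          ring_nf

lemma sum_blocks (σ η m lo hi : ℝ) (hη : 0 ≤ η) (x c u : ℕ) (hlo : lo ≤ u)
    (h : ∀ v : ℕ, lo ≤ v → (v : ℝ) ≤ hi → m ≤ σ * dev x c v (v + ⌊η * v⌋₊)) (J : ℕ)
    (hJ : Real.exp (η * J) * u ≤ hi) : J * m ≤ σ * dev x c u (U η u J) := by
  have key : ∀ j : ℕ, j ≤ J → j * m ≤ σ * dev x c u (U η u j) := by
    intro j
    induction j with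
    | zero => intro _; simp [U, dev_self]
    | succ j ih =>
      intro hj
      have e : U η u (j + 1) = U η u j + ⌊η * (U η u j : ℝ)⌋₊ := rfl
      rw [e, dev_add x c u (U η u j) _ (U_mono η u j) (Nat.le_add_right _ _)]
      have h1 := h (U η u j) (hlo.trans (by exact_mod_cast U_mono η u j)) (by
        refine (U_le η hη u j).trans (le_trans ?_ hJ)
        have : (j : ℝ) ≤ J := by exact_mod_cast (by omega : j ≤ J)
        gcongr)
      have h2 := ih (by omega)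
      push_cast
      linarith
  exact key J le_rfl

/-- the number of the residues -/
lemma count_l (W M m : ℕ) (hW : 0 < W) (x Q : ℕ) (hQ : W * M ≤ Q) (p : ℕ → Prop)
    (h : ∀ l : ℕ, l.Prime → m ≤ l → l ≤ M → p (W * l)) [DecidablePred p] :
    (Nat.primeCounting M : ℝ) - m ≤ (((Icc 1 Q).filter p).card : ℝ) := by
  have h1 : (((Ioc m M).filter Nat.Prime).image (fun l => W * l)) ⊆ (Icc 1 Q).filter p := by
    intro a ha
    rw [mem_image] at ha
    obtain ⟨l, hl, rfl⟩ := ha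
    rw [mem_filter, mem_Ioc] at hl
    rw [mem_filter, mem_Icc]
    refine ⟨⟨Nat.mul_pos hW hl.2.pos, (Nat.mul_le_mul_left W hl.1.2).trans hQ⟩, h l hl.2 (by omega) hl.1.2⟩
  have h2 := card_le_card h1
  rw [card_image_of_injective _ fun a b hab => Nat.eq_of_mul_eq_mul_left hW hab] at h2
  have h3 : Nat.primeCounting M ≤ m + ((Ioc m M).filter Nat.Prime).card := by
    rw [Nat.primeCounting, Nat.primeCounting', Nat.count_eq_card_filter_range]
    have h4 : (range (M + 1)).filter Nat.Prime ⊆ Icc 1 m ∪ (Ioc m M).filter Nat.Prime := by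
      intro n hn
      rw [mem_filter, mem_range] at hn
      rw [mem_union, mem_Icc, mem_filter, mem_Ioc]
      by_cases h5 : n ≤ m
      · exact Or.inl ⟨hn.2.pos, h5⟩
      · exact Or.inr ⟨⟨by omega, by omega⟩, hn.2⟩
    refine (card_le_card h4).trans ((card_union_le _ _).trans ?_)
    rw [Nat.card_Icc]
    omega
  have h4 : Nat.primeCounting M ≤ m + ((Icc 1 Q).filter p).card := h3.trans (by omega)
  have h5 : (Nat.primeCounting M : ℝ) ≤ m + (((Icc 1 Q).filter p).card : ℝ) := by exact_mod_cast h4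
  linarith

/-- many primes `l` -/
lemma ev_count (b β p : ℝ) (hbβ : b < β) (hβ : β ≤ 1 / 2) (hp : 0 < p) (hb : 0 < b) : ∀ᶠ x : ℕ in atTop, ∀ W : ℝ, 1 ≤ W →
    W ≤ Real.exp (Real.log x ^ b) →
      x * Real.exp (-(Real.log x ^ β)) + (Real.exp (Real.log x / 2) + 1) ≤
        (Nat.primeCounting ⌊(x : ℝ) / Real.log x ^ p / W⌋₊ : ℝ) := by
  have hlogN : Tendsto (fun x : ℕ => Real.log (x : ℝ)) atTop atTop :=
    Real.tendsto_log_atTop.comp tendsto_natCast_atTop_atTop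
  have h1 := (Metric.tendsto_nhds.1 Pool.Agent.Helper601.PNT.pi_tendsto) (1 / 2) (by norm_num)
  obtain ⟨z0, hz0⟩ := eventually_atTop.1 h1
  have hev : ∀ᶠ L : ℝ in atTop, 4 ≤ L ∧ z0 ≤ Real.exp (L / 2) ∧ 4 * L ^ (p + 1) ≤ Real.exp (1 / 8 * L) ∧
      8 * L ^ b ≤ L ^ β ∧ (p + 4) * Real.log L ≤ 1 / 2 * L ^ β ∧ L ^ β ≤ 1 / 8 * L ∧ 0 ≤ Real.log L := by
    have e1 : ∀ᶠ L : ℝ in atTop, z0 ≤ Real.exp (L / 2) :=
      (Real.tendsto_exp_atTop.comp (tendsto_id.atTop_div_const (by norm_num : (0:ℝ) < 2))).eventually_ge_atTop _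
    have e2 : ∀ᶠ L : ℝ in atTop, (p + 4) * Real.log L ≤ 1 / 2 * L ^ β := by
      have h := ((isLittleO_log_rpow_atTop (by linarith : 0 < β)).const_mul_left (p + 4)).bound (by norm_num : (0:ℝ) < 1 / 2)
      filter_upwards [h, eventually_gt_atTop 0] with L hL h0
      rw [Real.norm_eq_abs, Real.norm_eq_abs, abs_of_nonneg (Real.rpow_nonneg h0.le β)] at hL
      exact (le_abs_self _).trans hL
    have e3 : ∀ᶠ L : ℝ in atTop, L ^ β ≤ 1 / 8 * L := by
      filter_upwards [ev_rpow β 1 8 (by linarith)] with L hL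
      rw [Real.rpow_one] at hL
      linarith
    filter_upwards [eventually_ge_atTop 4, e1, ev_rpow_exp (p + 1) 4 (1 / 8) (by norm_num), ev_rpow b β 8 hbβ, e2, e3]
      with L g1 g2 g3 g4 g5 g6
    exact ⟨g1, g2, g3, g4, g5, g6, Real.log_nonneg (by linarith)⟩
  filter_upwards [hlogN.eventually hev, eventually_gt_atTop 1] with x hx hx1 W hW1 hW
  have hW0 : 0 < W := by linarith
  obtain ⟨L, hL⟩ : ∃ L : ℝ, L = Real.log x := ⟨_, rfl⟩
  rw [← hL] at hx hW ⊢
  obtain ⟨g1, g2, g3, g4, g5, g6, g7⟩ := hx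
  have hxR : (0 : ℝ) < x := by exact_mod_cast (by omega : 0 < x)
  have hxe : (x : ℝ) = Real.exp L := by rw [hL, Real.exp_log hxR]
  have hL0 : 0 < L := by linarith
  have hLp : 0 < L ^ p := Real.rpow_pos_of_pos hL0 _
  obtain ⟨z, hz⟩ : ∃ z : ℝ, z = (x : ℝ) / L ^ p / W := ⟨_, rfl⟩
  rw [← hz]
  have hz1 : Real.exp (L - L ^ b) / L ^ p ≤ z := by
    rw [hz, hxe, Real.exp_sub, div_div, div_div, mul_comm (L ^ p) W]
    apply div_le_div_of_nonneg_left (Real.exp_pos _).le (by positivity)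
    exact mul_le_mul_of_nonneg_right hW hLp.le
  have hb8 : L ^ b ≤ 1 / 8 * L := by
    have : 0 ≤ L ^ b := Real.rpow_nonneg hL0.le _
    linarith
  have hLpe : 4 * (L ^ p * L) ≤ Real.exp (1 / 8 * L) := by
    have e : L ^ p * L = L ^ (p + 1) := by rw [Real.rpow_add hL0, Real.rpow_one]
    rw [e]
    exact g3
  have hz2 : Real.exp (3 / 4 * L) * (4 * L) ≤ z := by
    refine le_trans ?_ hz1
    rw [le_div_iff₀ hLp]
    calc Real.exp (3 / 4 * L) * (4 * L) * L ^ p = Real.exp (3 / 4 * L) * (4 * (L ^ p * L)) := by ring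
      _ ≤ Real.exp (3 / 4 * L) * Real.exp (1 / 8 * L) := by gcongr
      _ = Real.exp (7 / 8 * L) := by rw [← Real.exp_add]; ring_nf
      _ ≤ Real.exp (L - L ^ b) := by
          apply Real.exp_le_exp.2
          linarith
  have hzpos : 0 < z := lt_of_lt_of_le (by positivity) hz2
  have hzbig : Real.exp (L / 2) ≤ z := by
    refine le_trans ?_ hz2
    have e1 : Real.exp (L / 2) ≤ Real.exp (3 / 4 * L) := Real.exp_le_exp.2 (by linarith)
    have e2 : Real.exp (3 / 4 * L) * 1 ≤ Real.exp (3 / 4 * L) * (4 * L) := by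
      apply mul_le_mul_of_nonneg_left _ (Real.exp_pos _).le
      linarith
    linarith
  have hpz := hz0 z (g2.trans hzbig)
  rw [Real.dist_eq, abs_lt] at hpz
  have hLp1 : 1 ≤ L ^ p := Real.one_le_rpow (by linarith) hp.le
  have hzx : Real.log z ≤ L := by
    have e1 : z ≤ x := by
      rw [hz, div_div]
      apply div_le_self hxR.le
      nlinarith
    rw [hL]
    exact Real.log_le_log hzpos e1
  have hlz : 0 < Real.log z := by
    apply Real.log_pos
    refine lt_of_lt_of_le ?_ hzbig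
    rw [← Real.exp_zero]
    exact Real.exp_lt_exp.2 (by linarith)
  have hπ : z / (2 * L) ≤ (Nat.primeCounting ⌊z⌋₊ : ℝ) := by
    have e1 : 1 / 2 ≤ (Nat.primeCounting ⌊z⌋₊ : ℝ) * Real.log z / z := by linarith [hpz.1]
    rw [le_div_iff₀ hzpos] at e1
    rw [div_le_iff₀ (by positivity)]
    have e2 : (Nat.primeCounting ⌊z⌋₊ : ℝ) * Real.log z ≤ (Nat.primeCounting ⌊z⌋₊ : ℝ) * L :=
      mul_le_mul_of_nonneg_left hzx (Nat.cast_nonneg _)
    linarith
  have hA : Real.exp (L / 2) + 1 ≤ z / (4 * L) := by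
    rw [le_div_iff₀ (by positivity)]
    refine le_trans (mul_le_mul_of_nonneg_right ?_ (by positivity)) hz2
    have e1 : Real.exp (3 / 4 * L) = Real.exp (L / 2) * Real.exp (L / 4) := by
      rw [← Real.exp_add]; ring_nf
    have e2 : 2 ≤ Real.exp (L / 4) := by
      have := Real.add_one_le_exp (L / 4)
      linarith
    have e3 : 1 ≤ Real.exp (L / 2) := Real.one_le_exp (by linarith)
    rw [e1]
    nlinarith
  have hB : x * Real.exp (-(L ^ β)) ≤ z / (4 * L) := by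
    rw [le_div_iff₀ (by positivity)]
    refine le_trans ?_ hz1
    rw [le_div_iff₀ hLp, hxe, ← Real.exp_add]
    have e1 : 4 * (L ^ p * L) ≤ Real.exp (1 / 2 * L ^ β) := by
      have e2 : L ^ p * L = Real.exp ((p + 1) * Real.log L) := by
        rw [add_mul, Real.exp_add, one_mul, Real.exp_log hL0, Real.rpow_def_of_pos hL0, mul_comm (Real.log L)]
      have e3 : (4 : ℝ) ≤ Real.exp (Real.log L) := by rw [Real.exp_log hL0]; exact g1
      calc 4 * (L ^ p * L) ≤ Real.exp (Real.log L) * Real.exp ((p + 1) * Real.log L) := by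
            rw [e2]; gcongr
        _ = Real.exp ((p + 2) * Real.log L) := by rw [← Real.exp_add]; ring_nf
        _ ≤ _ := by
            apply Real.exp_le_exp.2
            nlinarith
    calc Real.exp (L + -L ^ β) * (4 * L) * L ^ p = Real.exp (L + -L ^ β) * (4 * (L ^ p * L)) := by ring
      _ ≤ Real.exp (L + -L ^ β) * Real.exp (1 / 2 * L ^ β) := by gcongr
      _ = Real.exp (L - 1 / 2 * L ^ β) := by rw [← Real.exp_add]; ring_nf
      _ ≤ Real.exp (L - L ^ b) := by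
          apply Real.exp_le_exp.2
          have : 0 ≤ L ^ b := Real.rpow_nonneg hL0.le _
          linarith
  have hAB : z / (2 * L) = z / (4 * L) + z / (4 * L) := by
    field_simp
    ring
  linarith

/-- the main theorem, with `dev` -/
theorem main (B β : ℝ) (hβ : 0 < β) (σ : ℝ) (hσ : σ = 1 ∨ σ = -1) : ∃ B₁ B₂ c : ℝ, B < B₁ ∧ B₁ < B₂ ∧ 0 < c ∧
    ∀ᶠ x : ℕ in atTop, ∃ Q₁ Q₂ : ℕ, (x : ℝ) / Real.log x ^ B₂ ≤ Q₁ ∧ Q₁ ≤ Q₂ ∧ (Q₂ : ℝ) ≤ x / Real.log x ^ B₁ ∧
      ∃ S : Finset ℕ, S ⊆ Icc 1 Q₁ ∧ x * Real.exp (-(Real.log x ^ β)) ≤ S.card ∧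
        ∀ a ∈ S, c * x * Real.log (Real.log x) / Real.log x ≤ σ * dev x a Q₁ Q₂ := by
  classical
  obtain ⟨a, ha, hBa⟩ : ∃ a : ℝ, 0 < a ∧ B < a := ⟨max B 0 + 1, by linarith [le_max_right B 0], by linarith [le_max_left B 0]⟩
  obtain ⟨β', hβ'⟩ : ∃ β' : ℝ, β' = min β (1 / 2) := ⟨_, rfl⟩
  have hβ'0 : 0 < β' := by rw [hβ']; exact lt_min hβ (by norm_num)
  have hβ'1 : β' ≤ 1 / 2 := by rw [hβ']; exact min_le_right _ _
  have hβ'2 : β' ≤ β := by rw [hβ']; exact min_le_left _ _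
  obtain ⟨b, hb⟩ : ∃ b : ℝ, b = min (β' / 2) (1 / 8) := ⟨_, rfl⟩
  have hb0 : 0 < b := by rw [hb]; exact lt_min (by linarith) (by norm_num)
  have hb8 : b ≤ 1 / 8 := by rw [hb]; exact min_le_right _ _
  have hbβ : b < β' := by
    have : b ≤ β' / 2 := by rw [hb]; exact min_le_left _ _
    linarith
  obtain ⟨κ, hκ, hcore⟩ := core a b ha hb0 hb8
  obtain ⟨δ, hδ, hδ1, hc⟩ := hcore σ hσ
  refine ⟨a + κ / 4, a + κ / 2, κ / 16 * (δ ^ 2 / 128), by linarith, by linarith, by positivity, ?_⟩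
  have hlogN : Tendsto (fun x : ℕ => Real.log (x : ℝ)) atTop atTop :=
    Real.tendsto_log_atTop.comp tendsto_natCast_atTop_atTop
  have hev : ∀ᶠ L : ℝ in atTop, 1 ≤ L ∧ 2 ≤ L ^ (κ / 8) ∧ L ^ (a + κ / 2) ≤ Real.exp L ∧ 1 ≤ κ / 16 * Real.log L := by
    have e1 := ev_rpow_exp (a + κ / 2) 1 1 one_pos
    have e2 : ∀ᶠ L : ℝ in atTop, 1 ≤ κ / 16 * Real.log L :=
      (Real.tendsto_log_atTop.const_mul_atTop (by positivity : 0 < κ / 16)).eventually_ge_atTop _
    filter_upwards [eventually_ge_atTop 1, (tendsto_rpow_atTop (by linarith : 0 < κ / 8)).eventually_ge_atTop 2, e1, e2]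
      with L g1 g2 g3 g4
    rw [one_mul, one_mul] at g3
    exact ⟨g1, g2, g3, g4⟩
  filter_upwards [hc, ev_count b β' (a + κ / 2) hbβ hβ'1 (by positivity) hb0, hlogN.eventually hev, eventually_gt_atTop 1]
    with x hx hcount hL hx1
  obtain ⟨P, hP, hW, hmain⟩ := hx
  obtain ⟨W, hWdef⟩ : ∃ W : ℕ, W = ∏ p ∈ P, p := ⟨_, rfl⟩
  rw [← hWdef] at hW hmain
  have hW0 : 0 < W := by
    rw [hWdef]
    exact prod_pos fun p hp => (hP p hp).pos
  have hcount := hcount W (by exact_mod_cast hW0) hW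
  have hxR : (0 : ℝ) < x := by exact_mod_cast (by omega : 0 < x)
  obtain ⟨L, hLdef⟩ : ∃ L : ℝ, L = Real.log x := ⟨_, rfl⟩
  rw [← hLdef] at hL hW hmain hcount ⊢
  obtain ⟨g1, g2, g3, g4⟩ := hL
  have hL0 : 0 < L := by linarith
  have hxe : (x : ℝ) = Real.exp L := by rw [hLdef, Real.exp_log hxR]
  obtain ⟨s, hs⟩ : ∃ s : ℝ, s = L ^ (κ / 8) := ⟨_, rfl⟩
  have hs0 : 0 < s := by rw [hs]; exact Real.rpow_pos_of_pos hL0 _
  rw [← hs] at g2
  have hT : L ^ a * L ^ (κ / 2) = L ^ (a + κ / 2) := by rw [← Real.rpow_add hL0]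
  have hT2 : L ^ a * L ^ (κ / 4) = L ^ (a + κ / 4) := by rw [← Real.rpow_add hL0]
  rw [hT, hT2] at hmain
  have hTT : L ^ (a + κ / 2) = L ^ (a + κ / 4) * s ^ 2 := by
    rw [hs, ← Real.rpow_natCast, ← Real.rpow_mul hL0.le, ← Real.rpow_add hL0]
    congr 1
    push_cast
    ring
  obtain ⟨T, hTd⟩ : ∃ T : ℝ, T = L ^ (a + κ / 2) := ⟨_, rfl⟩
  obtain ⟨T2, hT2d⟩ : ∃ T2 : ℝ, T2 = L ^ (a + κ / 4) := ⟨_, rfl⟩
  rw [← hTd, ← hT2d] at hTT hmain ⊢
  rw [← hTd] at g3 hcount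
  have hT20 : 0 < T2 := by rw [hT2d]; exact Real.rpow_pos_of_pos hL0 _
  have hT0 : 0 < T := by rw [hTd]; exact Real.rpow_pos_of_pos hL0 _
  obtain ⟨u, hu⟩ : ∃ u : ℕ, u = ⌈(x : ℝ) / T⌉₊ := ⟨_, rfl⟩
  have hxT : 1 ≤ (x : ℝ) / T := by
    rw [le_div_iff₀ hT0, one_mul, hxe]
    exact g3
  have hu1 : (x : ℝ) / T ≤ u := by rw [hu]; exact Nat.le_ceil _
  have hu2 : (u : ℝ) ≤ 2 * (x / T) := by
    have := Nat.ceil_lt_add_one (by positivity : 0 ≤ (x : ℝ) / T)
    rw [← hu] at this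
    linarith
  obtain ⟨η, hη⟩ : ∃ η : ℝ, η = δ / 16 := ⟨_, rfl⟩
  have hη0 : 0 ≤ η := by rw [hη]; positivity
  have hη1 : η ≤ 1 := by rw [hη]; linarith
  have hls : Real.log s = κ / 8 * Real.log L := by rw [hs, Real.log_rpow hL0]
  have hls0 : 0 ≤ Real.log s := by
    rw [hls]
    linarith
  obtain ⟨J, hJ⟩ : ∃ J : ℕ, J = ⌊Real.log s⌋₊ := ⟨_, rfl⟩
  have hJ1 : (J : ℝ) ≤ Real.log s := by rw [hJ]; exact Nat.floor_le hls0
  have hJ2 : κ / 16 * Real.log L ≤ J := by
    have := Nat.lt_floor_add_one (Real.log s)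
    rw [← hJ, hls] at this
    linarith
  have hend : Real.exp (η * J) * u ≤ x / T2 := by
    have e1 : Real.exp (η * J) ≤ s := by
      rw [← Real.exp_log hs0]
      apply Real.exp_le_exp.2
      have : (0 : ℝ) ≤ J := Nat.cast_nonneg _
      nlinarith only [this, hη1, hJ1]
    calc Real.exp (η * J) * u ≤ s * (2 * (x / T)) := by gcongr
      _ = (x / T2) * (2 / s) := by
          rw [hTT]
          field_simp
      _ ≤ (x / T2) * 1 := by
          apply mul_le_mul_of_nonneg_left _ (by positivity)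
          rw [div_le_one hs0]
          exact g2
      _ = _ := mul_one _
  obtain ⟨v, hv⟩ : ∃ v : ℕ, v = U η u J := ⟨_, rfl⟩
  have huv : u ≤ v := by rw [hv]; exact U_mono η u J
  refine ⟨u, v, hu1, huv, ?_, ?_⟩
  · rw [hv]
    exact (U_le η hη0 u J).trans hend
  · obtain ⟨M, hM⟩ : ∃ M : ℕ, M = ⌊(x : ℝ) / T / W⌋₊ := ⟨_, rfl⟩
    rw [← hM] at hcount
    have hWR : (0 : ℝ) < W := by exact_mod_cast hW0
    have hWM : (W : ℝ) * M ≤ x / T := by
      have e1 : (M : ℝ) ≤ x / T / W := by rw [hM]; exact Nat.floor_le (by positivity)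
      rw [le_div_iff₀ hWR] at e1
      linarith
    obtain ⟨m, hm⟩ : ∃ m : ℕ, m = ⌈Real.exp (L / 2)⌉₊ := ⟨_, rfl⟩
    have hm1 : Real.exp (L / 2) ≤ m := by rw [hm]; exact Nat.le_ceil _
    have hm2 : (m : ℝ) ≤ Real.exp (L / 2) + 1 := by
      have := Nat.ceil_lt_add_one (Real.exp_pos (L / 2)).le
      rw [← hm] at this
      linarith
    have hcl := count_l W M m hW0 x u (by
      have : (W : ℝ) * M ≤ u := hWM.trans hu1
      exact_mod_cast this)
      (fun c => κ / 16 * (δ ^ 2 / 128) * x * Real.log L / L ≤ σ * dev x c u v) (by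
        intro l hl hml hlM
        have hlR : (l : ℝ) ≤ M := by exact_mod_cast hlM
        have hcT : ((W * l : ℕ) : ℝ) ≤ x / T := by
          push_cast
          have := mul_le_mul_of_nonneg_left hlR hWR.le
          linarith
        have hbl := sum_blocks σ η (δ ^ 2 / 128 * x / L) (x / T) (x / T2) hη0 x (W * l) u hu1 (by
          intro w hw1 hw2
          rw [hη]
          exact hmain l hl (hm1.trans (by exact_mod_cast hml)) hcT w hw1 hw2) J hend
        rw [← hv] at hbl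
        refine le_trans ?_ hbl
        have h0 : 0 ≤ δ ^ 2 / 128 * x / L := by positivity
        calc κ / 16 * (δ ^ 2 / 128) * x * Real.log L / L = (κ / 16 * Real.log L) * (δ ^ 2 / 128 * x / L) := by ring
          _ ≤ J * (δ ^ 2 / 128 * x / L) := mul_le_mul_of_nonneg_right hJ2 h0)
    refine ⟨_, filter_subset _ _, ?_, fun a ha => (mem_filter.1 ha).2⟩
    have hbb : x * Real.exp (-(L ^ β)) ≤ x * Real.exp (-(L ^ β')) := by
      apply mul_le_mul_of_nonneg_left _ hxR.le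
      apply Real.exp_le_exp.2
      have := Real.rpow_le_rpow_of_exponent_le g1 hβ'2
      linarith
    linarith

end Pool.Agent.V5helper42.FG
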