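import Pool.Agent.V5helper42.FG.K5
import Pool.Agent.V5helper42.FG.G

/-!
# Friedlander-Granville phenomenon: growing number of prime factors, the residues (helper42)
-/

set_option autoImplicit false

namespace Pool.Agent.V5helper42.FG

open Finset Filter Topology Asymptotics

/-- the main theorem for the larger range -/
theorem main2 (ε β : ℝ) (hε : 0 < ε) (hβ : 0 < β) : ∃ c : ℝ, 0 < c ∧ ∀ σ : ℝ, (σ = 1 ∨ σ = -1) →
    ∀ᶠ x : ℕ in atTop, ∃ Q₁ Q₂ : ℕ, Q₁ ≤ Q₂ ∧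
      (Q₂ : ℝ) ≤ x * Real.exp (-(c * (Real.log (Real.log x) ^ 2 / Real.log (Real.log (Real.log x))))) ∧
      ∃ S : Finset ℕ, S ⊆ Icc 1 Q₁ ∧ x * Real.exp (-(Real.log x ^ β)) ≤ S.card ∧
        ∀ a ∈ S, x / Real.log x ^ (1 + ε) ≤ σ * dev x a Q₁ Q₂ := by
  classical
  obtain ⟨β', hβ'⟩ : ∃ β' : ℝ, β' = min β (1 / 2) := ⟨_, rfl⟩
  have hβ'0 : 0 < β' := by rw [hβ']; exact lt_min hβ (by norm_num)
  have hβ'1 : β' ≤ 1 / 2 := by rw [hβ']; exact min_le_right _ _
  have hβ'2 : β' ≤ β := by rw [hβ']; exact min_le_left _ _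
  -- `c1 < b < b' < b'' < β'`
  obtain ⟨c1, hc1d⟩ : ∃ c1 : ℝ, c1 = min (ε / 16) (β' / 1000) := ⟨_, rfl⟩
  have hc1 : 0 < c1 := by rw [hc1d]; exact lt_min (by positivity) (by positivity)
  have hc1ε : 16 * c1 ≤ ε := by
    have : c1 ≤ ε / 16 := by rw [hc1d]; exact min_le_left _ _
    linarith
  have hc1β : 1000 * c1 ≤ β' := by
    have : c1 ≤ β' / 1000 := by rw [hc1d]; exact min_le_right _ _
    linarith
  obtain ⟨b, hb⟩ : ∃ b : ℝ, b = 100 * c1 := ⟨_, rfl⟩
  obtain ⟨b', hb'⟩ : ∃ b' : ℝ, b' = 101 * c1 := ⟨_, rfl⟩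
  obtain ⟨b'', hb''⟩ : ∃ b'' : ℝ, b'' = 102 * c1 := ⟨_, rfl⟩
  refine ⟨7 * c1 ^ 2, by positivity, fun σ hσ => ?_⟩
  have hlogN : Tendsto (fun x : ℕ => Real.log (x : ℝ)) atTop atTop :=
    Real.tendsto_log_atTop.comp tendsto_natCast_atTop_atTop
  have hev : ∀ᶠ L : ℝ in atTop, 1 ≤ L ∧ 2 * L ^ b' ≤ L ^ b'' ∧ Real.log L ^ 2 ≤ L ^ b' := by
    have e2 : ∀ᶠ L : ℝ in atTop, Real.log L ^ 2 ≤ L ^ b' := by
      have h := (isLittleO_log_rpow_atTop (by rw [hb']; positivity : (0:ℝ) < b' / 2)).bound one_pos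
      filter_upwards [h, eventually_ge_atTop 1] with L hL h1
      rw [Real.norm_eq_abs, Real.norm_eq_abs, one_mul, abs_of_nonneg (Real.log_nonneg h1),
        abs_of_nonneg (Real.rpow_nonneg (by linarith) _)] at hL
      calc Real.log L ^ 2 ≤ (L ^ (b' / 2)) ^ 2 := pow_le_pow_left₀ (Real.log_nonneg h1) hL 2
        _ = L ^ b' := by
            rw [← Real.rpow_natCast, ← Real.rpow_mul (by linarith)]
            congr 1
            push_cast
            ring
    filter_upwards [eventually_ge_atTop 1, ev_rpow b' b'' 2 (by rw [hb', hb'']; linarith), e2] with L g1 g2 g3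
    exact ⟨g1, g2, g3⟩
  filter_upwards [core2 b b' c1 hc1 hb (by rw [hb, hb']; linarith) (by rw [hb']; linarith) σ hσ,
    ev_count b'' β' 1 (by rw [hb'']; linarith) hβ'1 one_pos (by rw [hb'']; positivity), hlogN.eventually hev,
    eventually_gt_atTop 1] with x hx hcount hL hx1
  obtain ⟨W, u, N, T, hW0, hW, hT1, hTl, hu1, hu2, hmain⟩ := hx
  have hxR : (0 : ℝ) < x := by exact_mod_cast (by omega : 0 < x)
  obtain ⟨L, hLdef⟩ : ∃ L : ℝ, L = Real.log x := ⟨_, rfl⟩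
  rw [← hLdef] at hL hW hTl hu2 hmain hcount ⊢
  obtain ⟨g1, g2, g3⟩ := hL
  have hL0 : 0 < L := by linarith
  have hT0 : 0 < T := by linarith
  have hWR : (0 : ℝ) < W := by exact_mod_cast hW0
  have hW1 : (1 : ℝ) ≤ W := by exact_mod_cast hW0
  have hcount := hcount (max 1 (W * T / L)) (le_max_left _ _) (by
    apply max_le
    · exact Real.one_le_exp (Real.rpow_nonneg hL0.le _)
    · have h1 : T ≤ Real.exp (L ^ b') := by
        rw [← Real.exp_log hT0]
        exact Real.exp_le_exp.2 (hTl.trans g3)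
      calc W * T / L ≤ W * T := div_le_self (by positivity) g1
        _ ≤ Real.exp (L ^ b') * Real.exp (L ^ b') := by gcongr
        _ = Real.exp (2 * L ^ b') := by rw [← Real.exp_add]; ring_nf
        _ ≤ _ := Real.exp_le_exp.2 g2)
  refine ⟨u, u + N, by omega, hu2, ?_⟩
  obtain ⟨M, hM⟩ : ∃ M : ℕ, M = ⌊(x : ℝ) / T / W⌋₊ := ⟨_, rfl⟩
  have hMle : ⌊(x : ℝ) / L ^ (1 : ℝ) / max 1 (W * T / L)⌋₊ ≤ M := by
    rw [hM]
    apply Nat.floor_le_floor
    rw [Real.rpow_one, div_div, div_div]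
    apply div_le_div_of_nonneg_left hxR.le (by positivity)
    have h1 : W * T / L ≤ max 1 (W * T / L) := le_max_right _ _
    have h2 := mul_le_mul_of_nonneg_left h1 hL0.le
    have h3 : L * (W * T / L) = T * W := by field_simp
    linarith
  have hcount2 : (Nat.primeCounting ⌊(x : ℝ) / L ^ (1 : ℝ) / max 1 (W * T / L)⌋₊ : ℝ) ≤ (Nat.primeCounting M : ℝ) := by
    exact_mod_cast Nat.monotone_primeCounting hMle
  have hWM : (W : ℝ) * M ≤ x / T := by
    have e1 : (M : ℝ) ≤ x / T / W := by rw [hM]; exact Nat.floor_le (by positivity)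
    rw [le_div_iff₀ hWR] at e1
    linarith
  obtain ⟨m, hm⟩ : ∃ m : ℕ, m = ⌈Real.exp (L / 2)⌉₊ := ⟨_, rfl⟩
  have hm1 : Real.exp (L / 2) ≤ m := by rw [hm]; exact Nat.le_ceil _
  have hm2 : (m : ℝ) ≤ Real.exp (L / 2) + 1 := by
    have := Nat.ceil_lt_add_one (Real.exp_pos (L / 2)).le
    rw [← hm] at this
    linarith
  have hcl := count_l W M m hW0 x u (by
    have : (W : ℝ) * M ≤ u := hWM.trans hu1
    exact_mod_cast this)
    (fun c => x / L ^ (1 + ε) ≤ σ * dev x c u (u + N)) (by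
      intro l hl hml hlM
      have hlR : (l : ℝ) ≤ M := by exact_mod_cast hlM
      have hcT : ((W * l : ℕ) : ℝ) ≤ x / T := by
        push_cast
        have := mul_le_mul_of_nonneg_left hlR hWR.le
        linarith
      refine le_trans ?_ (hmain l hl (hm1.trans (by exact_mod_cast hml)) hcT)
      apply div_le_div_of_nonneg_left hxR.le (Real.rpow_pos_of_pos hL0 _)
      exact Real.rpow_le_rpow_of_exponent_le g1 (by linarith))
  refine ⟨_, filter_subset _ _, ?_, fun a ha => (mem_filter.1 ha).2⟩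
  have hbb : x * Real.exp (-(L ^ β)) ≤ x * Real.exp (-(L ^ β')) := by
    apply mul_le_mul_of_nonneg_left _ hxR.le
    apply Real.exp_le_exp.2
    have := Real.rpow_le_rpow_of_exponent_le g1 hβ'2
    linarith
  linarith

end Pool.Agent.V5helper42.FG
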