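import Mathlib

/-!
# Friedlander-Granville phenomenon: counting (helper42)
-/

set_option autoImplicit false

namespace Pool.Agent.V5helper42.FG

open Finset

/-- number of primes `p ≤ x`, `p ≡ a (mod q)` -/
def pc (x q a : ℕ) : ℕ := ((Icc 1 x).filter (fun p => p.Prime ∧ p ≡ a [MOD q])).card

/-- number of the `q` in `(u, v]` with `c + q r` a prime at most `x` -/
def row (x c u v r : ℕ) : ℕ := ((Ioc u v).filter (fun q => c + q * r ≤ x ∧ (c + q * r).Prime)).card

lemma pc_eq (x q c R : ℕ) (hc : ¬ c.Prime) (hq : c < q) (hx : x < c + q * (R + 1)) :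
    pc x q c = ((Icc 1 R).filter (fun r => c + q * r ≤ x ∧ (c + q * r).Prime)).card := by
  unfold pc
  symm
  refine card_bij (fun r _ => c + q * r) ?_ ?_ ?_
  · intro r hr
    rw [mem_filter, mem_Icc] at hr
    rw [mem_filter, mem_Icc]
    refine ⟨⟨hr.2.2.pos, hr.2.1⟩, hr.2.2, ?_⟩
    unfold Nat.ModEq
    rw [Nat.add_mul_mod_self_left]
  · intro r _ r' _ h
    have h1 : q * r = q * r' := by simpa using h
    exact Nat.eq_of_mul_eq_mul_left (by omega) h1
  · intro p hp
    rw [mem_filter, mem_Icc] at hp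
    obtain ⟨⟨hp1, hpx⟩, hpp, hpc⟩ := hp
    have hmod : p % q = c := by
      have : p % q = c % q := hpc
      rw [this, Nat.mod_eq_of_lt hq]
    have hdec := Nat.div_add_mod p q
    rw [hmod] at hdec
    have hr1 : 1 ≤ p / q := by
      by_contra h
      have h0 : p / q = 0 := Nat.lt_one_iff.1 (not_le.1 h)
      rw [h0] at hdec
      have : p = c := by omega
      exact hc (this ▸ hpp)
    refine ⟨p / q, ?_, by rw [add_comm]; exact hdec⟩
    rw [mem_filter, mem_Icc]
    have e : c + q * (p / q) = p := by omega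
    rw [e]
    refine ⟨⟨hr1, ?_⟩, hpx, hpp⟩
    by_contra h
    have h2 : R + 1 ≤ p / q := by omega
    have h3 := Nat.mul_le_mul_left q h2
    omega

lemma sum_pc (x c u v R : ℕ) (hc : ¬ c.Prime) (hu : c ≤ u) (hx : x < c + u * (R + 1)) :
    ∑ q ∈ Ioc u v, pc x q c = ∑ r ∈ Icc 1 R, row x c u v r := by
  have h1 : ∀ q ∈ Ioc u v, pc x q c = ((Icc 1 R).filter (fun r => c + q * r ≤ x ∧ (c + q * r).Prime)).card := by
    intro q hq
    rw [mem_Ioc] at hq
    refine pc_eq x q c R hc (by omega) (lt_of_lt_of_le hx ?_)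
    have := Nat.mul_le_mul_right (R + 1) hq.1.le
    omega
  rw [sum_congr rfl h1]
  simp_rw [row, card_filter]
  rw [sum_comm]

/-- primes not coprime to the modulus -/
lemma row_zero (x c u v r : ℕ) (hc : 0 < c) (hu : 0 < u) (hr : 0 < r) (h : ¬ r.Coprime c) : row x c u v r = 0 := by
  unfold row
  rw [card_eq_zero, filter_eq_empty_iff]
  intro q hq hpr
  rw [mem_Ioc] at hq
  have hg : Nat.gcd r c ∣ c + q * r := by
    exact (Nat.dvd_add (Nat.gcd_dvd_right _ _) ((Nat.gcd_dvd_left r c).mul_left q))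
  rcases (Nat.dvd_prime hpr.2).1 hg with h1 | h1
  · exact h h1
  · have h2 := Nat.le_of_dvd hc (Nat.gcd_dvd_right r c)
    have h3 : 0 < q * r := Nat.mul_pos (by omega) hr
    omega

/-- the weight `μ²(d) / φ(d)` -/
noncomputable def w (d : ℕ) : ℝ := if Squarefree d then 1 / (d.totient : ℝ) else 0

lemma w_nonneg (d : ℕ) : 0 ≤ w d := by
  unfold w
  split_ifs <;> positivity

lemma w_one : w 1 = 1 := by
  unfold w
  rw [if_pos squarefree_one, Nat.totient_one]
  norm_num

lemma ratio_eq (n : ℕ) (hn : n ≠ 0) :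
    (n : ℝ) / (n.totient : ℝ) = ∏ p ∈ n.primeFactors, (1 + 1 / ((p : ℝ) - 1)) := by
  have h := Nat.totient_eq_mul_prod_factors n
  have h' : (n.totient : ℝ) = n * ∏ p ∈ n.primeFactors, (1 - (p : ℝ)⁻¹) := by
    have := congrArg (fun q : ℚ => (q : ℝ)) h
    push_cast at this
    exact this
  rw [h']
  have hn' : (n : ℝ) ≠ 0 := by exact_mod_cast hn
  rw [← div_div, div_self hn', one_div, ← Finset.prod_inv_distrib]
  apply Finset.prod_congr rfl
  intro p hp
  have h2 : (2 : ℝ) ≤ p := by exact_mod_cast (Nat.prime_of_mem_primeFactors hp).two_le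
  have h3 : (p : ℝ) - 1 ≠ 0 := by linarith
  have h4 : (p : ℝ) ≠ 0 := by linarith
  field_simp
  ring

lemma tot_prod (S : Finset ℕ) (hS : ∀ p ∈ S, p.Prime) : (∏ p ∈ S, p).totient = ∏ p ∈ S, (p - 1) := by
  classical
  induction S using Finset.induction_on with
  | empty => simp
  | insert a S ha ih =>
    rw [prod_insert ha, prod_insert ha, Nat.totient_mul, ih fun p hp => hS p (mem_insert_of_mem hp),
      Nat.totient_prime (hS a (mem_insert_self _ _))]
    apply Nat.Coprime.prod_right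
    intro p hp
    exact (Nat.coprime_primes (hS a (mem_insert_self _ _)) (hS p (mem_insert_of_mem hp))).2
      fun h => ha (h ▸ hp)

/-- `n / φ(n) = ∑_{d ∣ n} μ²(d) / φ(d)` -/
lemma ratio_sum (n : ℕ) (hn : n ≠ 0) : (n : ℝ) / (n.totient : ℝ) = ∑ d ∈ n.divisors, w d := by
  rw [ratio_eq n hn, prod_one_add]
  unfold w
  rw [← sum_filter]
  refine sum_bij (fun S _ => ∏ p ∈ S, p) ?_ ?_ ?_ ?_
  · intro S hS
    rw [mem_powerset] at hS
    rw [mem_filter, Nat.mem_divisors]
    have hpr : ∀ p ∈ S, p.Prime := fun p hp => Nat.prime_of_mem_primeFactors (hS hp)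
    refine ⟨⟨?_, hn⟩, ?_⟩
    · apply Finset.prod_primes_dvd
      · intro p hp; exact (hpr p hp).prime
      · intro p hp; exact Nat.dvd_of_mem_primeFactors (hS hp)
    · apply Finset.squarefree_prod_of_pairwise_isCoprime
      · intro p hp q hq hpq
        exact Nat.coprime_iff_isRelPrime.1 ((Nat.coprime_primes (hpr p hp) (hpr q hq)).2 hpq)
      · intro p hp; exact (hpr p hp).squarefree
  · intro S hS T hT h
    rw [mem_powerset] at hS hT
    have e : ∀ S : Finset ℕ, S ⊆ n.primeFactors → (∏ p ∈ S, p).primeFactors = S := fun S hS =>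
      Nat.primeFactors_prod fun p hp => Nat.prime_of_mem_primeFactors (hS hp)
    rw [← e S hS, ← e T hT, h]
  · intro d hd
    rw [mem_filter, Nat.mem_divisors] at hd
    exact ⟨d.primeFactors, mem_powerset.2 (Nat.primeFactors_mono hd.1.1 hn),
      Nat.prod_primeFactors_of_squarefree hd.2⟩
  · intro S hS
    rw [mem_powerset] at hS
    have hpr : ∀ p ∈ S, p.Prime := fun p hp => Nat.prime_of_mem_primeFactors (hS hp)
    rw [tot_prod S hpr]
    push_cast
    rw [one_div, ← prod_inv_distrib]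
    refine prod_congr rfl fun p hp => ?_
    rw [Nat.cast_sub (hpr p hp).one_le, one_div]
    norm_num

end Pool.Agent.V5helper42.FG
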