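import Pool.Agent.V5helper42.FG.A
import Pool.Agent.N75.DC.SW

/-!
# Friedlander-Granville phenomenon: one row (helper42)
-/

set_option autoImplicit false

namespace Pool.Agent.V5helper42.FG

open Finset
open Pool.Agent.N718.DC (lam pos S_SW)

/-- length of the interval of the primes of the row `r` -/
def len (x c u v r : ℕ) : ℕ := min (c + v * r) x - (c + u * r)

/-- number of the `q` in `(u, v]` with `c + q r ≤ x` -/
def mr (x c u v r : ℕ) : ℕ := ((Ioc u v).filter (fun q => c + q * r ≤ x)).card

lemma lam_row (x c u v r : ℕ) (hr : 0 < r) :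
    ∑ n ∈ (Ioc ((c + u * r : ℕ) : ℤ) ((min (c + v * r) x : ℕ) : ℤ)).filter (fun n => (r : ℤ) ∣ n - c), lam n =
      ∑ q ∈ (Ioc u v).filter (fun q => c + q * r ≤ x ∧ (c + q * r).Prime), Real.log ((c + q * r : ℕ) : ℝ) := by
  classical
  have h1 : ∑ n ∈ (Ioc ((c + u * r : ℕ) : ℤ) ((min (c + v * r) x : ℕ) : ℤ)).filter (fun n => (r : ℤ) ∣ n - c), lam n =
      ∑ n ∈ (Ioc ((c + u * r : ℕ) : ℤ) ((min (c + v * r) x : ℕ) : ℤ)).filter
        (fun n => (r : ℤ) ∣ n - c ∧ n.natAbs.Prime), lam n := by
    rw [← filter_filter]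
    symm
    apply sum_subset (filter_subset _ _)
    intro n hn hn2
    rw [mem_filter] at hn2
    unfold lam
    rw [if_neg]
    intro h
    exact hn2 ⟨hn, h.2⟩
  rw [h1]
  symm
  refine sum_bij (fun q _ => ((c + q * r : ℕ) : ℤ)) ?_ ?_ ?_ ?_
  · intro q hq
    rw [mem_filter, mem_Ioc] at hq
    rw [mem_filter, mem_Ioc]
    have a1 : c + u * r < c + q * r := by
      have := Nat.mul_lt_mul_of_pos_right hq.1.1 hr
      omega
    have a2 : c + q * r ≤ min (c + v * r) x := by
      rw [le_min_iff]
      have := Nat.mul_le_mul_right r hq.1.2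
      omega
    refine ⟨⟨by exact_mod_cast a1, by exact_mod_cast a2⟩, ⟨(q : ℤ), by push_cast; ring⟩, ?_⟩
    rw [Int.natAbs_natCast]
    exact hq.2.2
  · intro q _ q' _ h
    have h2 : c + q * r = c + q' * r := by exact_mod_cast h
    exact Nat.eq_of_mul_eq_mul_right hr (by omega)
  · intro n hn
    rw [mem_filter, mem_Ioc] at hn
    obtain ⟨⟨hn1, hn2⟩, ⟨k, hk⟩, hn3⟩ := hn
    have hn0 : 0 < n := lt_of_le_of_lt (Int.natCast_nonneg _) hn1
    have hrz : (0 : ℤ) < r := by exact_mod_cast hr
    have b1 : (u : ℤ) < k := by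
      push_cast at hn1
      nlinarith
    have b2 : k ≤ v := by
      have h3 : n ≤ ((c + v * r : ℕ) : ℤ) := hn2.trans (by exact_mod_cast min_le_left _ _)
      push_cast at h3
      nlinarith
    have hk0 : 0 ≤ k := le_trans (Int.natCast_nonneg _) b1.le
    obtain ⟨q, rfl⟩ := Int.eq_ofNat_of_zero_le hk0
    have e : n = ((c + q * r : ℕ) : ℤ) := by
      push_cast
      linarith [mul_comm (r : ℤ) (q : ℤ)]
    subst e
    rw [Int.natAbs_natCast] at hn3
    refine ⟨q, ?_, rfl⟩
    rw [mem_filter, mem_Ioc]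
    have h5 : c + q * r ≤ x := by
      have h4 : ((c + q * r : ℕ) : ℤ) ≤ (x : ℤ) := hn2.trans (by exact_mod_cast min_le_right _ _)
      exact_mod_cast h4
    exact ⟨⟨by exact_mod_cast b1, by exact_mod_cast b2⟩, h5, hn3⟩
  · intro q hq
    rw [mem_filter, mem_Ioc] at hq
    unfold lam
    rw [if_pos]
    · push_cast; rfl
    · refine ⟨by exact_mod_cast hq.2.2.pos, ?_⟩
      rw [Int.natAbs_natCast]
      exact hq.2.2

lemma row_bounds (x c u v r : ℕ) (hr : 0 < r) (hu : 0 < u) (E : ℝ)
    (hE : |∑ n ∈ (Ioc ((c + u * r : ℕ) : ℤ) ((min (c + v * r) x : ℕ) : ℤ)).filter (fun n => (r : ℤ) ∣ n - c), lam n -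
      (len x c u v r : ℝ) / (r.totient : ℝ)| ≤ E) :
    (len x c u v r : ℝ) / (r.totient : ℝ) - E ≤ Real.log x * row x c u v r ∧
      Real.log u * row x c u v r ≤ (len x c u v r : ℝ) / (r.totient : ℝ) + E := by
  rw [lam_row x c u v r hr, abs_le] at hE
  have h1 : ∑ q ∈ (Ioc u v).filter (fun q => c + q * r ≤ x ∧ (c + q * r).Prime), Real.log ((c + q * r : ℕ) : ℝ) ≤
      Real.log x * row x c u v r := by
    unfold row
    rw [mul_comm, ← nsmul_eq_mul]
    apply sum_le_card_nsmul
    intro q hq
    rw [mem_filter] at hq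
    exact Real.log_le_log (by exact_mod_cast hq.2.2.pos) (by exact_mod_cast hq.2.1)
  have h2 : Real.log u * row x c u v r ≤
      ∑ q ∈ (Ioc u v).filter (fun q => c + q * r ≤ x ∧ (c + q * r).Prime), Real.log ((c + q * r : ℕ) : ℝ) := by
    unfold row
    rw [mul_comm, ← nsmul_eq_mul]
    apply card_nsmul_le_sum
    intro q hq
    rw [mem_filter, mem_Ioc] at hq
    refine Real.log_le_log (by exact_mod_cast hu) ?_
    have : u ≤ c + q * r := by
      have := Nat.le_mul_of_pos_right q hr
      omega
    exact_mod_cast this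
  constructor
  · linarith [hE.1]
  · linarith [hE.2]

lemma len_bounds (x c u v r : ℕ) (hr : 0 < r) :
    r * mr x c u v r ≤ len x c u v r ∧ len x c u v r ≤ r * mr x c u v r + r := by
  have key : mr x c u v r = min v ((x - c) / r) - u ∨ x < c := by
    rcases Nat.lt_or_ge x c with h | h
    · exact Or.inr h
    left
    unfold mr
    rw [← Nat.card_Ioc u (min v ((x - c) / r))]
    congr 1
    ext q
    rw [mem_filter, mem_Ioc, mem_Ioc, le_min_iff, Nat.le_div_iff_mul_le hr]
    constructor
    · rintro ⟨⟨a1, a2⟩, a3⟩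
      exact ⟨a1, a2, by omega⟩
    · rintro ⟨a1, a2, a3⟩
      exact ⟨⟨a1, a2⟩, by omega⟩
  rcases key with key | key
  · rw [key]
    unfold len
    obtain ⟨y, hy⟩ : ∃ y : ℕ, y = (x - c) / r := ⟨_, rfl⟩
    rw [← hy]
    have hd1 : y * r ≤ x - c := by rw [hy]; exact Nat.div_mul_le_self _ _
    have hd2 : x - c < (y + 1) * r := by
      rw [hy]
      exact (Nat.div_lt_iff_lt_mul hr).1 (Nat.lt_succ_self _)
    rcases Nat.lt_or_ge x c with hxc | hxc
    · have h0 : x - c = 0 := by omega
      have hy0 : y = 0 := by rw [hy, h0, Nat.zero_div]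
      rw [hy0]
      have : min (c + v * r) x - (c + u * r) = 0 := by
        have := min_le_right (c + v * r) x
        omega
      rw [this]
      simp
    · rcases le_total v y with hvy | hvy
      · rw [min_eq_left hvy]
        have h3 : v * r ≤ y * r := Nat.mul_le_mul_right r hvy
        rw [min_eq_left (by omega)]
        have e : c + v * r - (c + u * r) = r * (v - u) := by
          rw [Nat.mul_sub, mul_comm r v, mul_comm r u]
          omega
        rw [e]
        omega
      · rw [min_eq_right hvy]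
        have h4 : r * (y - u) = y * r - u * r := by rw [Nat.mul_sub, mul_comm r y, mul_comm r u]
        rw [h4]
        have h5 : (y + 1) * r = y * r + r := by ring
        rw [h5] at hd2
        rcases Nat.lt_or_ge y v with hlt | hge
        · have h6 : (y + 1) * r ≤ v * r := Nat.mul_le_mul_right r hlt
          rw [h5] at h6
          rw [min_eq_right (by omega)]
          omega
        · have : y = v := le_antisymm hvy hge
          subst this
          rw [min_eq_left (by omega)]
          omega
  · have h1 : len x c u v r = 0 := by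
      unfold len
      have := min_le_right (c + v * r) x
      omega
    have h2 : mr x c u v r = 0 := by
      unfold mr
      rw [card_eq_zero, filter_eq_empty_iff]
      intro q _ h
      omega
    rw [h1, h2]
    simp

end Pool.Agent.V5helper42.FG
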