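import Pool.Agent.V5helper42.FG.B
import Pool.Agent.H316R2.Bv
import Pool.Agent.H385R2.Char

/-!
# Friedlander-Granville phenomenon: sums over the rows (helper42)
-/

set_option autoImplicit false

namespace Pool.Agent.V5helper42.FG

open Finset

/-- `∑ r / φ(r)` over the `r ≤ y` coprime to `c` -/
noncomputable def g (c y : ℕ) : ℝ := ∑ r ∈ (Icc 1 y).filter (fun r => r.Coprime c), (r : ℝ) / (r.totient : ℝ)

/-- number of the `n ≤ z` coprime to `c` -/
def vc (c z : ℕ) : ℕ := ((Icc 1 z).filter (fun n => n.Coprime c)).card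

lemma vc_mono (c : ℕ) : Monotone (vc c) := fun y z h =>
  card_le_card (filter_subset_filter _ (Icc_subset_Icc_right h))

lemma vc_sub_le (c y z : ℕ) (h : y ≤ z) : vc c z ≤ vc c y + (z - y) := by
  unfold vc
  have h1 : (Icc 1 z).filter (fun n => n.Coprime c) ⊆ (Icc 1 y).filter (fun n => n.Coprime c) ∪ Ioc y z := by
    intro n hn
    rw [mem_filter, mem_Icc] at hn
    rw [mem_union, mem_filter, mem_Icc, mem_Ioc]
    by_cases h2 : n ≤ y
    · exact Or.inl ⟨⟨hn.1.1, h2⟩, hn.2⟩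
    · exact Or.inr ⟨by omega, hn.1.2⟩
  refine (card_le_card h1).trans ((card_union_le _ _).trans ?_)
  rw [Nat.card_Ioc]

lemma vc_le (c z : ℕ) : vc c z ≤ z := by
  unfold vc
  refine (card_filter_le _ _).trans ?_
  rw [Nat.card_Icc]
  omega

/-- expansion of `g` -/
lemma g_eq (c y : ℕ) : g c y = ∑ d ∈ (Icc 1 y).filter (fun d => d.Coprime c), w d * (vc c (y / d) : ℝ) := by
  unfold g
  have h1 : ∀ r ∈ (Icc 1 y).filter (fun r => r.Coprime c), (r : ℝ) / (r.totient : ℝ) =
      ∑ d ∈ (Icc 1 y).filter (fun d => d.Coprime c), if d ∣ r then w d else 0 := by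
    intro r hr
    rw [mem_filter, mem_Icc] at hr
    rw [ratio_sum r (by omega), ← sum_filter]
    refine sum_congr ?_ fun _ _ => rfl
    ext d
    rw [Nat.mem_divisors, mem_filter, mem_filter, mem_Icc]
    constructor
    · rintro ⟨h2, h3⟩
      exact ⟨⟨⟨Nat.pos_of_dvd_of_pos h2 (by omega), (Nat.le_of_dvd (by omega) h2).trans hr.1.2⟩,
        Nat.Coprime.coprime_dvd_left h2 hr.2⟩, h2⟩
    · rintro ⟨_, h2⟩
      exact ⟨h2, by omega⟩
  rw [sum_congr rfl h1, sum_comm]
  refine sum_congr rfl fun d hd => ?_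
  rw [mem_filter, mem_Icc] at hd
  rw [← sum_filter, sum_const, nsmul_eq_mul, mul_comm]
  congr 2
  unfold vc
  symm
  refine card_bij (fun n _ => d * n) ?_ ?_ ?_
  · intro n hn
    rw [mem_filter, mem_Icc, Nat.le_div_iff_mul_le (by omega)] at hn
    rw [mem_filter, mem_filter, mem_Icc]
    have h2 : 1 ≤ d * n := Nat.mul_pos (by omega) (by omega)
    exact ⟨⟨⟨h2, by rw [mul_comm]; exact hn.1.2⟩, Nat.Coprime.mul_left hd.2 hn.2⟩, dvd_mul_right _ _⟩
  · intro n _ n' _ h
    exact Nat.eq_of_mul_eq_mul_left (by omega) h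
  · intro r hr
    rw [mem_filter, mem_filter, mem_Icc] at hr
    obtain ⟨⟨⟨h2, h3⟩, h4⟩, n, rfl⟩ := hr
    refine ⟨n, ?_, rfl⟩
    rw [mem_filter, mem_Icc, Nat.le_div_iff_mul_le (by omega)]
    refine ⟨⟨?_, by rw [mul_comm]; exact h3⟩, Nat.Coprime.coprime_dvd_left (dvd_mul_left _ _) h4⟩
    rcases Nat.eq_zero_or_pos n with h | h
    · rw [h] at h2; simp at h2
    · exact h

/-- the sum over the rows -/
lemma sum_mr (x c u v R : ℕ) (hx : x < c + u * (R + 1)) :
    ∑ r ∈ (Icc 1 R).filter (fun r => r.Coprime c), (r : ℝ) / (r.totient : ℝ) * (mr x c u v r : ℝ) =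
      ∑ q ∈ Ioc u v, if c ≤ x then g c ((x - c) / q) else 0 := by
  unfold mr
  simp_rw [card_filter]
  push_cast
  simp_rw [mul_sum]
  rw [sum_comm]
  refine sum_congr rfl fun q hq => ?_
  rw [mem_Ioc] at hq
  split_ifs with hcx
  · unfold g
    simp only [mul_ite, mul_one, mul_zero]
    rw [← sum_filter, filter_filter]
    refine sum_congr ?_ fun _ _ => rfl
    ext r
    rw [mem_filter, mem_filter, mem_Icc, mem_Icc, Nat.le_div_iff_mul_le (by omega)]
    constructor
    · rintro ⟨⟨h1, h2⟩, h3, h4⟩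
      exact ⟨⟨h1, by rw [mul_comm]; omega⟩, h3⟩
    · rintro ⟨⟨h1, h2⟩, h3⟩
      rw [mul_comm] at h2
      refine ⟨⟨h1, ?_⟩, h3, by omega⟩
      by_contra h
      have h5 : (R + 1) ≤ r := by omega
      have h6 := Nat.mul_le_mul hq.1.le h5
      omega
  · apply sum_eq_zero
    intro r _
    rw [if_neg (by omega), mul_zero]

lemma ratio_le (r : ℕ) (hr : 0 < r) : (r : ℝ) / (r.totient : ℝ) ≤ r := by
  have h1 : (1 : ℝ) ≤ r.totient := by exact_mod_cast Nat.totient_pos.2 hr
  exact div_le_self (Nat.cast_nonneg _) h1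

/-- both bounds for the number of primes -/
lemma total (x c u v R : ℕ) (E : ℝ) (hE0 : 0 ≤ E) (hc0 : 0 < c) (hc : ¬ c.Prime) (hu : c ≤ u)
    (hx : x < c + u * (R + 1)) (hcx : c ≤ x)
    (hE : ∀ r ∈ Icc 1 R, r.Coprime c →
      |∑ n ∈ (Ioc ((c + u * r : ℕ) : ℤ) ((min (c + v * r) x : ℕ) : ℤ)).filter (fun n => (r : ℤ) ∣ n - c),
        Pool.Agent.N718.DC.lam n - (len x c u v r : ℝ) / (r.totient : ℝ)| ≤ E) :
    ∑ q ∈ Ioc u v, g c ((x - c) / q) - R * E ≤ Real.log x * ∑ q ∈ Ioc u v, (pc x q c : ℝ) ∧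
      Real.log u * ∑ q ∈ Ioc u v, (pc x q c : ℝ) ≤ ∑ q ∈ Ioc u v, g c ((x - c) / q) + R * R + R * E := by
  have hu0 : 0 < u := by omega
  have h0 : ∑ q ∈ Ioc u v, (pc x q c : ℝ) = ∑ r ∈ (Icc 1 R).filter (fun r => r.Coprime c), (row x c u v r : ℝ) := by
    have h1 := sum_pc x c u v R hc hu hx
    have h2 : ∑ q ∈ Ioc u v, (pc x q c : ℝ) = ∑ r ∈ Icc 1 R, (row x c u v r : ℝ) := by exact_mod_cast h1
    rw [h2]
    symm
    apply sum_subset (filter_subset _ _)
    intro r hr hr2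
    rw [mem_Icc] at hr
    have h3 : ¬ r.Coprime c := fun h => hr2 (mem_filter.2 ⟨mem_Icc.2 hr, h⟩)
    rw [row_zero x c u v r hc0 hu0 (by omega) h3, Nat.cast_zero]
  have hm := sum_mr x c u v R hx
  simp only [if_pos hcx] at hm
  rw [h0, ← hm, mul_sum, mul_sum]
  have hcard : (((Icc 1 R).filter (fun r => r.Coprime c)).card : ℝ) ≤ R := by
    exact_mod_cast vc_le c R
  have hk : ∀ r ∈ (Icc 1 R).filter (fun r => r.Coprime c),
      (r : ℝ) / (r.totient : ℝ) * (mr x c u v r : ℝ) - E ≤ Real.log x * row x c u v r ∧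
      Real.log u * row x c u v r ≤ (r : ℝ) / (r.totient : ℝ) * (mr x c u v r : ℝ) + R + E := by
    intro r hr
    rw [mem_filter, mem_Icc] at hr
    have hr0 : 0 < r := by omega
    have a1 := row_bounds x c u v r hr0 hu0 E (hE r (mem_Icc.2 hr.1) hr.2)
    have a2 := len_bounds x c u v r hr0
    have hφ : (0 : ℝ) < r.totient := by exact_mod_cast Nat.totient_pos.2 hr0
    have a3 : (r : ℝ) * (mr x c u v r : ℝ) ≤ len x c u v r := by exact_mod_cast a2.1
    have a4 : (len x c u v r : ℝ) ≤ (r : ℝ) * (mr x c u v r : ℝ) + r := by exact_mod_cast a2.2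
    have a5 : (r : ℝ) / (r.totient : ℝ) * (mr x c u v r : ℝ) ≤ (len x c u v r : ℝ) / (r.totient : ℝ) := by
      rw [div_mul_eq_mul_div]
      exact div_le_div_of_nonneg_right a3 hφ.le
    have a6 : (len x c u v r : ℝ) / (r.totient : ℝ) ≤ (r : ℝ) / (r.totient : ℝ) * (mr x c u v r : ℝ) + R := by
      have b1 : (len x c u v r : ℝ) / (r.totient : ℝ) ≤ ((r : ℝ) * (mr x c u v r : ℝ) + r) / (r.totient : ℝ) :=
        div_le_div_of_nonneg_right a4 hφ.le
      rw [add_div] at b1
      have b2 := ratio_le r hr0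
      have b3 : (r : ℝ) ≤ R := by exact_mod_cast hr.1.2
      rw [div_mul_eq_mul_div]
      linarith
    constructor <;> linarith [a1.1, a1.2]
  constructor
  · have h1 : ∑ r ∈ (Icc 1 R).filter (fun r => r.Coprime c), ((r : ℝ) / (r.totient : ℝ) * (mr x c u v r : ℝ) - E) ≤
        ∑ r ∈ (Icc 1 R).filter (fun r => r.Coprime c), Real.log x * row x c u v r :=
      sum_le_sum fun r hr => (hk r hr).1
    rw [sum_sub_distrib, sum_const, nsmul_eq_mul] at h1
    have h2 := mul_le_mul_of_nonneg_right hcard hE0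
    linarith
  · have h1 : ∑ r ∈ (Icc 1 R).filter (fun r => r.Coprime c), Real.log u * row x c u v r ≤
        ∑ r ∈ (Icc 1 R).filter (fun r => r.Coprime c), ((r : ℝ) / (r.totient : ℝ) * (mr x c u v r : ℝ) + R + E) :=
      sum_le_sum fun r hr => (hk r hr).2
    rw [sum_add_distrib, sum_add_distrib, sum_const, sum_const, nsmul_eq_mul, nsmul_eq_mul] at h1
    have h2 := mul_le_mul_of_nonneg_right hcard hE0
    have h3 := mul_le_mul_of_nonneg_right hcard (Nat.cast_nonneg (α := ℝ) R)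
    linarith

/-- the expected number -/
lemma expected (c u v : ℕ) (hu : 0 < u) (huv : u ≤ v) :
    ∑ q ∈ (Ioc u v).filter (fun q => q.Coprime c), 1 / (q.totient : ℝ) ≤ (g c v - g c u) / u ∧
      (g c v - g c u) / v ≤ ∑ q ∈ (Ioc u v).filter (fun q => q.Coprime c), 1 / (q.totient : ℝ) := by
  have h1 : g c v - g c u = ∑ q ∈ (Ioc u v).filter (fun q => q.Coprime c), (q : ℝ) / (q.totient : ℝ) := by
    unfold g
    rw [sub_eq_iff_eq_add, add_comm, ← sum_union]
    · refine sum_congr ?_ fun _ _ => rfl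
      rw [← filter_union]
      congr 1
      ext n
      simp only [mem_Icc, mem_union, mem_Ioc]
      omega
    · rw [disjoint_left]
      intro n hn hn2
      rw [mem_filter, mem_Icc] at hn
      rw [mem_filter, mem_Ioc] at hn2
      omega
  have huR : (0 : ℝ) < u := by exact_mod_cast hu
  have hvR : (0 : ℝ) < v := by exact_mod_cast (by omega : 0 < v)
  rw [h1]
  constructor
  · rw [sum_div]
    apply sum_le_sum
    intro q hq
    rw [mem_filter, mem_Ioc] at hq
    have hφ : (0 : ℝ) < q.totient := by exact_mod_cast Nat.totient_pos.2 (by omega : 0 < q)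
    rw [div_div, div_le_div_iff₀ hφ (by positivity)]
    have : (u : ℝ) ≤ q := by exact_mod_cast hq.1.1.le
    nlinarith
  · rw [sum_div]
    apply sum_le_sum
    intro q hq
    rw [mem_filter, mem_Ioc] at hq
    have hφ : (0 : ℝ) < q.totient := by exact_mod_cast Nat.totient_pos.2 (by omega : 0 < q)
    rw [div_div, div_le_div_iff₀ (by positivity) hφ]
    have : (q : ℝ) ≤ v := by exact_mod_cast hq.1.2
    nlinarith

end Pool.Agent.V5helper42.FG
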