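import Pool.Agent.V5helper42.FG.C
import Pool.Agent.N610.MS.LEG
import Pool.Agent.N610.MS.BON

/-!
# Friedlander-Granville phenomenon: the function `g` (helper42)
-/

set_option autoImplicit false

namespace Pool.Agent.V5helper42.FG

open Finset

lemma w_le (d : ℕ) (hd : 1 ≤ d) : w d ≤ 2 / Real.sqrt d := by
  have h1 := H385.sqrt_le_totient d hd
  have h2 : 0 < Real.sqrt d := Real.sqrt_pos.2 (by exact_mod_cast hd)
  have h3 : (0 : ℝ) < d.totient := by exact_mod_cast Nat.totient_pos.2 (by omega : 0 < d)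
  unfold w
  split_ifs
  · rw [div_le_div_iff₀ h3 h2]
    linarith
  · positivity

lemma w_le_inv (d : ℕ) : w d ≤ 1 / (d.totient : ℝ) := by
  unfold w
  split_ifs
  · exact le_rfl
  · positivity

lemma sum_w (v : ℕ) : ∑ d ∈ Icc 1 v, w d ≤ (1 + Real.log v) ^ 2 :=
  (sum_le_sum fun d _ => w_le_inv d).trans (Pool.Agent.H316R2.sum_inv_tot v)

lemma tail_aux (d : ℕ) (hd : 1 ≤ d) :
    w (d + 1) / ((d + 1 : ℕ) : ℝ) ≤ 4 * (1 / Real.sqrt d - 1 / Real.sqrt ((d + 1 : ℕ) : ℝ)) := by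
  have hd0 : (0 : ℝ) < d := by exact_mod_cast hd
  have hd1 : (0 : ℝ) < ((d + 1 : ℕ) : ℝ) := by positivity
  obtain ⟨a, ha⟩ : ∃ a : ℝ, a = Real.sqrt d := ⟨_, rfl⟩
  obtain ⟨b, hb⟩ : ∃ b : ℝ, b = Real.sqrt ((d + 1 : ℕ) : ℝ) := ⟨_, rfl⟩
  have ha0 : 0 < a := by rw [ha]; exact Real.sqrt_pos.2 hd0
  have hb0 : 0 < b := by rw [hb]; exact Real.sqrt_pos.2 hd1
  have ha2 : a * a = d := by rw [ha]; exact Real.mul_self_sqrt hd0.le
  have hb2 : b * b = ((d + 1 : ℕ) : ℝ) := by rw [hb]; exact Real.mul_self_sqrt hd1.le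
  have hab : a ≤ b := by
    rw [ha, hb]
    exact Real.sqrt_le_sqrt (by push_cast; linarith)
  have hdiff : b * b - a * a = 1 := by rw [ha2, hb2]; push_cast; ring
  have h1 := w_le (d + 1) (by omega)
  rw [← hb] at h1
  rw [← ha, ← hb]
  have h2 : w (d + 1) / ((d + 1 : ℕ) : ℝ) ≤ 2 / b / (b * b) := by
    rw [hb2]
    exact div_le_div_of_nonneg_right h1 hd1.le
  refine h2.trans ?_
  have h3 : (b - a) * (b + a) = 1 := by linarith [hdiff]
  have h4 : 1 / a - 1 / b = (b - a) / (a * b) := by field_simp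
  rw [h4]
  have h5 : 1 ≤ (b - a) * (2 * b) := by
    rw [← h3]
    exact mul_le_mul_of_nonneg_left (by linarith) (by linarith)
  rw [div_div, mul_div_assoc', div_le_div_iff₀ (by positivity) (by positivity)]
  have h6 : a * b ≤ b * b := mul_le_mul_of_nonneg_right hab hb0.le
  have h7 : (b * (b * b)) * 2 ≤ 4 * (b - a) * (b * (b * b)) * b := by
    have h8 : 0 < b * (b * b) := by positivity
    nlinarith [mul_le_mul_of_nonneg_left h5 h8.le]
  nlinarith [mul_le_mul_of_nonneg_left h5 (by positivity : (0 : ℝ) ≤ a * b), mul_nonneg (sub_nonneg.2 hab) (by positivity : (0 : ℝ) ≤ b)]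

lemma tail (D y : ℕ) (hD : 1 ≤ D) : ∑ d ∈ Ioc D y, w d / (d : ℝ) ≤ 4 / Real.sqrt D := by
  have key : ∀ k : ℕ, ∑ d ∈ Ioc D (D + k), w d / (d : ℝ) ≤ 4 * (1 / Real.sqrt D - 1 / Real.sqrt ((D + k : ℕ) : ℝ)) := by
    intro k
    induction k with
    | zero => simp
    | succ k ih =>
      have e : Ioc D (D + (k + 1)) = insert (D + k + 1) (Ioc D (D + k)) := by
        ext n
        simp only [mem_Ioc, mem_insert]
        omega
      rw [e, sum_insert (by simp)]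
      have h1 := tail_aux (D + k) (by omega)
      have e2 : D + (k + 1) = D + k + 1 := by omega
      rw [e2]
      linarith
  rcases Nat.lt_or_ge y D with h | h
  · rw [Ioc_eq_empty (by omega), sum_empty]
    positivity
  · obtain ⟨k, rfl⟩ := Nat.exists_eq_add_of_le h
    refine (key k).trans ?_
    have : 0 ≤ 1 / Real.sqrt ((D + k : ℕ) : ℝ) := by positivity
    rw [div_eq_mul_one_div 4]
    linarith

/-- truncated main factor -/
noncomputable def GD (c D : ℕ) : ℝ := ∑ d ∈ (Icc 1 D).filter (fun d => d.Coprime c), w d / (d : ℝ)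

lemma one_le_GD (c D : ℕ) (hD : 1 ≤ D) : 1 ≤ GD c D := by
  have h1 : w 1 / ((1 : ℕ) : ℝ) ≤ GD c D := by
    unfold GD
    apply single_le_sum (f := fun d : ℕ => w d / (d : ℝ)) (fun d _ => div_nonneg (w_nonneg d) (Nat.cast_nonneg d))
    rw [mem_filter, mem_Icc]
    exact ⟨⟨le_rfl, hD⟩, Nat.coprime_one_left c⟩
  rw [w_one] at h1
  simpa using h1

/-- differences of `g` -/
lemma g_diff (c u v D : ℕ) (ρ E0 : ℝ) (hρ0 : 0 ≤ ρ) (hρ1 : ρ ≤ 1) (hE0 : 0 ≤ E0) (hD : 1 ≤ D) (hDv : D ≤ v) (huv : u ≤ v)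
    (hV : ∀ z : ℕ, |(vc c z : ℝ) - ρ * z| ≤ E0) :
    g c v - g c u ≤ ((v : ℝ) - u) * (ρ * GD c D) + (2 * E0 + 2) * (1 + Real.log v) ^ 2 +
        ((v : ℝ) - u) * (4 / Real.sqrt D) ∧
      ((v : ℝ) - u) * (ρ * GD c D) - (2 * E0 + 2) * (1 + Real.log v) ^ 2 ≤ g c v - g c u := by
  have huvR : (u : ℝ) ≤ v := by exact_mod_cast huv
  have hgu : g c u = ∑ d ∈ (Icc 1 v).filter (fun d => d.Coprime c), w d * (vc c (u / d) : ℝ) := by
    rw [g_eq]
    apply sum_subset (filter_subset_filter _ (Icc_subset_Icc_right huv))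
    intro d hd hd2
    rw [mem_filter, mem_Icc] at hd
    have h1 : u < d := by
      by_contra h
      exact hd2 (mem_filter.2 ⟨mem_Icc.2 ⟨hd.1.1, by omega⟩, hd.2⟩)
    rw [Nat.div_eq_of_lt h1]
    simp [vc]
  have hdiff : g c v - g c u = ∑ d ∈ (Icc 1 v).filter (fun d => d.Coprime c),
      w d * ((vc c (v / d) : ℝ) - vc c (u / d)) := by
    rw [hgu, g_eq, ← sum_sub_distrib]
    exact sum_congr rfl fun d _ => by ring
  obtain ⟨A, hA⟩ : ∃ A : Finset ℕ, A = (Icc 1 D).filter (fun d => d.Coprime c) := ⟨_, rfl⟩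
  obtain ⟨A', hA'⟩ : ∃ A' : Finset ℕ, A' = (Ioc D v).filter (fun d => d.Coprime c) := ⟨_, rfl⟩
  have hsplit : (Icc 1 v).filter (fun d => d.Coprime c) = A ∪ A' := by
    rw [hA, hA', ← filter_union]
    congr 1
    ext n
    simp only [mem_Icc, mem_union, mem_Ioc]
    omega
  have hdisj : Disjoint A A' := by
    rw [hA, hA', disjoint_left]
    intro n hn hn2
    rw [mem_filter, mem_Icc] at hn
    rw [mem_filter, mem_Ioc] at hn2
    omega
  rw [hdiff, hsplit, sum_union hdisj]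
  have hGD : GD c D = ∑ d ∈ A, w d / (d : ℝ) := by rw [hA]; rfl
  have hdiv : ∀ n d : ℕ, 0 < d → ((n / d : ℕ) : ℝ) ≤ (n : ℝ) / d ∧ (n : ℝ) / d - 1 ≤ ((n / d : ℕ) : ℝ) := by
    intro n d hd
    refine ⟨Nat.cast_div_le, ?_⟩
    have h2 : (n : ℝ) / d < ((n / d : ℕ) : ℝ) + 1 := by
      rw [div_lt_iff₀ (by exact_mod_cast hd)]
      have h3 : n < (n / d + 1) * d := (Nat.div_lt_iff_lt_mul hd).1 (Nat.lt_succ_self _)
      exact_mod_cast h3
    linarith
  have hAw : ∑ d ∈ A, w d ≤ (1 + Real.log v) ^ 2 := by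
    refine le_trans (sum_le_sum_of_subset_of_nonneg ?_ fun d _ _ => w_nonneg d) (sum_w v)
    intro d hd
    rw [hA, mem_filter, mem_Icc] at hd
    exact mem_Icc.2 ⟨hd.1.1, hd.1.2.trans hDv⟩
  have hAw' : ∑ d ∈ A', w d ≤ (1 + Real.log v) ^ 2 := by
    refine le_trans (sum_le_sum_of_subset_of_nonneg ?_ fun d _ _ => w_nonneg d) (sum_w v)
    intro d hd
    rw [hA', mem_filter, mem_Ioc] at hd
    exact mem_Icc.2 ⟨by omega, hd.1.2⟩
  have hAt : ∑ d ∈ A', w d / (d : ℝ) ≤ 4 / Real.sqrt D := by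
    refine le_trans (sum_le_sum_of_subset_of_nonneg ?_ fun d _ _ => div_nonneg (w_nonneg d) (Nat.cast_nonneg d)) (tail D v hD)
    rw [hA']
    exact filter_subset _ _
  have hmemA : ∀ d ∈ A, 0 < d := fun d hd => by
    rw [hA, mem_filter, mem_Icc] at hd
    omega
  have hmemA' : ∀ d ∈ A', 0 < d := fun d hd => by
    rw [hA', mem_filter, mem_Ioc] at hd
    omega
  have k1 : ∀ d ∈ A, w d * ((vc c (v / d) : ℝ) - vc c (u / d)) ≤
        ((v : ℝ) - u) * ρ * (w d / d) + (2 * E0 + 1) * w d ∧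
      ((v : ℝ) - u) * ρ * (w d / d) - (2 * E0 + 1) * w d ≤ w d * ((vc c (v / d) : ℝ) - vc c (u / d)) := by
    intro d hd
    have hd0 := hmemA d hd
    have hdR : (0 : ℝ) < d := by exact_mod_cast hd0
    have a1 := abs_le.1 (hV (v / d))
    have a2 := abs_le.1 (hV (u / d))
    have a3 := hdiv v d hd0
    have a4 := hdiv u d hd0
    have e1 : ((v : ℝ) - u) * ρ * (w d / d) = w d * (ρ * ((v : ℝ) / d - u / d)) := by ring
    have hw := w_nonneg d
    have b1 : ρ * ((v / d : ℕ) : ℝ) ≤ ρ * ((v : ℝ) / d) := mul_le_mul_of_nonneg_left a3.1 hρ0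
    have b2 : ρ * ((v : ℝ) / d - 1) ≤ ρ * ((v / d : ℕ) : ℝ) := mul_le_mul_of_nonneg_left a3.2 hρ0
    have b3 : ρ * ((u / d : ℕ) : ℝ) ≤ ρ * ((u : ℝ) / d) := mul_le_mul_of_nonneg_left a4.1 hρ0
    have b4 : ρ * ((u : ℝ) / d - 1) ≤ ρ * ((u / d : ℕ) : ℝ) := mul_le_mul_of_nonneg_left a4.2 hρ0
    rw [mul_sub, mul_one] at b2 b4
    rw [e1]
    constructor
    · have : (vc c (v / d) : ℝ) - vc c (u / d) ≤ ρ * ((v : ℝ) / d - u / d) + (2 * E0 + 1) := by
        rw [mul_sub]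
        linarith [a1.2, a2.1]
      calc _ ≤ w d * (ρ * ((v : ℝ) / d - u / d) + (2 * E0 + 1)) := mul_le_mul_of_nonneg_left this hw
        _ = _ := by ring
    · have : ρ * ((v : ℝ) / d - u / d) - (2 * E0 + 1) ≤ (vc c (v / d) : ℝ) - vc c (u / d) := by
        rw [mul_sub]
        linarith [a1.1, a2.2]
      calc _ = w d * (ρ * ((v : ℝ) / d - u / d) - (2 * E0 + 1)) := by ring
        _ ≤ _ := mul_le_mul_of_nonneg_left this hw
  have k2 : ∀ d ∈ A', 0 ≤ w d * ((vc c (v / d) : ℝ) - vc c (u / d)) ∧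
      w d * ((vc c (v / d) : ℝ) - vc c (u / d)) ≤ ((v : ℝ) - u) * (w d / d) + w d := by
    intro d hd
    have hd0 := hmemA' d hd
    have hdR : (0 : ℝ) < d := by exact_mod_cast hd0
    have hle : u / d ≤ v / d := Nat.div_le_div_right huv
    have hw := w_nonneg d
    have a1 : (vc c (u / d) : ℝ) ≤ vc c (v / d) := by exact_mod_cast vc_mono c hle
    have a2 : (vc c (v / d) : ℝ) ≤ vc c (u / d) + (((v / d : ℕ) : ℝ) - ((u / d : ℕ) : ℝ)) := by
      have := vc_sub_le c (u / d) (v / d) hle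
      have h3 : ((vc c (v / d) : ℕ) : ℝ) ≤ ((vc c (u / d) + (v / d - u / d) : ℕ) : ℝ) := by exact_mod_cast this
      rw [Nat.cast_add, Nat.cast_sub hle] at h3
      exact h3
    have a3 := hdiv v d hd0
    have a4 := hdiv u d hd0
    refine ⟨mul_nonneg hw (by linarith), ?_⟩
    have : (vc c (v / d) : ℝ) - vc c (u / d) ≤ ((v : ℝ) / d - u / d) + 1 := by linarith [a3.1, a4.2]
    calc _ ≤ w d * (((v : ℝ) / d - u / d) + 1) := mul_le_mul_of_nonneg_left this hw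
      _ = _ := by ring
  have hE1 : 0 ≤ (2 * E0 + 1) := by linarith
  constructor
  · have c1 := sum_le_sum fun d hd => (k1 d hd).1
    have c2 := sum_le_sum fun d hd => (k2 d hd).2
    rw [sum_add_distrib, ← mul_sum, ← mul_sum, ← hGD] at c1
    rw [sum_add_distrib, ← mul_sum] at c2
    have c3 := mul_le_mul_of_nonneg_left hAw hE1
    have c4 := mul_le_mul_of_nonneg_left hAt (sub_nonneg.2 huvR)
    calc _ ≤ (((v : ℝ) - u) * ρ * GD c D + (2 * E0 + 1) * ∑ d ∈ A, w d) +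
          (((v : ℝ) - u) * ∑ d ∈ A', w d / (d : ℝ) + ∑ d ∈ A', w d) := add_le_add c1 c2
      _ ≤ _ := by nlinarith
  · have c1 := sum_le_sum fun d hd => (k1 d hd).2
    have c2 : 0 ≤ ∑ d ∈ A', w d * ((vc c (v / d) : ℝ) - vc c (u / d)) := sum_nonneg fun d hd => (k2 d hd).1
    rw [sum_sub_distrib, ← mul_sum, ← mul_sum, ← hGD] at c1
    have c3 := mul_le_mul_of_nonneg_left hAw hE1
    have c4 : 0 ≤ (1 + Real.log v) ^ 2 := sq_nonneg _
    calc _ ≤ ((v : ℝ) - u) * ρ * GD c D - (2 * E0 + 1) * ∑ d ∈ A, w d := by nlinarith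
      _ ≤ _ := by linarith

/-- one value of `g` from the irregularities, many numbers -/
lemma g_low (c y D : ℕ) (Y ρ δ : ℝ) (hDy : D ≤ y)
    (h : ∀ d ∈ Icc 1 D, (1 + 2 * δ) * ρ * (Y / d) ≤ vc c (y / d)) : (1 + 2 * δ) * ρ * Y * GD c D ≤ g c y := by
  rw [g_eq]
  unfold GD
  rw [mul_sum]
  refine le_trans (sum_le_sum fun d hd => ?_) (sum_le_sum_of_subset_of_nonneg
    (filter_subset_filter _ (Icc_subset_Icc_right hDy)) fun d _ _ => mul_nonneg (w_nonneg d) (Nat.cast_nonneg _))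
  rw [mem_filter] at hd
  have := mul_le_mul_of_nonneg_left (h d hd.1) (w_nonneg d)
  refine le_trans (le_of_eq ?_) this
  ring

/-- one value of `g` from the irregularities, few numbers -/
lemma g_up (c y D : ℕ) (Y ρ δ : ℝ) (hD : 1 ≤ D) (hDy : D ≤ y) (hyY : (y : ℝ) ≤ Y)
    (h : ∀ d ∈ Icc 1 D, (vc c (y / d) : ℝ) ≤ (1 - 2 * δ) * ρ * (Y / d)) :
    g c y ≤ (1 - 2 * δ) * ρ * Y * GD c D + Y * (4 / Real.sqrt D) := by
  rw [g_eq]
  unfold GD
  have hsplit : (Icc 1 y).filter (fun d => d.Coprime c) =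
      (Icc 1 D).filter (fun d => d.Coprime c) ∪ (Ioc D y).filter (fun d => d.Coprime c) := by
    rw [← filter_union]
    congr 1
    ext n
    simp only [mem_Icc, mem_union, mem_Ioc]
    omega
  have hdisj : Disjoint ((Icc 1 D).filter (fun d => d.Coprime c)) ((Ioc D y).filter (fun d => d.Coprime c)) := by
    rw [disjoint_left]
    intro n hn hn2
    rw [mem_filter, mem_Icc] at hn
    rw [mem_filter, mem_Ioc] at hn2
    omega
  have hy0 : (0 : ℝ) ≤ y := Nat.cast_nonneg _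
  rw [hsplit, sum_union hdisj, mul_sum]
  apply add_le_add
  · apply sum_le_sum
    intro d hd
    rw [mem_filter] at hd
    have := mul_le_mul_of_nonneg_left (h d hd.1) (w_nonneg d)
    refine le_trans this (le_of_eq ?_)
    ring
  · have h1 : ∑ d ∈ (Ioc D y).filter (fun d => d.Coprime c), w d * (vc c (y / d) : ℝ) ≤
        ∑ d ∈ Ioc D y, Y * (w d / (d : ℝ)) := by
      refine le_trans (sum_le_sum fun d hd => ?_) (sum_le_sum_of_subset_of_nonneg
        (filter_subset _ _) fun d _ _ => mul_nonneg (by linarith) (div_nonneg (w_nonneg d) (Nat.cast_nonneg _)))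
      rw [mem_filter, mem_Ioc] at hd
      have a1 : (vc c (y / d) : ℝ) ≤ Y / d := by
        have a2 : (vc c (y / d) : ℝ) ≤ ((y / d : ℕ) : ℝ) := by exact_mod_cast vc_le c _
        have a3 : ((y / d : ℕ) : ℝ) ≤ (y : ℝ) / d := Nat.cast_div_le
        have a4 : (y : ℝ) / d ≤ Y / d := div_le_div_of_nonneg_right hyY (Nat.cast_nonneg _)
        linarith
      calc w d * (vc c (y / d) : ℝ) ≤ w d * (Y / d) := mul_le_mul_of_nonneg_left a1 (w_nonneg d)
        _ = Y * (w d / (d : ℝ)) := by ring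
    refine h1.trans ?_
    rw [← mul_sum]
    exact mul_le_mul_of_nonneg_left (tail D y hD) (by linarith)

open Pool.Agent.N610.MS in
/-- Legendre's formula -/
lemma legendre (P : Finset ℕ) (hP : ∀ p ∈ P, p.Prime) (z : ℕ) :
    |(vc (∏ p ∈ P, p) z : ℝ) - (∏ p ∈ P, (1 - 1 / (p : ℝ))) * z| ≤ ((P.card : ℝ) + 1) ^ P.card := by
  have hvc : vc (∏ p ∈ P, p) z = V P z := by
    unfold vc V
    congr 1
    refine filter_congr fun h _ => ?_
    rw [Nat.coprime_prod_right_iff]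
    refine forall₂_congr fun p hp => ?_
    rw [Nat.coprime_comm, (hP p hp).coprime_iff_not_dvd]
  obtain ⟨h1, _⟩ := t_LEG t_BON P hP P.card z (Nat.cast_nonneg z)
  have hx : ∀ p ∈ P, 0 ≤ (1 : ℝ) / p ∧ (1 : ℝ) / p ≤ 1 := by
    intro p hp
    have : (1 : ℝ) ≤ p := by exact_mod_cast (hP p hp).one_le
    exact ⟨by positivity, by rw [div_le_one (by linarith)]; exact this⟩
  obtain ⟨h2, _⟩ := t_BON P (fun p => 1 / (p : ℝ)) hx
  obtain ⟨h3, h4⟩ := h2 P.card
  have he : e P (fun p => 1 / (p : ℝ)) (P.card + 1) = 0 := by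
    unfold e
    rw [powersetCard_eq_empty.2 (Nat.lt_succ_self _), sum_empty]
  rw [he] at h1 h4
  have h5 : alt P (fun p => 1 / (p : ℝ)) P.card = ∏ p ∈ P, (1 - 1 / (p : ℝ)) := by
    have h6 : (-1 : ℝ) ^ P.card * (alt P (fun p => 1 / (p : ℝ)) P.card - ∏ p ∈ P, (1 - 1 / (p : ℝ))) = 0 :=
      le_antisymm h4 h3
    rcases mul_eq_zero.1 h6 with h7 | h7
    · exact absurd h7 (pow_ne_zero _ (by norm_num))
    · linarith
  rw [h5, Nat.floor_natCast, mul_zero, zero_add] at h1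
  rw [hvc, mul_comm]
  exact h1

end Pool.Agent.V5helper42.FG
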