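import Pool.Agent.V5helper42.FG.D

/-!
# Friedlander-Granville phenomenon: one block of moduli (helper42)
-/

set_option autoImplicit false

namespace Pool.Agent.V5helper42.FG

open Finset

/-- classes not coprime to the modulus -/
lemma pc_zero (x q c : ℕ) (hc : ¬ c.Prime) (hc0 : 0 < c) (hq : c < q) (h : ¬ q.Coprime c) : pc x q c = 0 := by
  unfold pc
  rw [card_eq_zero, filter_eq_empty_iff]
  rintro p _ ⟨hp, hpc⟩
  have hg : Nat.gcd q c ∣ p := by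
    have h1 : p ≡ c [MOD Nat.gcd q c] := hpc.of_dvd (Nat.gcd_dvd_left q c)
    exact (h1.dvd_iff dvd_rfl).2 (Nat.gcd_dvd_right q c)
  rcases (Nat.dvd_prime hp).1 hg with h1 | h1
  · exact h h1
  · have h2 := Nat.le_of_dvd hc0 (Nat.gcd_dvd_right q c)
    rw [h1] at h2
    have h3 : p % q = c % q := hpc
    rw [Nat.mod_eq_of_lt hq, Nat.mod_eq_of_lt (by omega)] at h3
    exact hc (h3 ▸ hp)

lemma sum_pc_filter (x c u v : ℕ) (hc : ¬ c.Prime) (hc0 : 0 < c) (hu : c ≤ u) :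
    ∑ q ∈ (Ioc u v).filter (fun q => q.Coprime c), (pc x q c : ℝ) = ∑ q ∈ Ioc u v, (pc x q c : ℝ) := by
  apply sum_subset (filter_subset _ _)
  intro q hq hq2
  rw [mem_Ioc] at hq
  have h1 : ¬ q.Coprime c := fun h => hq2 (mem_filter.2 ⟨mem_Ioc.2 hq, h⟩)
  rw [pc_zero x q c hc hc0 (by omega) h1, Nat.cast_zero]

/-- the signed deviation on a block of moduli -/
noncomputable def dev (x c u v : ℕ) : ℝ :=
  ∑ q ∈ (Ioc u v).filter (fun q => q.Coprime c), ((pc x q c : ℝ) - (Nat.primeCounting x : ℝ) / (q.totient : ℝ))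

lemma dev_eq (x c u v : ℕ) (hc : ¬ c.Prime) (hc0 : 0 < c) (hu : c ≤ u) :
    dev x c u v = ∑ q ∈ Ioc u v, (pc x q c : ℝ) -
      (Nat.primeCounting x : ℝ) * ∑ q ∈ (Ioc u v).filter (fun q => q.Coprime c), 1 / (q.totient : ℝ) := by
  unfold dev
  rw [sum_sub_distrib, sum_pc_filter x c u v hc hc0 hu, mul_sum]
  congr 1
  exact sum_congr rfl fun q _ => by ring

/-- hypotheses on a block -/
structure Blk (x c u N D R : ℕ) (δ ρ ρ' E0 E : ℝ) : Prop where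
  hδ0 : 0 < δ
  hδ1 : δ ≤ 1
  hc0 : 0 < c
  hc : ¬ c.Prime
  hcu : c ≤ u
  hcx : (c : ℝ) ≤ δ / 16 * x
  hux : u ≤ x
  hN : (N : ℝ) ≤ δ / 16 * u
  hx : x < c + u * (R + 1)
  hD : 1 ≤ D
  hDu : D ≤ u
  hDs : 4 / Real.sqrt D ≤ δ / 64
  hρ0 : 0 ≤ ρ
  hρ : ρ ≤ ρ'
  hρ1 : ρ' ≤ 1
  hρ2 : 1 / 2 ≤ ρ'
  hρ3 : ρ' * (1 - δ / 16) ≤ ρ
  hE0 : 0 ≤ E0
  hV : ∀ z : ℕ, |(vc c z : ℝ) - ρ * z| ≤ E0
  hE1 : (2 * E0 + 2) * (1 + Real.log x * 2) ^ 2 ≤ N * (δ / 64)
  hE2 : 0 ≤ E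
  hE3 : (R : ℝ) * R + R * E ≤ (x : ℝ) * N / u * (δ / 8)
  hE4 : ∀ r ∈ Icc 1 R, r.Coprime c →
      |∑ n ∈ (Ioc ((c + u * r : ℕ) : ℤ) ((min (c + (u + N) * r) x : ℕ) : ℤ)).filter (fun n => (r : ℤ) ∣ n - c),
        Pool.Agent.N718.DC.lam n - (len x c u (u + N) r : ℝ) / (r.totient : ℝ)| ≤ E
  hu1 : 1 < Real.log u
  hpi1 : (Nat.primeCounting x : ℝ) * Real.log x ≤ (1 + δ / 16) * x
  hpi2 : (1 - δ / 16) * x ≤ (Nat.primeCounting x : ℝ) * Real.log u
  hlx : 1 ≤ Real.log x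

lemma Blk.basic {x c u N D R : ℕ} {δ ρ ρ' E0 E : ℝ} (h : Blk x c u N D R δ ρ ρ' E0 E) :
    0 < u ∧ c ≤ x ∧ (0 : ℝ) < x ∧ 1 / 2 ≤ ρ' * GD c D ∧
    (2 * E0 + 2) * (1 + Real.log ((u + N : ℕ) : ℝ)) ^ 2 ≤ N * (δ / 64) ∧ Real.log u ≤ Real.log x := by
  have hu0 : 0 < u := lt_of_lt_of_le h.hc0 h.hcu
  have hx0 : 0 < x := lt_of_lt_of_le hu0 h.hux
  have hxR : (0 : ℝ) < x := by exact_mod_cast hx0
  have huR : (0 : ℝ) < u := by exact_mod_cast hu0
  have hle : Real.log u ≤ Real.log x := Real.log_le_log huR (by exact_mod_cast h.hux)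
  refine ⟨hu0, h.hcu.trans h.hux, hxR, ?_, ?_, hle⟩
  · have h1 := one_le_GD c D h.hD
    have h2 := h.hρ2
    nlinarith
  · refine le_trans (mul_le_mul_of_nonneg_left ?_ (by linarith [h.hE0])) h.hE1
    have h1 : ((u + N : ℕ) : ℝ) ≤ x * Real.exp 1 := by
      have h2 : (N : ℝ) ≤ u := h.hN.trans (by nlinarith [h.hδ1])
      have h3 : (u : ℝ) ≤ x := by exact_mod_cast h.hux
      have h4 : (2 : ℝ) ≤ Real.exp 1 := by
        have := Real.add_one_le_exp (1 : ℝ)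
        linarith
      push_cast
      nlinarith
    have h2 : Real.log ((u + N : ℕ) : ℝ) ≤ Real.log x + 1 := by
      have h3 : (0 : ℝ) < ((u + N : ℕ) : ℝ) := by exact_mod_cast (by omega : 0 < u + N)
      have h4 := Real.log_le_log h3 h1
      rw [Real.log_mul hxR.ne' (Real.exp_pos 1).ne', Real.log_exp] at h4
      exact h4
    have h3 : 0 ≤ Real.log ((u + N : ℕ) : ℝ) := Real.log_natCast_nonneg _
    have h4 := h.hlx
    apply pow_le_pow_left₀ (by linarith)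
    linarith

lemma alg1 (δ a b x N u v K : ℝ) (hδ0 : 0 < δ) (hδ1 : δ ≤ 1) (hu : 0 < u) (hv : u ≤ v) (hv2 : v ≤ (1 + δ / 16) * u)
    (hx : 0 < x) (hN : 0 ≤ N) (hK : 1 / 2 ≤ K) (hc : (1 - δ / 16) * x ≤ a)
    (hb : b ≤ N * K + N * (δ / 64) + N * (δ / 64)) :
    x * N / u * (δ / 2) ≤ N * ((1 + 2 * δ) * K * (a / v)) - (1 + δ / 16) * x * (b / u) := by
  have hv0 : 0 < v := hu.trans_le hv
  have hK0 : 0 < K := by linarith
  have h1 : b ≤ N * K * (1 + δ / 16) := by nlinarith [mul_nonneg hN hδ0.le]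
  have h2 : (1 + δ / 16) * x * (b / u) ≤ (x * N / u * K) * ((1 + δ / 16) * (1 + δ / 16)) := by
    have : (1 + δ / 16) * x * (b / u) ≤ (1 + δ / 16) * x * (N * K * (1 + δ / 16) / u) := by
      gcongr
    refine this.trans (le_of_eq ?_)
    field_simp
  have h3 : (x * N / u * K) * ((1 + 2 * δ) * ((1 - δ / 16) * (1 - δ / 16))) ≤ N * ((1 + 2 * δ) * K * (a / v)) := by
    have h4 : (1 - δ / 16) / u ≤ 1 / v := by
      rw [div_le_div_iff₀ hu hv0]
      have : (1 - δ / 16) * v ≤ (1 - δ / 16) * ((1 + δ / 16) * u) := mul_le_mul_of_nonneg_left hv2 (by linarith)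
      nlinarith [mul_nonneg hδ0.le hδ0.le]
    have h5 : (1 - δ / 16) * x * ((1 - δ / 16) / u) ≤ a * (1 / v) := by
      apply mul_le_mul hc h4 (div_nonneg (by linarith) hu.le)
      nlinarith
    have h6 : (x * N / u * K) * ((1 + 2 * δ) * ((1 - δ / 16) * (1 - δ / 16))) =
        N * ((1 + 2 * δ) * K * ((1 - δ / 16) * x * ((1 - δ / 16) / u))) := by
      field_simp
    rw [h6, div_eq_mul_one_div a v]
    gcongr
  have h7 : 0 ≤ x * N / u * K := by positivity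
  have h8 : δ ≤ (1 + 2 * δ) * ((1 - δ / 16) * (1 - δ / 16)) - (1 + δ / 16) * (1 + δ / 16) := by
    nlinarith [mul_nonneg hδ0.le hδ0.le, mul_nonneg hδ0.le (sub_nonneg.2 hδ1), mul_nonneg (mul_nonneg hδ0.le hδ0.le) hδ0.le]
  have h9 : x * N / u * (δ / 2) ≤ x * N / u * K * δ := by
    have : 0 ≤ x * N / u := by positivity
    nlinarith [mul_nonneg this hδ0.le]
  have h10 := mul_le_mul_of_nonneg_left h8 h7
  linarith [h10, h2, h3, h9]

lemma alg2 (δ a b x N u v K G : ℝ) (hδ0 : 0 < δ) (hδ1 : δ ≤ 1) (hu : 0 < u) (hv : u ≤ v) (hv2 : v ≤ (1 + δ / 16) * u)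
    (hx : 0 < x) (hN : 0 ≤ N) (hK : 1 / 2 ≤ K)
    (ha : a ≤ N * (x / u) * ((1 - 2 * δ) * K + δ / 64))
    (hG : K * (1 - δ / 16) ≤ G) (hb : N * G - N * (δ / 64) ≤ b) :
    x * N / u * (δ / 2) ≤ (1 - δ / 16) * x * (b / v) - a := by
  have hv0 : 0 < v := hu.trans_le hv
  have hK0 : 0 < K := by linarith
  have hG0 : 0 ≤ G := le_trans (mul_nonneg hK0.le (by linarith)) hG
  have h1 : N * K * (1 - δ / 8) ≤ b := by
    have h2 : N * (K * (1 - δ / 16)) ≤ N * G := mul_le_mul_of_nonneg_left hG hN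
    nlinarith [mul_nonneg hN hδ0.le]
  have h4 : (1 - δ / 16) / u ≤ 1 / v := by
    rw [div_le_div_iff₀ hu hv0]
    have : (1 - δ / 16) * v ≤ (1 - δ / 16) * ((1 + δ / 16) * u) := mul_le_mul_of_nonneg_left hv2 (by linarith)
    nlinarith [mul_nonneg hδ0.le hδ0.le]
  have h2 : (x * N / u * K) * ((1 - δ / 16) * (1 - δ / 16) * (1 - δ / 8)) ≤ (1 - δ / 16) * x * (b / v) := by
    have h5 : (N * K * (1 - δ / 8)) * ((1 - δ / 16) / u) ≤ b * (1 / v) := by
      apply mul_le_mul h1 h4 (div_nonneg (by linarith) hu.le)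
      refine le_trans ?_ h1
      have : 0 ≤ 1 - δ / 8 := by linarith
      positivity
    have h6 : (x * N / u * K) * ((1 - δ / 16) * (1 - δ / 16) * (1 - δ / 8)) =
        (1 - δ / 16) * x * ((N * K * (1 - δ / 8)) * ((1 - δ / 16) / u)) := by
      field_simp
    rw [h6, div_eq_mul_one_div b v]
    apply mul_le_mul_of_nonneg_left h5
    nlinarith
  have h3 : a ≤ (x * N / u * K) * (1 - 2 * δ + δ / 32) := by
    refine ha.trans ?_
    have h5 : N * (x / u) * ((1 - 2 * δ) * K + δ / 64) = x * N / u * ((1 - 2 * δ) * K + δ / 64) := by ring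
    rw [h5, mul_assoc (x * N / u)]
    apply mul_le_mul_of_nonneg_left _ (by positivity)
    nlinarith
  have h7 : 0 ≤ x * N / u * K := by positivity
  have h8 : δ ≤ (1 - δ / 16) * (1 - δ / 16) * (1 - δ / 8) - (1 - 2 * δ + δ / 32) := by
    nlinarith [mul_nonneg hδ0.le hδ0.le, mul_nonneg hδ0.le (sub_nonneg.2 hδ1), mul_nonneg (mul_nonneg hδ0.le hδ0.le) (sub_nonneg.2 hδ1)]
  have h9 : x * N / u * (δ / 2) ≤ x * N / u * K * δ := by
    have : 0 ≤ x * N / u := by positivity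
    nlinarith [mul_nonneg this hδ0.le]
  have h10 := mul_le_mul_of_nonneg_left h8 h7
  linarith [h10, h2, h3, h9]

/-- too many primes -/
lemma block_plus (x c u N D R : ℕ) (δ ρ ρ' E0 E : ℝ) (h : Blk x c u N D R δ ρ ρ' E0 E)
    (hW : ∀ q ∈ Ioc u (u + N), D ≤ (x - c) / q ∧ ∀ d ∈ Icc 1 D,
      (1 + 2 * δ) * ρ' * (((x - c : ℕ) : ℝ) / q / d) ≤ vc c ((x - c) / q / d)) :
    (x : ℝ) * N / u * (δ / 4) / Real.log x ≤ dev x c u (u + N) := by
  obtain ⟨hu0, hcx, hxR, hK, hE1, hlog⟩ := h.basic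
  have huR : (0 : ℝ) < u := by exact_mod_cast hu0
  have huv : u ≤ u + N := by omega
  obtain ⟨v, hv⟩ : ∃ v : ℕ, v = u + N := ⟨_, rfl⟩
  rw [← hv] at hW hE1 huv ⊢
  have hvR : (v : ℝ) = u + N := by rw [hv]; push_cast; ring
  have hv0 : (0 : ℝ) < v := by rw [hvR]; positivity
  obtain ⟨t1, _⟩ := total x c u v R E h.hE2 h.hc0 h.hc h.hcu h.hx hcx (by rw [hv]; exact h.hE4)
  obtain ⟨e1, _⟩ := expected c u v hu0 huv
  obtain ⟨g1, _⟩ := g_diff c u v D ρ E0 h.hρ0 (h.hρ.trans h.hρ1) h.hE0 h.hD (by have := h.hDu; omega) huv h.hV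
  have hvu : (v : ℝ) - u = N := by rw [hvR]; ring
  rw [hvu] at g1
  have hGD0 : 0 ≤ GD c D := le_trans zero_le_one (one_le_GD c D h.hD)
  have hg : N * ((1 + 2 * δ) * (ρ' * GD c D) * (((x - c : ℕ) : ℝ) / v)) ≤ ∑ q ∈ Ioc u v, g c ((x - c) / q) := by
    have hcard : (N : ℝ) = ((Ioc u v).card : ℝ) := by
      rw [Nat.card_Ioc, hv]
      simp
    rw [hcard, ← nsmul_eq_mul]
    apply card_nsmul_le_sum
    intro q hq
    obtain ⟨w1, w2⟩ := hW q hq
    have h1 := g_low c ((x - c) / q) D (((x - c : ℕ) : ℝ) / q) ρ' δ w1 w2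
    refine le_trans ?_ h1
    rw [mem_Ioc] at hq
    have hq0 : (0 : ℝ) < q := by exact_mod_cast (by omega : 0 < q)
    have hqv : (q : ℝ) ≤ v := by exact_mod_cast hq.2
    have h2 : ((x - c : ℕ) : ℝ) / v ≤ ((x - c : ℕ) : ℝ) / q := div_le_div_of_nonneg_left (Nat.cast_nonneg _) hq0 hqv
    have h3 : 0 ≤ (1 + 2 * δ) * (ρ' * GD c D) := by
      have := h.hδ0
      have := h.hρ2
      positivity
    calc _ ≤ (1 + 2 * δ) * (ρ' * GD c D) * (((x - c : ℕ) : ℝ) / q) := mul_le_mul_of_nonneg_left h2 h3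
      _ = _ := by ring
  have hb : g c v - g c u ≤ N * (ρ' * GD c D) + N * (δ / 64) + N * (δ / 64) := by
    refine g1.trans ?_
    have h1 : (N : ℝ) * (ρ * GD c D) ≤ N * (ρ' * GD c D) := by
      have := h.hρ
      gcongr
    have h2 : (N : ℝ) * (4 / Real.sqrt D) ≤ N * (δ / 64) := mul_le_mul_of_nonneg_left h.hDs (Nat.cast_nonneg _)
    linarith
  have hxc : ((x - c : ℕ) : ℝ) = (x : ℝ) - c := Nat.cast_sub hcx
  have ha : (1 - δ / 16) * (x : ℝ) ≤ ((x - c : ℕ) : ℝ) := by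
    rw [hxc]
    linarith [h.hcx]
  have hv2 : (v : ℝ) ≤ (1 + δ / 16) * u := by rw [hvR]; linarith [h.hN]
  have key := alg1 δ ((x - c : ℕ) : ℝ) (g c v - g c u) x N u v (ρ' * GD c D) h.hδ0 h.hδ1 huR (by rw [hvR]; linarith [(Nat.cast_nonneg N : (0:ℝ) ≤ N)])
    hv2 hxR (Nat.cast_nonneg _) hK ha hb
  have hlx0 : 0 < Real.log x := by linarith [h.hlx]
  rw [dev_eq x c u v h.hc h.hc0 h.hcu, div_le_iff₀ hlx0, sub_mul]
  have hS : (Nat.primeCounting x : ℝ) * (∑ q ∈ (Ioc u v).filter (fun q => q.Coprime c), 1 / (q.totient : ℝ)) * Real.log x ≤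
      (1 + δ / 16) * x * ((g c v - g c u) / u) := by
    have h1 : 0 ≤ ∑ q ∈ (Ioc u v).filter (fun q => q.Coprime c), 1 / (q.totient : ℝ) :=
      sum_nonneg fun q _ => by positivity
    calc _ = ((Nat.primeCounting x : ℝ) * Real.log x) * (∑ q ∈ (Ioc u v).filter (fun q => q.Coprime c), 1 / (q.totient : ℝ)) := by ring
      _ ≤ ((1 + δ / 16) * x) * ((g c v - g c u) / u) := by
          apply mul_le_mul h.hpi1 e1 h1
          have := h.hδ0
          positivity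
  have hE3 := h.hE3
  have hRR : (0 : ℝ) ≤ (R : ℝ) * R := by positivity
  have hfin : (x : ℝ) * N / u * (δ / 4) ≤ x * N / u * (δ / 2) - x * N / u * (δ / 8) := by
    have : 0 ≤ (x : ℝ) * N / u * (δ / 8) := by
      have := h.hδ0
      positivity
    linarith
  have t1' : ∑ q ∈ Ioc u v, g c ((x - c) / q) - R * E ≤ (∑ q ∈ Ioc u v, (pc x q c : ℝ)) * Real.log x := by
    rw [mul_comm (∑ q ∈ Ioc u v, (pc x q c : ℝ))]; exact t1
  linarith

/-- too few primes -/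
lemma block_minus (x c u N D R : ℕ) (δ ρ ρ' E0 E : ℝ) (h : Blk x c u N D R δ ρ ρ' E0 E)
    (hW : ∀ q ∈ Ioc u (u + N), D ≤ (x - c) / q ∧ ∀ d ∈ Icc 1 D,
      (vc c ((x - c) / q / d) : ℝ) ≤ (1 - 2 * δ) * ρ' * (((x - c : ℕ) : ℝ) / q / d)) :
    (x : ℝ) * N / u * (δ / 4) / Real.log x ≤ - dev x c u (u + N) := by
  obtain ⟨hu0, hcx, hxR, hK, hE1, hlog⟩ := h.basic
  have huR : (0 : ℝ) < u := by exact_mod_cast hu0
  have huv : u ≤ u + N := by omega
  obtain ⟨v, hv⟩ : ∃ v : ℕ, v = u + N := ⟨_, rfl⟩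
  rw [← hv] at hW hE1 huv ⊢
  have hvR : (v : ℝ) = u + N := by rw [hv]; push_cast; ring
  have hv0 : (0 : ℝ) < v := by rw [hvR]; positivity
  obtain ⟨_, t1⟩ := total x c u v R E h.hE2 h.hc0 h.hc h.hcu h.hx hcx (by rw [hv]; exact h.hE4)
  obtain ⟨_, e1⟩ := expected c u v hu0 huv
  obtain ⟨_, g1⟩ := g_diff c u v D ρ E0 h.hρ0 (h.hρ.trans h.hρ1) h.hE0 h.hD (by have := h.hDu; omega) huv h.hV
  have hvu : (v : ℝ) - u = N := by rw [hvR]; ring
  rw [hvu] at g1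
  have hGD0 : 0 ≤ GD c D := le_trans zero_le_one (one_le_GD c D h.hD)
  have hNR : (0 : ℝ) ≤ N := Nat.cast_nonneg _
  have hg : ∑ q ∈ Ioc u v, g c ((x - c) / q) ≤ N * ((x : ℝ) / u) * ((1 - 2 * δ) * (ρ' * GD c D) + δ / 64) := by
    have hcard : (N : ℝ) = ((Ioc u v).card : ℝ) := by
      rw [Nat.card_Ioc, hv]
      simp
    rw [hcard, mul_assoc, ← nsmul_eq_mul]
    apply sum_le_card_nsmul
    intro q hq
    obtain ⟨w1, w2⟩ := hW q hq
    have h1 := g_up c ((x - c) / q) D (((x - c : ℕ) : ℝ) / q) ρ' δ h.hD w1 Nat.cast_div_le w2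
    refine h1.trans ?_
    rw [mem_Ioc] at hq
    have hq0 : (0 : ℝ) < q := by exact_mod_cast (by omega : 0 < q)
    have hqu : (u : ℝ) ≤ q := by exact_mod_cast hq.1.le
    have h2 : ((x - c : ℕ) : ℝ) / q ≤ (x : ℝ) / u :=
      div_le_div₀ (Nat.cast_nonneg _) (by exact_mod_cast Nat.sub_le x c) huR hqu
    have h3 : 0 ≤ ((x - c : ℕ) : ℝ) / q := by positivity
    have h4 : 0 ≤ (1 - 2 * δ) * (ρ' * GD c D) + δ / 64 := by
      have hd := hW q (mem_Ioc.2 hq)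
      have h5 := w2 1 (mem_Icc.2 ⟨le_rfl, h.hD⟩)
      have h6 : (0 : ℝ) ≤ (1 - 2 * δ) * ρ' * (((x - c : ℕ) : ℝ) / q / ((1 : ℕ) : ℝ)) := le_trans (Nat.cast_nonneg _) h5
      rw [Nat.cast_one, div_one] at h6
      have h7 : 0 < ((x - c : ℕ) : ℝ) / q := by
        apply div_pos _ hq0
        have : 1 ≤ (x - c) / q := h.hD.trans w1
        have h8 : 0 < x - c := by
          by_contra h9
          have h10 : x - c = 0 := by omega
          rw [h10, Nat.zero_div] at this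
          omega
        exact_mod_cast h8
      have h8 : 0 ≤ (1 - 2 * δ) * ρ' := by
        by_contra h9
        have := mul_neg_of_neg_of_pos (not_le.1 h9) h7
        linarith
      have := h.hδ0
      have h9 : 0 ≤ (1 - 2 * δ) * (ρ' * GD c D) := by
        rw [← mul_assoc]
        exact mul_nonneg h8 hGD0
      linarith
    calc (1 - 2 * δ) * ρ' * (((x - c : ℕ) : ℝ) / q) * GD c D + ((x - c : ℕ) : ℝ) / q * (4 / Real.sqrt D)
        ≤ (1 - 2 * δ) * ρ' * (((x - c : ℕ) : ℝ) / q) * GD c D + ((x - c : ℕ) : ℝ) / q * (δ / 64) := by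
          have := mul_le_mul_of_nonneg_left h.hDs h3
          linarith
      _ = ((x - c : ℕ) : ℝ) / q * ((1 - 2 * δ) * (ρ' * GD c D) + δ / 64) := by ring
      _ ≤ (x : ℝ) / u * ((1 - 2 * δ) * (ρ' * GD c D) + δ / 64) := mul_le_mul_of_nonneg_right h2 h4
  have hb : N * (ρ * GD c D) - N * (δ / 64) ≤ g c v - g c u := by
    refine le_trans ?_ g1
    linarith
  have hG : ρ' * GD c D * (1 - δ / 16) ≤ ρ * GD c D := by
    have := mul_le_mul_of_nonneg_right h.hρ3 hGD0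
    linarith
  have hv2 : (v : ℝ) ≤ (1 + δ / 16) * u := by rw [hvR]; linarith [h.hN]
  have key := alg2 δ (∑ q ∈ Ioc u v, g c ((x - c) / q)) (g c v - g c u) x N u v (ρ' * GD c D) (ρ * GD c D) h.hδ0 h.hδ1 huR
    (by rw [hvR]; linarith) hv2 hxR hNR hK hg hG hb
  have hlx0 : 0 < Real.log x := by linarith [h.hlx]
  have hlu0 : 0 < Real.log u := by linarith [h.hu1]
  have hmain : (x : ℝ) * N / u * (δ / 4) / Real.log u ≤ - dev x c u v := by
    rw [dev_eq x c u v h.hc h.hc0 h.hcu, div_le_iff₀ hlu0, neg_mul, sub_mul]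
    have hS : (1 - δ / 16) * x * ((g c v - g c u) / v) ≤
        (Nat.primeCounting x : ℝ) * (∑ q ∈ (Ioc u v).filter (fun q => q.Coprime c), 1 / (q.totient : ℝ)) * Real.log u := by
      have h1 : 0 ≤ ∑ q ∈ (Ioc u v).filter (fun q => q.Coprime c), 1 / (q.totient : ℝ) :=
        sum_nonneg fun q _ => by positivity
      have h0 : 0 ≤ (1 - δ / 16) * (x : ℝ) := by
        have := h.hδ1
        have : 0 ≤ 1 - δ / 16 := by linarith
        positivity
      calc (1 - δ / 16) * x * ((g c v - g c u) / v) ≤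
          (1 - δ / 16) * x * ∑ q ∈ (Ioc u v).filter (fun q => q.Coprime c), 1 / (q.totient : ℝ) :=
            mul_le_mul_of_nonneg_left e1 h0
        _ ≤ ((Nat.primeCounting x : ℝ) * Real.log u) * ∑ q ∈ (Ioc u v).filter (fun q => q.Coprime c), 1 / (q.totient : ℝ) :=
            mul_le_mul_of_nonneg_right h.hpi2 h1
        _ = _ := by ring
    have hE3 := h.hE3
    have hfin : (x : ℝ) * N / u * (δ / 4) ≤ x * N / u * (δ / 2) - x * N / u * (δ / 8) := by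
      have : 0 ≤ (x : ℝ) * N / u * (δ / 8) := by
        have := h.hδ0
        positivity
      linarith
    have t1' : (∑ q ∈ Ioc u v, (pc x q c : ℝ)) * Real.log u ≤ ∑ q ∈ Ioc u v, g c ((x - c) / q) + R * R + R * E := by
      rw [mul_comm (∑ q ∈ Ioc u v, (pc x q c : ℝ))]; exact t1
    linarith
  refine le_trans ?_ hmain
  apply div_le_div_of_nonneg_left _ hlu0 hlog
  have := h.hδ0
  positivity

end Pool.Agent.V5helper42.FG
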