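import Pool.Agent.V5helper42.FG.E
import Pool.Agent.V5helper42.MF.Cnt
import Pool.Agent.Helper601.PNT

/-!
# Friedlander-Granville phenomenon: choice of the parameters (helper42)
-/

set_option autoImplicit false

namespace Pool.Agent.V5helper42.FG

open Finset Filter Topology Asymptotics

lemma ev_rpow_exp (p C ε : ℝ) (hε : 0 < ε) : ∀ᶠ L : ℝ in atTop, C * L ^ p ≤ Real.exp (ε * L) := by
  have h := ((isLittleO_rpow_exp_pos_mul_atTop p hε).const_mul_left C).bound (one_pos)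
  filter_upwards [h] with L hL
  rw [Real.norm_eq_abs, Real.norm_eq_abs, Real.abs_exp, one_mul] at hL
  exact (le_abs_self _).trans hL

lemma ev_rpow (p q C : ℝ) (h : p < q) : ∀ᶠ L : ℝ in atTop, C * L ^ p ≤ L ^ q := by
  filter_upwards [(tendsto_rpow_atTop (by linarith : 0 < q - p)).eventually_ge_atTop C, eventually_gt_atTop 0] with L h1 h2
  calc C * L ^ p ≤ L ^ (q - p) * L ^ p := mul_le_mul_of_nonneg_right h1 (Real.rpow_nonneg h2.le _)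
    _ = L ^ q := by rw [← Real.rpow_add h2]; ring_nf

lemma ev_log_lin (C ε : ℝ) (hε : 0 < ε) : ∀ᶠ L : ℝ in atTop, C * Real.log L ≤ ε * L := by
  have h := (Real.isLittleO_log_id_atTop.const_mul_left C).bound hε
  filter_upwards [h, eventually_gt_atTop 0] with L hL h0
  rw [Real.norm_eq_abs, Real.norm_eq_abs, id, abs_of_pos h0] at hL
  exact (le_abs_self _).trans hL

structure Facts (a κ δ b : ℝ) (A : ℕ) (L : ℝ) : Prop where
  h1 : 2 ≤ L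
  h2 : 4 ≤ L ^ (κ / 8)
  h3 : 2 * (256 / δ) ^ 2 ≤ L ^ (κ / 8)
  h4 : (2 * Real.exp (L ^ (1 / 2 : ℝ)) + 2) * (1 + L * 2) ^ 2 * (L ^ a * L ^ (κ / 2)) * (4096 / δ ^ 2) ≤ Real.exp L
  h5 : (L ^ a * L ^ (κ / 2)) ^ 2 * (2048 / δ ^ 2) < Real.exp L
  h6 : (L ^ a * L ^ (κ / 2)) * (1024 / δ ^ 2) ≤ L ^ A
  h7 : Real.log (L ^ a * L ^ (κ / 2)) ≤ δ / 64 * L
  h8 : (2 * L ^ b + 2) * Real.log (2 * L ^ b + 3) ≤ L ^ (1 / 2 : ℝ)
  h9 : L ^ b < L / 2
  h10 : 16 / δ ≤ Real.exp (L / 2)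
  h11 : 1 ≤ L ^ a
  h12 : 1 / L ^ a < 2 * δ

lemma facts (a κ δ b : ℝ) (A : ℕ) (ha : 0 < a) (hκ : 0 < κ) (hδ : 0 < δ) (hb : 0 < b) (hb8 : b ≤ 1 / 8)
    (hA : a + κ / 2 < A) : ∀ᶠ L : ℝ in atTop, Facts a κ δ b A L := by
  filter_upwards [eventually_ge_atTop 4,
    (tendsto_rpow_atTop (by linarith : 0 < κ / 8)).eventually_ge_atTop 4,
    (tendsto_rpow_atTop (by linarith : 0 < κ / 8)).eventually_ge_atTop (2 * (256 / δ) ^ 2),
    ev_rpow_exp (2 + (a + κ / 2)) (36 * (4096 / δ ^ 2)) (1 / 2) (by norm_num),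
    ev_rpow_exp (2 * (a + κ / 2)) (2 * (2048 / δ ^ 2)) 1 one_pos,
    ev_rpow (a + κ / 2) A (1024 / δ ^ 2) hA,
    ev_log_lin (a + κ / 2) (δ / 64) (by positivity),
    ev_rpow (1 / 4) (1 / 2) 25 (by norm_num),
    ev_rpow (1 / 8) 1 4 (by norm_num),
    ev_rpow_exp 0 (16 / δ) (1 / 2) (by norm_num),
    ev_rpow 0 a (1 / δ) (by linarith)] with L g1 g2 g3 g4 g5 g6 g7 g8 g9 g10 g11
  have hL0 : 0 < L := by linarith
  have hL1 : 1 ≤ L := by linarith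
  have hT : L ^ a * L ^ (κ / 2) = L ^ (a + κ / 2) := by rw [← Real.rpow_add hL0]
  have hT0 : 0 < L ^ (a + κ / 2) := Real.rpow_pos_of_pos hL0 _
  have hsq : Real.exp (L ^ (1 / 2 : ℝ)) ≤ Real.exp (1 / 2 * L) := by
    apply Real.exp_le_exp.2
    rw [← Real.sqrt_eq_rpow, Real.sqrt_le_left (by linarith)]
    nlinarith
  refine ⟨by linarith, g2, g3, ?_, ?_, ?_, ?_, ?_, ?_, ?_, Real.one_le_rpow hL1 ha.le, ?_⟩
  · rw [hT]
    have e1 : (1 : ℝ) ≤ Real.exp (L ^ (1 / 2 : ℝ)) := Real.one_le_exp (Real.rpow_nonneg hL0.le _)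
    have e2 : 2 * Real.exp (L ^ (1 / 2 : ℝ)) + 2 ≤ 4 * Real.exp (1 / 2 * L) := by linarith
    have e3 : (1 + L * 2) ^ 2 ≤ 9 * L ^ (2 : ℝ) := by
      rw [Real.rpow_two]
      nlinarith
    have e4 : Real.exp L = Real.exp (1 / 2 * L) * Real.exp (1 / 2 * L) := by
      rw [← Real.exp_add]; ring_nf
    rw [e4]
    calc (2 * Real.exp (L ^ (1 / 2 : ℝ)) + 2) * (1 + L * 2) ^ 2 * L ^ (a + κ / 2) * (4096 / δ ^ 2)
        ≤ (4 * Real.exp (1 / 2 * L)) * (9 * L ^ (2 : ℝ)) * L ^ (a + κ / 2) * (4096 / δ ^ 2) := by gcongr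
      _ = Real.exp (1 / 2 * L) * (36 * (4096 / δ ^ 2) * (L ^ (2 : ℝ) * L ^ (a + κ / 2))) := by ring
      _ = Real.exp (1 / 2 * L) * (36 * (4096 / δ ^ 2) * L ^ (2 + (a + κ / 2))) := by
          rw [← Real.rpow_add hL0]
      _ ≤ Real.exp (1 / 2 * L) * Real.exp (1 / 2 * L) := by gcongr
  · rw [hT, ← Real.rpow_natCast (L ^ (a + κ / 2)) 2, ← Real.rpow_mul hL0.le]
    push_cast
    rw [one_mul] at g5
    have h0 : 0 < L ^ (2 * (a + κ / 2)) := Real.rpow_pos_of_pos hL0 _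
    rw [mul_comm (a + κ / 2) 2]
    have h1 : 0 < 2048 / δ ^ 2 * L ^ (2 * (a + κ / 2)) := by positivity
    calc L ^ (2 * (a + κ / 2)) * (2048 / δ ^ 2) = 2048 / δ ^ 2 * L ^ (2 * (a + κ / 2)) := by ring
      _ < 2 * (2048 / δ ^ 2) * L ^ (2 * (a + κ / 2)) := by linarith
      _ ≤ _ := g5
  · rw [hT, mul_comm]
    rw [Real.rpow_natCast] at g6
    exact g6
  · rw [hT, Real.log_rpow hL0]
    exact g7
  · have e1 : L ^ b ≤ L ^ (1 / 8 : ℝ) := Real.rpow_le_rpow_of_exponent_le hL1 hb8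
    have e2 : 1 ≤ L ^ (1 / 8 : ℝ) := Real.one_le_rpow hL1 (by norm_num)
    have e3 : 0 < L ^ b := Real.rpow_pos_of_pos hL0 _
    have e4 : Real.log (2 * L ^ b + 3) ≤ 2 * L ^ b + 3 := by
      have := Real.log_le_sub_one_of_pos (by linarith : 0 < 2 * L ^ b + 3)
      linarith
    have e5 : L ^ (1 / 8 : ℝ) * L ^ (1 / 8 : ℝ) = L ^ (1 / 4 : ℝ) := by
      rw [← Real.rpow_add hL0]; norm_num
    calc (2 * L ^ b + 2) * Real.log (2 * L ^ b + 3) ≤ (2 * L ^ b + 3) * (2 * L ^ b + 3) := by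
          apply mul_le_mul (by linarith) e4 (Real.log_nonneg (by linarith)) (by linarith)
      _ ≤ (5 * L ^ (1 / 8 : ℝ)) * (5 * L ^ (1 / 8 : ℝ)) := by
          apply mul_le_mul <;> linarith
      _ = 25 * L ^ (1 / 4 : ℝ) := by rw [← e5]; ring
      _ ≤ _ := g8
  · have e1 : L ^ b ≤ L ^ (1 / 8 : ℝ) := Real.rpow_le_rpow_of_exponent_le hL1 hb8
    rw [Real.rpow_one] at g9
    have e2 : 1 ≤ L ^ (1 / 8 : ℝ) := Real.one_le_rpow hL1 (by norm_num)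
    linarith
  · rw [Real.rpow_zero, mul_one] at g10
    rw [show L / 2 = 1 / 2 * L by ring]
    exact g10
  · rw [Real.rpow_zero, mul_one] at g11
    have h0 : 0 < L ^ a := Real.rpow_pos_of_pos hL0 _
    rw [div_lt_iff₀ h0]
    have : 1 ≤ δ * L ^ a := by
      rw [div_le_iff₀ hδ] at g11
      linarith
    linarith

open Pool.Agent.N610.MS in
lemma vc_eq (P : Finset ℕ) (hP : ∀ p ∈ P, p.Prime) (l z : ℕ) (hl : l.Prime) (hz : z < l) :
    vc ((∏ p ∈ P, p) * l) z = V P z := by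
  unfold vc V
  congr 1
  refine filter_congr fun h hh => ?_
  rw [mem_Icc] at hh
  rw [Nat.coprime_mul_iff_right, Nat.coprime_prod_right_iff]
  constructor
  · rintro ⟨h1, _⟩ p hp
    rw [← (hP p hp).coprime_iff_not_dvd, Nat.coprime_comm]
    exact h1 p hp
  · intro h1
    refine ⟨fun p hp => ?_, ?_⟩
    · rw [Nat.coprime_comm, (hP p hp).coprime_iff_not_dvd]
      exact h1 p hp
    · rw [Nat.coprime_comm, hl.coprime_iff_not_dvd]
      intro h2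
      have := Nat.le_of_dvd (by omega) h2
      omega

lemma card_P (P : Finset ℕ) (hP : ∀ p ∈ P, p.Prime) (M : ℝ) (hM : ((∏ p ∈ P, p : ℕ) : ℝ) ≤ Real.exp M) :
    (P.card : ℝ) ≤ 2 * M := by
  have h1 : (2 : ℕ) ^ P.card ≤ ∏ p ∈ P, p := by
    rw [← prod_const]
    exact prod_le_prod' fun p hp => (hP p hp).two_le
  have h2 : (2 : ℝ) ^ P.card ≤ Real.exp M := le_trans (by exact_mod_cast h1) hM
  have h3 := Real.log_le_log (by positivity) h2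
  rw [Real.log_exp, Real.log_pow] at h3
  have h4 := Real.log_two_gt_d9
  have h5 : (0 : ℝ) ≤ P.card := Nat.cast_nonneg _
  nlinarith


/-! ### numerical lemmas -/

lemma n_N (δ T x u : ℝ) (hδ : 0 < δ) (hδ1 : δ ≤ 1) (hT : 1 ≤ T) (hx : 0 < x) (hu : x / T ≤ u)
    (hxT : T ^ 2 * (2048 / δ ^ 2) ≤ x) : δ / 32 * u ≤ (⌊δ / 16 * u⌋₊ : ℝ) ∧ 0 < u := by
  have hT0 : 0 < T := by linarith
  have hu0 : 0 < u := lt_of_lt_of_le (by positivity) hu
  refine ⟨?_, hu0⟩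
  have h1 := Nat.lt_floor_add_one (δ / 16 * u)
  have h2 : 1 ≤ δ / 32 * u := by
    have h3 : 32 / δ ≤ u := by
      have h4 : 32 / δ ≤ x / T := by
        rw [le_div_iff₀ hT0]
        have h5 : 32 / δ ≤ 2048 / δ ^ 2 := by
          rw [div_le_div_iff₀ hδ (by positivity)]
          nlinarith
        have h6 : T ≤ T ^ 2 := by nlinarith
        calc 32 / δ * T ≤ 2048 / δ ^ 2 * T ^ 2 := by
              apply mul_le_mul h5 h6 hT0.le (by positivity)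
          _ ≤ x := by linarith
      exact h4.trans hu
    rw [div_le_iff₀ hδ] at h3
    linarith
  linarith

lemma n_pow (n : ℕ) (M : ℝ) (hM : 0 ≤ M) (hn : (n : ℝ) ≤ M + 1) : ((n : ℝ) + 1) ^ n ≤ Real.exp ((M + 1) * Real.log (M + 2)) := by
  have h3 : (0 : ℝ) ≤ n := Nat.cast_nonneg _
  have h4 : ((n : ℝ) + 1) ^ n = Real.exp ((n : ℝ) * Real.log ((n : ℝ) + 1)) := by
    rw [← Real.rpow_natCast, Real.rpow_def_of_pos (by linarith), mul_comm]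
  rw [h4, Real.exp_le_exp]
  apply mul_le_mul hn _ (Real.log_nonneg (by linarith)) (by linarith)
  apply Real.log_le_log (by linarith)
  linarith

lemma n_E1 (δ T x u N e0 E0 L : ℝ) (hδ : 0 < δ) (hT : 0 < T) (hL : 0 ≤ L) (hu0 : 0 < u) (hu : x / T ≤ u)
    (hN : δ / 32 * u ≤ N) (hE0 : E0 ≤ e0)
    (f4 : (2 * e0 + 2) * (1 + L * 2) ^ 2 * T * (4096 / δ ^ 2) ≤ x) :
    (2 * E0 + 2) * (1 + L * 2) ^ 2 ≤ N * (δ / 64) := by
  have h1 : (2 * E0 + 2) * (1 + L * 2) ^ 2 ≤ (2 * e0 + 2) * (1 + L * 2) ^ 2 := by gcongr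
  refine h1.trans ?_
  have h2 : (2 * e0 + 2) * (1 + L * 2) ^ 2 * (4096 / δ ^ 2) ≤ x / T := by
    rw [le_div_iff₀ hT]
    linarith
  have h3 := h2.trans hu
  have h4 : δ / 32 * u * (δ / 64) ≤ N * (δ / 64) := mul_le_mul_of_nonneg_right hN (by positivity)
  have h5 : (2 * e0 + 2) * (1 + L * 2) ^ 2 ≤ u * (δ ^ 2 / 4096) := by
    rw [← le_div_iff₀ (by positivity)] at h3
    refine h3.trans (le_of_eq ?_)
    field_simp
  have h6 : 0 ≤ u * (δ ^ 2 / 4096) := by positivity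
  have h7 : δ / 32 * u * (δ / 64) = 2 * (u * (δ ^ 2 / 4096)) := by ring
  linarith

lemma n_E3 (δ T x R LA G : ℝ) (hδ : 0 < δ) (hT : 0 < T) (hx : 0 < x) (hR0 : 0 ≤ R) (hR : R ≤ T)
    (hLA : 0 < LA) (hG : x * (δ / 32) ≤ G) (hxT : T ^ 2 * (2048 / δ ^ 2) ≤ x) (f6 : T * (1024 / δ ^ 2) ≤ LA) :
    R * R + R * (x / LA) ≤ G * (δ / 8) := by
  have hE : 0 ≤ x / LA := by positivity
  have h1 : R * R ≤ T ^ 2 := by
    rw [sq]
    exact mul_le_mul hR hR hR0 hT.le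
  have h2 : R * (x / LA) ≤ T * (x / LA) := mul_le_mul_of_nonneg_right hR hE
  have h3 : T ^ 2 ≤ x * (δ ^ 2 / 2048) := by
    rw [← le_div_iff₀ (by positivity)] at hxT
    refine hxT.trans (le_of_eq ?_)
    field_simp
  have h4 : T * (x / LA) ≤ x * (δ ^ 2 / 1024) := by
    have h5 : T / LA ≤ δ ^ 2 / 1024 := by
      rw [div_le_iff₀ hLA]
      have h6 : T * (1024 / δ ^ 2) * (δ ^ 2 / 1024) ≤ LA * (δ ^ 2 / 1024) :=
        mul_le_mul_of_nonneg_right f6 (by positivity)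
      have h7 : T * (1024 / δ ^ 2) * (δ ^ 2 / 1024) = T := by field_simp
      linarith
    calc T * (x / LA) = x * (T / LA) := by ring
      _ ≤ _ := mul_le_mul_of_nonneg_left h5 hx.le
  have h5 : x * (δ / 32) * (δ / 8) ≤ G * (δ / 8) := mul_le_mul_of_nonneg_right hG (by positivity)
  have h6 : x * (δ / 32) * (δ / 8) = 8 * (x * (δ ^ 2 / 2048)) := by ring
  have h7 : 0 ≤ x * (δ ^ 2 / 2048) := by positivity
  have h8 : x * (δ ^ 2 / 1024) = 2 * (x * (δ ^ 2 / 2048)) := by ring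
  linarith

lemma n_pi (δ L lu π x : ℝ) (hδ : 0 < δ) (hδ1 : δ ≤ 1) (hx : 0 < x) (hπ : 0 ≤ π)
    (h : |π * L / x - 1| < δ / 64) (hlu : L - δ / 64 * L ≤ lu) :
    π * L ≤ (1 + δ / 16) * x ∧ (1 - δ / 16) * x ≤ π * lu := by
  obtain ⟨ha, hb⟩ := abs_lt.1 h
  have hδx : 0 ≤ δ * x := by positivity
  constructor
  · have h1 : π * L / x ≤ 1 + δ / 64 := by linarith
    rw [div_le_iff₀ hx] at h1
    linarith
  · have h1 : 1 - δ / 64 ≤ π * L / x := by linarith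
    rw [le_div_iff₀ hx] at h1
    have h2 : π * (L - δ / 64 * L) ≤ π * lu := mul_le_mul_of_nonneg_left hlu hπ
    have h3 : π * (L - δ / 64 * L) = π * L * (1 - δ / 64) := by ring
    have h4 : (1 - δ / 64) * x * (1 - δ / 64) ≤ π * L * (1 - δ / 64) :=
      mul_le_mul_of_nonneg_right h1 (by linarith)
    have h5 : (1 - δ / 16) * x ≤ (1 - δ / 64) * x * (1 - δ / 64) := by nlinarith [mul_nonneg hδ.le hδx]
    linarith

open Pool.Agent.N610.MS in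
lemma n_ne (P : Finset ℕ) (hP : ∀ p ∈ P, p.Prime) (Y0 σ δ : ℝ) (hσ : σ = 1 ∨ σ = -1) (hY : 0 < Y0)
    (h1 : 1 / Y0 < 2 * δ) (h2 : 2 * δ ≤ σ * (rel P Y0 - 1)) : (∏ p ∈ P, p) ≠ 1 := by
  intro h0
  have hPe : P = ∅ := by
    by_contra hne
    obtain ⟨p, hp⟩ := nonempty_iff_ne_empty.2 hne
    have h2 : p ∣ ∏ p ∈ P, p := dvd_prod_of_mem _ hp
    rw [h0] at h2
    exact (hP p hp).one_lt.ne' (Nat.dvd_one.1 h2)
  have h3 : rel P Y0 = (⌊Y0⌋₊ : ℝ) / Y0 := by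
    unfold rel V
    rw [hPe]
    simp
  have h4 : |rel P Y0 - 1| ≤ 1 / Y0 := by
    rw [h3, div_sub_one hY.ne', abs_div, abs_of_pos hY]
    apply div_le_div_of_nonneg_right _ hY.le
    have h5 := Nat.floor_le hY.le
    have h6 := Nat.lt_floor_add_one Y0
    rw [abs_le]
    constructor <;> linarith
  have h5 : σ * (rel P Y0 - 1) ≤ |rel P Y0 - 1| := by
    rcases hσ with h | h
    · rw [h, one_mul]; exact le_abs_self _
    · rw [h, neg_one_mul]; exact neg_le_abs _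
  linarith

/-- the rows, from the Siegel-Walfisz theorem -/
lemma n_sw (x c u v R A : ℕ) (L E : ℝ) (hE : E = x / L ^ A) (hE2 : 0 ≤ E) (hRA : (R : ℝ) ≤ L ^ A)
    (hSW : ∀ Q : ℕ, 1 ≤ Q → (Q : ℝ) ≤ L ^ A → ∀ c : ℤ, IsCoprime c (Q : ℤ) → ∀ u v : ℤ, -(x : ℤ) ≤ u → u ≤ v → v ≤ x →
      |∑ n ∈ (Ioc u v).filter (fun n => (Q : ℤ) ∣ n - c), Pool.Agent.N718.DC.lam n -
        (1 / (Nat.totient Q : ℝ)) * ∑ n ∈ Ioc u v, Pool.Agent.N718.DC.pos n| ≤ x / L ^ A) :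
    ∀ r ∈ Icc 1 R, r.Coprime c →
      |∑ n ∈ (Ioc ((c + u * r : ℕ) : ℤ) ((min (c + v * r) x : ℕ) : ℤ)).filter (fun n => (r : ℤ) ∣ n - c),
        Pool.Agent.N718.DC.lam n - (len x c u v r : ℝ) / (r.totient : ℝ)| ≤ E := by
  intro r hr hrc
  rw [mem_Icc] at hr
  by_cases hcase : c + u * r ≤ min (c + v * r) x
  · have h1 := hSW r hr.1 (le_trans (by exact_mod_cast hr.2) hRA) (c : ℤ) (Nat.isCoprime_iff_coprime.2 hrc.symm)
      ((c + u * r : ℕ) : ℤ) ((min (c + v * r) x : ℕ) : ℤ)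
      (by have h3 : (0 : ℤ) ≤ ((c + u * r : ℕ) : ℤ) := Int.natCast_nonneg _
          have h2 : (0 : ℤ) ≤ (x : ℤ) := Int.natCast_nonneg _
          linarith) (by exact_mod_cast hcase) (by exact_mod_cast min_le_right _ _)
    have h2 : ∑ n ∈ Ioc ((c + u * r : ℕ) : ℤ) ((min (c + v * r) x : ℕ) : ℤ), Pool.Agent.N718.DC.pos n =
        (len x c u v r : ℝ) := by
      have h3 : ∀ n ∈ Ioc ((c + u * r : ℕ) : ℤ) ((min (c + v * r) x : ℕ) : ℤ), Pool.Agent.N718.DC.pos n = 1 := by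
        intro n hn
        rw [mem_Ioc] at hn
        unfold Pool.Agent.N718.DC.pos
        rw [if_pos]
        exact lt_of_le_of_lt (Int.natCast_nonneg _) hn.1
      rw [sum_congr rfl h3, sum_const, nsmul_eq_mul, mul_one, Int.card_Ioc]
      unfold len
      congr 1
      omega
    rw [h2, ← hE, one_div, inv_mul_eq_div] at h1
    exact h1
  · have h1 : len x c u v r = 0 := by
      unfold len
      omega
    rw [h1, Ioc_eq_empty]
    · simpa using hE2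
    · intro h
      apply hcase
      exact_mod_cast h.le

open Pool.Agent.N610.MS in
/-- the irregularities -/
lemma n_irr (P : Finset ℕ) (hP : ∀ p ∈ P, p.Prime) (x c l u N D : ℕ) (hl : l.Prime) (hc : c = (∏ p ∈ P, p) * l)
    (δ σ Y0 s T Yb : ℝ) (hδ : 0 < δ) (hδ1 : δ ≤ 1) (hY0 : 1 ≤ Y0) (hs : 4 ≤ s) (hDs : (D : ℝ) ≤ s)
    (hu0 : 0 < u) (hN : (N : ℝ) ≤ δ / 16 * u) (hu2 : (u : ℝ) * (Y0 * s ^ 2) ≤ x) (hxu : (x : ℝ) / u ≤ T)
    (hTl : T < l) (hTb : T ≤ Yb) (hcx2 : (x : ℝ) / 2 ≤ ((x - c : ℕ) : ℝ)) (hx : 0 < x)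
    (hrel : ∀ y : ℝ, Y0 ≤ y → y ≤ Yb → 2 * δ ≤ σ * (rel P y - 1)) :
    ∀ q ∈ Ioc u (u + N), D ≤ (x - c) / q ∧ ∀ d ∈ Icc 1 D,
      (vc c ((x - c) / q / d) : ℝ) = V P ⌊((x - c : ℕ) : ℝ) / q / d⌋₊ ∧ 0 < ((x - c : ℕ) : ℝ) / q / d ∧
      2 * δ ≤ σ * (rel P (((x - c : ℕ) : ℝ) / q / d) - 1) := by
  intro q hq
  have hxR : (0 : ℝ) < x := by exact_mod_cast hx
  have huR : (0 : ℝ) < u := by exact_mod_cast hu0
  have hs0 : 0 < s := by linarith
  have hY00 : 0 < Y0 := by linarith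
  rw [mem_Ioc] at hq
  have hq0 : 0 < q := by omega
  have hqR : (0 : ℝ) < q := by exact_mod_cast hq0
  have hq2 : (q : ℝ) ≤ 2 * u := by
    have h1 : (q : ℝ) ≤ u + N := by exact_mod_cast hq.2
    have h2 : δ / 16 * (u : ℝ) ≤ 1 * u := mul_le_mul_of_nonneg_right (by linarith) huR.le
    linarith
  have hlow : Y0 * s ^ 2 / 4 ≤ ((x - c : ℕ) : ℝ) / q := by
    rw [le_div_iff₀ hqR]
    have h1 : Y0 * s ^ 2 / 4 * q ≤ Y0 * s ^ 2 / 4 * (2 * u) := mul_le_mul_of_nonneg_left hq2 (by positivity)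
    have h2 : Y0 * s ^ 2 / 4 * (2 * u) = (u * (Y0 * s ^ 2)) / 2 := by ring
    linarith
  have hss : s ≤ s ^ 2 / 4 := by nlinarith
  constructor
  · rw [Nat.le_div_iff_mul_le hq0]
    have h1 : (D : ℝ) ≤ ((x - c : ℕ) : ℝ) / q := by
      refine hDs.trans (le_trans ?_ hlow)
      have h2 : 1 * (s ^ 2 / 4) ≤ Y0 * (s ^ 2 / 4) := mul_le_mul_of_nonneg_right hY0 (by positivity)
      linarith
    rw [le_div_iff₀ hqR] at h1
    exact_mod_cast h1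
  · intro d hd
    rw [mem_Icc] at hd
    have hd0 : (0 : ℝ) < d := by exact_mod_cast hd.1
    have hdD : (d : ℝ) ≤ s := le_trans (by exact_mod_cast hd.2) hDs
    have hxc0 : (0 : ℝ) < ((x - c : ℕ) : ℝ) := by linarith
    have hpos : 0 < ((x - c : ℕ) : ℝ) / q / d := by positivity
    have h1 : Y0 ≤ ((x - c : ℕ) : ℝ) / q / d := by
      rw [le_div_iff₀ hd0]
      have h2 : Y0 * d ≤ Y0 * s := mul_le_mul_of_nonneg_left hdD hY00.le
      have h3 : Y0 * s ≤ Y0 * (s ^ 2 / 4) := mul_le_mul_of_nonneg_left hss hY00.le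
      have h4 : Y0 * (s ^ 2 / 4) = Y0 * s ^ 2 / 4 := by ring
      linarith
    have h2 : ((x - c : ℕ) : ℝ) / q / d ≤ T := by
      have hd1 : (1 : ℝ) ≤ d := by exact_mod_cast hd.1
      have h3 : ((x - c : ℕ) : ℝ) / q / d ≤ ((x - c : ℕ) : ℝ) / q := div_le_self (by positivity) hd1
      have h4 : ((x - c : ℕ) : ℝ) / q ≤ (x : ℝ) / u :=
        div_le_div₀ hxR.le (by exact_mod_cast Nat.sub_le x c) huR (by exact_mod_cast hq.1.le)
      linarith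
    refine ⟨?_, hpos, hrel _ h1 (h2.trans hTb)⟩
    have h4 : ⌊((x - c : ℕ) : ℝ) / q / d⌋₊ = (x - c) / q / d := by
      rw [Nat.floor_div_natCast, Nat.floor_div_natCast, Nat.floor_natCast]
    rw [h4]
    congr 1
    have h5 : (((x - c) / q / d : ℕ) : ℝ) ≤ ((x - c : ℕ) : ℝ) / q / d := by
      rw [← h4]
      exact Nat.floor_le hpos.le
    have h7 : (((x - c) / q / d : ℕ) : ℝ) < l := by linarith
    have h8 : (x - c) / q / d < l := by exact_mod_cast h7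
    have h9 := vc_eq P hP l ((x - c) / q / d) hl h8
    rw [← hc] at h9
    exact h9

open Pool.Agent.N610.MS in
lemma n_Blk (P : Finset ℕ) (hP : ∀ p ∈ P, p.Prime) (x l c u N D R A : ℕ) (hl : l.Prime)
    (hc : c = (∏ p ∈ P, p) * l) (a κ δ b L T s ρ ρ' E0 E : ℝ) (hL : L = Real.log x)
    (hδ : 0 < δ) (hδ1 : δ ≤ 1) (hx0 : 0 < x)
    (h1 : 2 ≤ L) (h2 : 4 ≤ s) (h3 : 2 * (256 / δ) ^ 2 ≤ s)
    (h4 : (2 * Real.exp (L ^ (1 / 2 : ℝ)) + 2) * (1 + L * 2) ^ 2 * T * (4096 / δ ^ 2) ≤ Real.exp L)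
    (h5 : T ^ 2 * (2048 / δ ^ 2) < Real.exp L)
    (h6 : T * (1024 / δ ^ 2) ≤ L ^ A)
    (h7 : Real.log T ≤ δ / 64 * L)
    (h8 : (2 * L ^ b + 2) * Real.log (2 * L ^ b + 3) ≤ L ^ (1 / 2 : ℝ))
    (h9 : L ^ b < L / 2)
    (h10 : 16 / δ ≤ Real.exp (L / 2))
    (hsT : s ≤ T)
    (hW : ((∏ p ∈ P, p : ℕ) : ℝ) ≤ Real.exp (L ^ b))
    (hWne : (∏ p ∈ P, p) ≠ 1)
    (hρ' : ρ' = ∏ p ∈ P, (1 - 1 / (p : ℝ))) (hρ2 : 1 / 2 ≤ ρ')
    (hρ : ρ = ρ' * (1 - 1 / (l : ℝ)))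
    (hlx : Real.exp (L / 2) ≤ l)
    (hcT : (c : ℝ) ≤ x / T) (hu1 : (x : ℝ) / T ≤ u) (hux : u ≤ x)
    (hD : D = ⌊s⌋₊) (hN : N = ⌊δ / 16 * (u : ℝ)⌋₊)
    (hE0 : E0 = (((insert l P).card : ℝ) + 1) ^ (insert l P).card)
    (hR : R = x / u) (hE : E = (x : ℝ) / L ^ A)
    (hpi : |(Nat.primeCounting x : ℝ) * L / x - 1| < δ / 64)
    (hSW : ∀ Q : ℕ, 1 ≤ Q → (Q : ℝ) ≤ L ^ A → ∀ c : ℤ, IsCoprime c (Q : ℤ) → ∀ u v : ℤ, -(x : ℤ) ≤ u → u ≤ v → v ≤ x →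
      |∑ n ∈ (Ioc u v).filter (fun n => (Q : ℤ) ∣ n - c), Pool.Agent.N718.DC.lam n -
        (1 / (Nat.totient Q : ℝ)) * ∑ n ∈ Ioc u v, Pool.Agent.N718.DC.pos n| ≤ x / L ^ A) :
    Blk x c u N D R δ ρ ρ' E0 E ∧ (x : ℝ) / u ≤ T ∧ T < l ∧ (x : ℝ) / 2 ≤ ((x - c : ℕ) : ℝ) ∧
      x * (δ / 32) ≤ (x : ℝ) * N / u := by
  have hxR : (0 : ℝ) < x := by exact_mod_cast hx0
  have hxe : (x : ℝ) = Real.exp L := by rw [hL, Real.exp_log hxR]
  have hL0 : 0 < L := by linarith only [h1]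
  have hs0 : 0 < s := by linarith only [h2]
  have hT0 : 0 < T := by linarith only [hs0, hsT]
  have hT1 : 1 ≤ T := by linarith only [h2, hsT]
  have hxT : T ^ 2 * (2048 / δ ^ 2) ≤ x := by rw [hxe]; exact h5.le
  obtain ⟨hNu2, huR⟩ := n_N δ T x u hδ hδ1 hT1 hxR hu1 hxT
  rw [← hN] at hNu2
  have hu0 : 0 < u := by exact_mod_cast huR
  have hxu : (x : ℝ) / u ≤ T := by
    rw [div_le_iff₀ huR]
    rw [div_le_iff₀ hT0] at hu1
    linarith only [hu1]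
  have hδ2 : δ ^ 2 ≤ 1 := pow_le_one₀ hδ.le hδ1
  have hδ2' : 0 < δ ^ 2 := by positivity
  have h2048 : 2048 ≤ 2048 / δ ^ 2 := by
    rw [le_div_iff₀ hδ2']
    linarith only [hδ2]
  have hxT2 : T ^ 2 * 2048 ≤ x := le_trans (mul_le_mul_of_nonneg_left h2048 (by positivity)) hxT
  have hW0 : 0 < ∏ p ∈ P, p := prod_pos fun p hp => (hP p hp).pos
  have hl2 : 2 ≤ l := hl.two_le
  have hc0 : 0 < c := by rw [hc]; exact Nat.mul_pos hW0 (by omega)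
  have hcp : ¬ c.Prime := by
    rw [hc]
    exact Nat.not_prime_mul hWne (by omega)
  have hcu : c ≤ u := by
    have h : (c : ℝ) ≤ u := hcT.trans hu1
    exact_mod_cast h
  have h16 : 16 / δ ≤ s := by
    have e1 : 16 / δ ≤ 256 / δ := by gcongr; norm_num
    have e2 : 1 ≤ 256 / δ := by rw [le_div_iff₀ hδ]; linarith only [hδ1]
    nlinarith only [h3, e1, e2]
  have hcx : (c : ℝ) ≤ δ / 16 * x := by
    refine hcT.trans ?_
    rw [div_le_iff₀ hT0]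
    have e1 : 1 ≤ δ / 16 * T := by
      rw [div_le_iff₀ hδ] at h16
      nlinarith only [h16, hsT, hδ]
    nlinarith only [e1, hxR]
  have hD1' : s / 2 ≤ D := by
    have := Nat.lt_floor_add_one s
    rw [← hD] at this
    linarith only [this, h2]
  have hDs : (D : ℝ) ≤ s := by rw [hD]; exact Nat.floor_le hs0.le
  have hD1 : 1 ≤ D := by
    have : (0 : ℝ) < D := by linarith only [hD1', hs0]
    exact_mod_cast this
  have hDu : D ≤ u := by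
    have e1 : (D : ℝ) ≤ u := by
      have e2 : T ≤ x / T := by
        rw [le_div_iff₀ hT0]
        nlinarith only [hxT2, hT0]
      linarith only [e2, hDs, hsT, hu1]
    exact_mod_cast e1
  have hDsq : 4 / Real.sqrt D ≤ δ / 64 := by
    have e1 : 256 / δ ≤ Real.sqrt D := by
      apply Real.le_sqrt_of_sq_le
      linarith only [hD1', h3]
    have e2 : 0 < 256 / δ := by positivity
    rw [div_le_iff₀ (lt_of_lt_of_le e2 e1)]
    have e3 : δ / 64 * (256 / δ) ≤ δ / 64 * Real.sqrt D := mul_le_mul_of_nonneg_left e1 (by positivity)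
    have e4 : δ / 64 * (256 / δ) = 4 := by field_simp; norm_num
    linarith only [e3, e4]
  have hNu : (N : ℝ) ≤ δ / 16 * u := by rw [hN]; exact Nat.floor_le (by positivity)
  have hNN : δ / 32 ≤ (N : ℝ) / u := by
    rw [le_div_iff₀ huR]
    exact hNu2
  have hxN : x * (δ / 32) ≤ (x : ℝ) * N / u := by
    rw [mul_div_assoc]
    exact mul_le_mul_of_nonneg_left hNN hxR.le
  have hρ'0 : 0 < ρ' := by linarith only [hρ2]
  have hlR : (2 : ℝ) ≤ l := by exact_mod_cast hl2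
  have hl1 : 1 / (l : ℝ) ≤ δ / 16 := by
    have e1 : 16 / δ ≤ l := h10.trans hlx
    rw [div_le_iff₀ (by linarith only [hlR])]
    rw [div_le_iff₀ hδ] at e1
    linarith only [e1]
  have hl0 : 0 ≤ 1 / (l : ℝ) := by positivity
  have hl1' : 1 / (l : ℝ) ≤ 1 := by
    rw [div_le_one (by linarith only [hlR])]
    linarith only [hlR]
  have hρ'1 : ρ' ≤ 1 := by
    rw [hρ']
    apply prod_le_one
    · intro p hp
      have : (1 : ℝ) ≤ p := by exact_mod_cast (hP p hp).one_le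
      rw [sub_nonneg, div_le_one (by linarith only [this])]
      exact this
    · intro p hp
      have : (0 : ℝ) ≤ 1 / (p : ℝ) := by positivity
      linarith only [this]
  have hlP : l ∉ P := by
    intro h
    have e1 : l ≤ ∏ p ∈ P, p := Nat.le_of_dvd hW0 (dvd_prod_of_mem _ h)
    have e2 : (l : ℝ) ≤ ((∏ p ∈ P, p : ℕ) : ℝ) := by exact_mod_cast e1
    have e3 : Real.exp (L ^ b) < Real.exp (L / 2) := Real.exp_lt_exp.2 h9
    linarith only [e2, e3, hW, hlx]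
  have hP' : ∀ p ∈ insert l P, p.Prime := by
    intro p hp
    rcases mem_insert.1 hp with rfl | h
    · exact hl
    · exact hP p h
  have hprod : ∏ p ∈ insert l P, p = c := by
    rw [prod_insert hlP, hc, mul_comm]
  have hprod2 : ∏ p ∈ insert l P, (1 - 1 / (p : ℝ)) = ρ := by
    rw [prod_insert hlP, hρ, hρ', mul_comm]
  have hV : ∀ z : ℕ, |(vc c z : ℝ) - ρ * z| ≤ E0 := by
    intro z
    have := legendre (insert l P) hP' z
    rw [hprod, hprod2, ← hE0] at this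
    exact this
  have hE00 : 0 ≤ E0 := by
    rw [hE0]
    exact pow_nonneg (add_nonneg (Nat.cast_nonneg _) zero_le_one) _
  have hLb : 0 ≤ L ^ b := Real.rpow_nonneg hL0.le _
  have hE0b : E0 ≤ Real.exp (L ^ (1 / 2 : ℝ)) := by
    have e1 : (P.card : ℝ) ≤ 2 * L ^ b := card_P P hP _ hW
    have e2 : (((insert l P).card : ℕ) : ℝ) ≤ (2 * L ^ b + 1) + 1 := by
      rw [card_insert_of_notMem hlP]
      push_cast
      linarith only [e1]
    have e3 := n_pow (insert l P).card (2 * L ^ b + 1) (by linarith only [hLb]) e2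
    rw [← hE0] at e3
    refine e3.trans (Real.exp_le_exp.2 (le_trans (le_of_eq ?_) h8))
    ring_nf
  have hE1 : (2 * E0 + 2) * (1 + Real.log x * 2) ^ 2 ≤ N * (δ / 64) := by
    rw [← hL]
    refine n_E1 δ T x u N (Real.exp (L ^ (1 / 2 : ℝ))) E0 L hδ hT0 hL0.le huR hu1 hNu2 hE0b ?_
    rw [hxe]
    exact h4
  have hRT : (R : ℝ) ≤ T := by
    rw [hR]
    exact Nat.cast_div_le.trans hxu
  have hxR1 : x < c + u * (R + 1) := by
    have := Nat.lt_mul_div_succ x hu0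
    rw [← hR] at this
    omega
  have hLA : 0 < L ^ A := by positivity
  have hE2 : 0 ≤ E := by rw [hE]; positivity
  have hE3 : (R : ℝ) * R + R * E ≤ (x : ℝ) * N / u * (δ / 8) := by
    rw [hE]
    exact n_E3 δ T x R (L ^ A) _ hδ hT0 hxR (Nat.cast_nonneg _) hRT hLA hxN hxT h6
  have hTA : T ≤ L ^ A := by
    have e1 : 1 ≤ 1024 / δ ^ 2 := by
      rw [le_div_iff₀ hδ2']
      linarith only [hδ2]
    nlinarith only [e1, h6, hT0]
  have hE4 := n_sw x c u (u + N) R A L E hE hE2 (hRT.trans hTA) hSW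
  have hlogu : L - δ / 64 * L ≤ Real.log u := by
    have e1 : Real.log (x / T) ≤ Real.log u := Real.log_le_log (by positivity) hu1
    rw [Real.log_div hxR.ne' hT0.ne', ← hL] at e1
    linarith only [e1, h7]
  obtain ⟨hpi1, hpi2⟩ := n_pi δ L (Real.log u) (Nat.primeCounting x) x hδ hδ1 hxR (Nat.cast_nonneg _) hpi hlogu
  have hTl : T < l := by
    refine lt_of_lt_of_le ?_ hlx
    have e7 : T ^ 2 < Real.exp L := by
      rw [← hxe]
      nlinarith only [hxT2, hT0]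
    have e8 : Real.exp L = Real.exp (L / 2) ^ 2 := by
      rw [← Real.exp_nat_mul]
      congr 1
      push_cast
      ring
    rw [e8] at e7
    exact lt_of_pow_lt_pow_left₀ 2 (Real.exp_pos _).le e7
  have hcx2 : (x : ℝ) / 2 ≤ ((x - c : ℕ) : ℝ) := by
    rw [Nat.cast_sub (hcu.trans hux)]
    have : δ / 16 * (x : ℝ) ≤ 1 / 2 * x := by
      apply mul_le_mul_of_nonneg_right _ hxR.le
      linarith only [hδ1]
    linarith only [this, hcx]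
  refine ⟨?_, hxu, hTl, hcx2, hxN⟩
  exact {
      hδ0 := hδ, hδ1 := hδ1, hc0 := hc0, hc := hcp, hcu := hcu, hcx := hcx, hux := hux, hN := hNu, hx := hxR1
      hD := hD1, hDu := hDu, hDs := hDsq
      hρ0 := by rw [hρ]; exact mul_nonneg hρ'0.le (by linarith only [hl1'])
      hρ := by rw [hρ]; exact mul_le_of_le_one_right hρ'0.le (by linarith only [hl0])
      hρ1 := hρ'1
      hρ2 := hρ2
      hρ3 := by rw [hρ]; exact mul_le_mul_of_nonneg_left (by linarith only [hl1]) hρ'0.le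
      hE0 := hE00, hV := hV, hE1 := hE1, hE2 := hE2, hE3 := hE3, hE4 := hE4
      hu1 := by nlinarith only [hlogu, h1, hδ1, hδ]
      hpi1 := by rw [← hL]; exact hpi1
      hpi2 := hpi2
      hlx := by rw [← hL]; linarith only [h1] }

open Pool.Agent.N610.MS in
theorem core (a b : ℝ) (ha : 0 < a) (hb : 0 < b) (hb8 : b ≤ 1 / 8) : ∃ κ : ℝ, 0 < κ ∧
    ∀ σ : ℝ, (σ = 1 ∨ σ = -1) → ∃ δ : ℝ, 0 < δ ∧ δ ≤ 1 ∧ ∀ᶠ x : ℕ in atTop,
      ∃ P : Finset ℕ, (∀ p ∈ P, p.Prime) ∧ ((∏ p ∈ P, p : ℕ) : ℝ) ≤ Real.exp (Real.log x ^ b) ∧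
        ∀ l : ℕ, l.Prime → Real.exp (Real.log x / 2) ≤ l →
          (((∏ p ∈ P, p) * l : ℕ) : ℝ) ≤ x / (Real.log x ^ a * Real.log x ^ (κ / 2)) →
          ∀ u : ℕ, (x : ℝ) / (Real.log x ^ a * Real.log x ^ (κ / 2)) ≤ u →
            (u : ℝ) ≤ x / (Real.log x ^ a * Real.log x ^ (κ / 4)) →
            δ ^ 2 / 128 * x / Real.log x ≤ σ * dev x ((∏ p ∈ P, p) * l) u (u + ⌊δ / 16 * u⌋₊) := by
  obtain ⟨κ, hκ, hcnt⟩ := Pool.Agent.V5helper42.MF.cnt t_BON (t_LEG t_BON) a b ha hb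
  refine ⟨κ, hκ, fun σ hσ => ?_⟩
  obtain ⟨δ, hδ, hδ1, hc⟩ := hcnt σ hσ
  refine ⟨δ, hδ, hδ1, ?_⟩
  obtain ⟨A, hA⟩ := exists_nat_gt (a + κ / 2)
  obtain ⟨X0, hSW⟩ := Pool.Agent.N75.DC.sw_ A A
  have hlogN : Tendsto (fun x : ℕ => Real.log (x : ℝ)) atTop atTop :=
    Real.tendsto_log_atTop.comp tendsto_natCast_atTop_atTop
  have hpi : ∀ᶠ x : ℕ in atTop, |(Nat.primeCounting x : ℝ) * Real.log x / x - 1| < δ / 64 := by
    have h1 := Pool.Agent.Helper601.PNT.pi_tendsto.comp (tendsto_natCast_atTop_atTop (R := ℝ))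
    have h2 := (Metric.tendsto_nhds.1 h1) (δ / 64) (by positivity)
    filter_upwards [h2] with x hx
    simpa [Real.dist_eq] using hx
  filter_upwards [tendsto_natCast_atTop_atTop.eventually hc,
    hlogN.eventually (facts a κ δ b A ha hκ hδ hb hb8 hA), hpi, eventually_ge_atTop X0, eventually_gt_atTop 1]
    with x hcx F hpix hxX0 hx1
  have hGS : Pool.Agent.H378R2.GoodS (x : ℝ) (∅ : Finset ℕ) := by
    refine ⟨by simp, ?_⟩
    rw [sum_empty]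
    positivity
  obtain ⟨P, hPP, hW, hρ2, hrel⟩ := hcx ∅ 1 hGS
  have hP : ∀ p ∈ P, p.Prime := by
    intro p hp
    have := hPP hp
    unfold Pool.Agent.H378R2.PW at this
    rw [mem_filter] at this
    exact this.2.1
  refine ⟨P, hP, hW, fun l hl hlx hcT u hu1 hu2 => ?_⟩
  have hSWx := hSW x hxX0
  obtain ⟨L, hL⟩ : ∃ L : ℝ, L = Real.log x := ⟨_, rfl⟩
  rw [← hL] at F hW hrel hlx hcT hu1 hu2 hpix hSWx ⊢
  obtain ⟨f1, f2, f3, f4, f5, f6, f7, f8, f9, f10, f11, f12⟩ := F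
  have hL0 : 0 < L := by linarith only [f1]
  have hx0 : 0 < x := by omega
  have hxR : (0 : ℝ) < x := by exact_mod_cast hx0
  obtain ⟨s, hs⟩ : ∃ s : ℝ, s = L ^ (κ / 8) := ⟨_, rfl⟩
  obtain ⟨Y0, hY0⟩ : ∃ Y0 : ℝ, Y0 = L ^ a := ⟨_, rfl⟩
  have hs2 : L ^ (κ / 4) = s ^ 2 := by
    rw [hs, ← Real.rpow_natCast, ← Real.rpow_mul hL0.le]
    congr 1
    push_cast
    ring
  have hs4 : L ^ (κ / 2) = s ^ 4 := by
    rw [hs, ← Real.rpow_natCast, ← Real.rpow_mul hL0.le]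
    congr 1
    push_cast
    ring
  have hs8 : L ^ (a + κ) = Y0 * s ^ 8 := by
    rw [Real.rpow_add hL0, ← hY0, hs, ← Real.rpow_natCast (L ^ (κ / 8)), ← Real.rpow_mul hL0.le]
    congr 2
    push_cast
    ring
  rw [← hY0, hs4] at f4 f5 f6 f7 hcT hu1
  rw [← hY0, hs2] at hu2
  rw [← hY0] at f11 f12
  rw [← hs] at f2 f3
  rw [hs8, ← hY0] at hrel
  have hs1 : 1 ≤ s := by linarith only [f2]
  have hs0 : 0 < s := by linarith only [hs1]
  have hY00 : 0 < Y0 := by linarith only [f11]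
  obtain ⟨T, hT⟩ : ∃ T : ℝ, T = Y0 * s ^ 4 := ⟨_, rfl⟩
  rw [← hT] at f4 f5 f6 f7 hcT hu1
  have hs81 : (1 : ℝ) ≤ s ^ 8 := one_le_pow₀ hs1
  have hss4 : s ≤ s ^ 4 := by
    calc s = s ^ 1 := (pow_one s).symm
      _ ≤ s ^ 4 := pow_le_pow_right₀ hs1 (by norm_num)
  have hsT : s ≤ T := by
    rw [hT]
    nlinarith only [hss4, f11, pow_pos hs0 4]
  have hT0 : 0 < T := by linarith only [hs0, hsT]
  have hTb : T ≤ Y0 * s ^ 8 := by
    rw [hT]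
    apply mul_le_mul_of_nonneg_left _ hY00.le
    exact pow_le_pow_right₀ hs1 (by norm_num)
  have hY0b : Y0 ≤ Y0 * s ^ 8 := by nlinarith only [hs81, hY00]
  have hWne := n_ne P hP Y0 σ δ hσ hY00 f12 (hrel Y0 le_rfl hY0b)
  have hu2' : (u : ℝ) * (Y0 * s ^ 2) ≤ x := by
    rwa [le_div_iff₀ (by positivity)] at hu2
  have hux : u ≤ x := by
    have h1 : (u : ℝ) * 1 ≤ u * (Y0 * s ^ 2) := by
      apply mul_le_mul_of_nonneg_left _ (Nat.cast_nonneg _)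
      have : (1 : ℝ) ≤ s ^ 2 := one_le_pow₀ hs1
      nlinarith only [this, f11]
    have h2 : (u : ℝ) ≤ x := by linarith only [h1, hu2']
    exact_mod_cast h2
  obtain ⟨hBlk, hxu, hTl, hcx2, hxN⟩ := n_Blk P hP x l ((∏ p ∈ P, p) * l) u ⌊δ / 16 * (u : ℝ)⌋₊ ⌊s⌋₊ (x / u) A hl rfl
    a κ δ b L T s ((∏ p ∈ P, (1 - 1 / (p : ℝ))) * (1 - 1 / (l : ℝ))) (∏ p ∈ P, (1 - 1 / (p : ℝ)))
    ((((insert l P).card : ℝ) + 1) ^ (insert l P).card) ((x : ℝ) / L ^ A) hL hδ hδ1 hx0 f1 f2 f3 f4 f5 f6 f7 f8 f9 f10 hsT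
    hW hWne rfl hρ2 rfl hlx hcT hu1 hux rfl rfl rfl rfl rfl hpix hSWx
  obtain ⟨N, hN⟩ : ∃ N : ℕ, N = ⌊δ / 16 * (u : ℝ)⌋₊ := ⟨_, rfl⟩
  obtain ⟨D, hD⟩ : ∃ D : ℕ, D = ⌊s⌋₊ := ⟨_, rfl⟩
  obtain ⟨c, hc⟩ : ∃ c : ℕ, c = (∏ p ∈ P, p) * l := ⟨_, rfl⟩
  rw [← hc] at hcT hcx2 hBlk ⊢
  rw [← hN] at hxN hBlk ⊢
  rw [← hD] at hBlk
  have hDs : (D : ℝ) ≤ s := by rw [hD]; exact Nat.floor_le hs0.le
  have hu0 : 0 < u := by
    have : (0 : ℝ) < u := lt_of_lt_of_le (by positivity) hu1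
    exact_mod_cast this
  have hirr := n_irr P hP x c l u N D hl hc δ σ Y0 s T (Y0 * s ^ 8) hδ hδ1 f11 f2 hDs hu0
    (by rw [hN]; exact Nat.floor_le (by positivity)) hu2' hxu hTl hTb hcx2 hx0 hrel
  have hfinal : δ ^ 2 / 128 * x / L ≤ (x : ℝ) * N / u * (δ / 4) / Real.log x := by
    rw [← hL]
    apply div_le_div_of_nonneg_right _ hL0.le
    have h1 : x * (δ / 32) * (δ / 4) ≤ (x : ℝ) * N / u * (δ / 4) := mul_le_mul_of_nonneg_right hxN (by positivity)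
    linarith only [h1]
  have hρ'0 : 0 < ∏ p ∈ P, (1 - 1 / (p : ℝ)) := by linarith only [hρ2]
  obtain ⟨ρ', hρ'⟩ : ∃ ρ' : ℝ, ρ' = ∏ p ∈ P, (1 - 1 / (p : ℝ)) := ⟨_, rfl⟩
  rw [← hρ'] at hρ'0 hBlk
  rcases hσ with h | h
  · rw [h, one_mul]
    refine hfinal.trans (block_plus x c u N D _ δ _ ρ' _ _ hBlk fun q hq => ?_)
    obtain ⟨w1, w2⟩ := hirr q hq
    refine ⟨w1, fun d hd => ?_⟩
    obtain ⟨w3, w4, w5⟩ := w2 d hd
    rw [w3]
    rw [h, one_mul] at w5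
    unfold rel at w5
    rw [← hρ'] at w5
    have w6 : 1 + 2 * δ ≤ (V P ⌊((x - c : ℕ) : ℝ) / q / d⌋₊ : ℝ) / (((x - c : ℕ) : ℝ) / q / d * ρ') := by linarith only [w5]
    rw [le_div_iff₀ (mul_pos w4 hρ'0)] at w6
    linarith only [w6]
  · rw [h, neg_one_mul]
    refine hfinal.trans (block_minus x c u N D _ δ _ ρ' _ _ hBlk fun q hq => ?_)
    obtain ⟨w1, w2⟩ := hirr q hq
    refine ⟨w1, fun d hd => ?_⟩
    obtain ⟨w3, w4, w5⟩ := w2 d hd
    rw [w3]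
    rw [h, neg_one_mul] at w5
    unfold rel at w5
    rw [← hρ'] at w5
    have w6 : (V P ⌊((x - c : ℕ) : ℝ) / q / d⌋₊ : ℝ) / (((x - c : ℕ) : ℝ) / q / d * ρ') ≤ 1 - 2 * δ := by linarith only [w5]
    rw [div_le_iff₀ (mul_pos w4 hρ'0)] at w6
    linarith only [w6]

end Pool.Agent.V5helper42.FG
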