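import Pool.Agent.V5helper42.FG.K1
import Pool.Agent.N403.QL.BVH

/-!
# Friedlander-Granville phenomenon: the rows from Bombieri-Vinogradov, PNT with a rate (helper42)
-/

set_option autoImplicit false

namespace Pool.Agent.V5helper42.FG

open Finset Filter Topology
open Pool.Agent.N718.DC (lam)

/-- `θ(h; r, c)` -/
noncomputable def th (h r c : ℕ) : ℝ := ∑ p ∈ (Icc 1 h).filter (fun p => p.Prime ∧ p ≡ c [MOD r]), Real.log p

lemma lam_th (h1 h2 r c : ℕ) (h : h1 ≤ h2) :
    ∑ n ∈ (Ioc (h1 : ℤ) (h2 : ℤ)).filter (fun n => (r : ℤ) ∣ n - c), lam n = th h2 r c - th h1 r c := by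
  classical
  have e1 : th h2 r c - th h1 r c = ∑ p ∈ (Ioc h1 h2).filter (fun p => p.Prime ∧ p ≡ c [MOD r]), Real.log p := by
    unfold th
    rw [sub_eq_iff_eq_add, add_comm, ← sum_union]
    · refine sum_congr ?_ fun _ _ => rfl
      rw [← filter_union]
      congr 1
      ext n
      simp only [mem_Icc, mem_union, mem_Ioc]
      omega
    · rw [disjoint_left]
      intro n hn hn2
      rw [mem_filter, mem_Icc] at hn
      rw [mem_filter, mem_Ioc] at hn2
      omega
  have e2 : ∑ n ∈ (Ioc (h1 : ℤ) (h2 : ℤ)).filter (fun n => (r : ℤ) ∣ n - c), lam n =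
      ∑ n ∈ (Ioc (h1 : ℤ) (h2 : ℤ)).filter (fun n => (r : ℤ) ∣ n - c ∧ n.natAbs.Prime), lam n := by
    rw [← filter_filter]
    symm
    apply sum_subset (filter_subset _ _)
    intro n hn hn2
    rw [mem_filter] at hn2
    unfold lam
    rw [if_neg]
    intro h
    exact hn2 ⟨hn, h.2⟩
  rw [e1, e2]
  symm
  refine sum_bij (fun p _ => (p : ℤ)) ?_ ?_ ?_ ?_
  · intro p hp
    rw [mem_filter, mem_Ioc] at hp
    rw [mem_filter, mem_Ioc]
    refine ⟨⟨by exact_mod_cast hp.1.1, by exact_mod_cast hp.1.2⟩, ?_, by rw [Int.natAbs_natCast]; exact hp.2.1⟩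
    exact (Nat.modEq_iff_dvd.1 hp.2.2.symm)
  · intro p _ p' _ h
    exact_mod_cast h
  · intro n hn
    rw [mem_filter, mem_Ioc] at hn
    have hn0 : 0 ≤ n := le_trans (Int.natCast_nonneg _) hn.1.1.le
    obtain ⟨p, rfl⟩ := Int.eq_ofNat_of_zero_le hn0
    rw [Int.natAbs_natCast] at hn
    refine ⟨p, ?_, rfl⟩
    rw [mem_filter, mem_Ioc]
    exact ⟨⟨by exact_mod_cast hn.1.1, by exact_mod_cast hn.1.2⟩, hn.2.2, (Nat.modEq_iff_dvd.2 hn.2.1).symm⟩
  · intro p hp
    rw [mem_filter, mem_Ioc] at hp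
    unfold lam
    rw [if_pos]
    · push_cast; rfl
    · exact ⟨by exact_mod_cast hp.2.1.pos, by rw [Int.natAbs_natCast]; exact hp.2.1⟩

/-- the rows, from Bombieri-Vinogradov -/
lemma rows_bv (x c u v R : ℕ) (E : ℝ) (huv : u ≤ v)
    (hBV : ∀ r h : ℕ → ℕ, (∀ m ∈ Icc 1 R, Nat.Coprime (r m) m) → (∀ m, h m ≤ x) →
      ∑ m ∈ Icc 1 R, |∑ p ∈ (Icc 1 (h m)).filter (fun p => p.Prime ∧ p ≡ r m [MOD m]), Real.log p -
        (h m : ℝ) / Nat.totient m| ≤ E) :
    ∑ r ∈ (Icc 1 R).filter (fun r => r.Coprime c),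
      |∑ n ∈ (Ioc ((c + u * r : ℕ) : ℤ) ((min (c + v * r) x : ℕ) : ℤ)).filter (fun n => (r : ℤ) ∣ n - c),
        lam n - (len x c u v r : ℝ) / (r.totient : ℝ)| ≤ 2 * E := by
  classical
  obtain ⟨cl, hcl⟩ : ∃ cl : ℕ → ℕ, cl = fun m => if m.Coprime c then c else 1 := ⟨_, rfl⟩
  have hcl1 : ∀ m ∈ Icc 1 R, Nat.Coprime (cl m) m := by
    intro m _
    rw [hcl]
    dsimp only
    split_ifs with h
    · exact h.symm
    · exact Nat.coprime_one_left m
  have b1 := hBV cl (fun m => min (c + u * m) x) hcl1 (fun m => min_le_right _ _)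
  have b2 := hBV cl (fun m => min (c + v * m) x) hcl1 (fun m => min_le_right _ _)
  have key : ∀ r ∈ (Icc 1 R).filter (fun r => r.Coprime c),
      |∑ n ∈ (Ioc ((c + u * r : ℕ) : ℤ) ((min (c + v * r) x : ℕ) : ℤ)).filter (fun n => (r : ℤ) ∣ n - c),
        lam n - (len x c u v r : ℝ) / (r.totient : ℝ)| ≤
      |∑ p ∈ (Icc 1 (min (c + u * r) x)).filter (fun p => p.Prime ∧ p ≡ cl r [MOD r]), Real.log p -
        ((min (c + u * r) x : ℕ) : ℝ) / Nat.totient r| +
      |∑ p ∈ (Icc 1 (min (c + v * r) x)).filter (fun p => p.Prime ∧ p ≡ cl r [MOD r]), Real.log p -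
        ((min (c + v * r) x : ℕ) : ℝ) / Nat.totient r| := by
    intro r hr
    rw [mem_filter] at hr
    have hclr : cl r = c := by rw [hcl]; exact if_pos hr.2
    have hmul : u * r ≤ v * r := Nat.mul_le_mul_right r huv
    have hle : min (c + u * r) x ≤ min (c + v * r) x := min_le_min_right x (by omega)
    have hset : Ioc ((c + u * r : ℕ) : ℤ) ((min (c + v * r) x : ℕ) : ℤ) =
        Ioc ((min (c + u * r) x : ℕ) : ℤ) ((min (c + v * r) x : ℕ) : ℤ) := by
      rcases le_total (c + u * r) x with h | h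
      · rw [min_eq_left h]
      · rw [min_eq_right h, min_eq_right (by omega : x ≤ c + v * r), Ioc_self, Ioc_eq_empty]
        intro h2
        have : c + u * r < x := by exact_mod_cast h2
        omega
    have hlen : (len x c u v r : ℝ) = ((min (c + v * r) x : ℕ) : ℝ) - ((min (c + u * r) x : ℕ) : ℝ) := by
      rw [← Nat.cast_sub hle]
      congr 1
      unfold len
      rcases le_total (c + u * r) x with h | h
      · rw [min_eq_left h]
      · rw [min_eq_right h, min_eq_right (by omega : x ≤ c + v * r)]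
        omega
    rw [hset, lam_th _ _ _ _ hle, hlen, hclr]
    unfold th
    rw [sub_div, abs_sub_comm]
    have e : ∀ a b a' b' : ℝ, |a' - b' - (a - b)| ≤ |b - b'| + |a - a'| := by
      intro a b a' b'
      have h1 : a' - b' - (a - b) = (b - b') + (-(a - a')) := by ring
      rw [h1]
      refine (abs_add_le _ _).trans ?_
      rw [abs_neg]
    exact e _ _ _ _
  refine (sum_le_sum key).trans ?_
  refine (sum_le_sum_of_subset_of_nonneg (filter_subset _ _) fun r _ _ => by positivity).trans ?_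
  rw [sum_add_distrib]
  linarith

/-- the prime number theorem with a rate -/
lemma pnt_rate : ∀ᶠ x : ℕ in atTop, |(Nat.primeCounting x : ℝ) * Real.log x / x - 1| ≤ Real.log x ^ (-(1 / 2 : ℝ)) := by
  obtain ⟨C, hC, hth⟩ := Pool.Agent.H442R2.EHI.PntErrAux.thetaU 1
  obtain ⟨c, hc⟩ := (Chebyshev.primeCounting_sub_theta_div_log_isBigO).bound
  have hlogN : Tendsto (fun x : ℕ => Real.log (x : ℝ)) atTop atTop :=
    Real.tendsto_log_atTop.comp tendsto_natCast_atTop_atTop
  have hc' := (tendsto_natCast_atTop_atTop (R := ℝ)).eventually hc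
  filter_upwards [hc', eventually_ge_atTop 3, hlogN.eventually (ev_rpow (-1) (-(1 / 2)) (|c| + C) (by norm_num))] with x hx hx3 hL
  have hx0 : (0 : ℝ) < x := by exact_mod_cast (by omega : 0 < x)
  have hl : 0 < Real.log x := Real.log_pos (by exact_mod_cast (by omega : 1 < x))
  have h1 := hth x (by omega)
  rw [Nat.floor_natCast] at hx
  rw [Real.norm_eq_abs, Real.norm_of_nonneg (by positivity : 0 ≤ (x : ℝ) / Real.log x ^ 2)] at hx
  refine le_trans ?_ hL
  have e1 : (Nat.primeCounting x : ℝ) * Real.log x / x - 1 =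
      ((Nat.primeCounting x : ℝ) - Chebyshev.theta x / Real.log x) * (Real.log x / x) +
        (Chebyshev.theta x - x) / x := by
    field_simp
    ring
  rw [e1]
  refine (abs_add_le _ _).trans ?_
  rw [abs_mul, abs_of_nonneg (by positivity : 0 ≤ Real.log x / (x : ℝ)), abs_div, abs_of_pos hx0]
  rw [Real.rpow_neg_one, add_mul]
  apply add_le_add
  · calc |(Nat.primeCounting x : ℝ) - Chebyshev.theta x / Real.log x| * (Real.log x / x) ≤
        (c * (x / Real.log x ^ 2)) * (Real.log x / x) := mul_le_mul_of_nonneg_right hx (by positivity)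
      _ = c * (Real.log x)⁻¹ := by field_simp
      _ ≤ |c| * (Real.log x)⁻¹ := by gcongr; exact le_abs_self c
  · rw [div_le_iff₀ hx0]
    refine h1.trans (le_of_eq ?_)
    rw [pow_one]
    field_simp

end Pool.Agent.V5helper42.FG
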