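import Pool.Agent.V5helper42.FG.K2

/-!
# Friedlander-Granville phenomenon: growing number of prime factors, numerical facts (helper42)
-/

set_option autoImplicit false

namespace Pool.Agent.V5helper42.FG

open Finset Filter Topology Asymptotics

/-- the number of prime factors -/
noncomputable def kk (c1 : ℝ) (p : ℕ) (m : ℝ) : ℕ := 2 * ⌊c1 * (m / Real.log m)⌋₊ + p

lemma kk_facts (c1 : ℝ) (p : ℕ) (hc : 0 < c1) (hc1 : c1 ≤ 1 / 3) (hp : 1 ≤ p) (hp2 : p ≤ 2) : ∀ᶠ m : ℝ in atTop,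
    c1 * (m / Real.log m) ≤ kk c1 p m ∧ (kk c1 p m : ℝ) + 1 ≤ m ∧
      4 * (4 * m ^ 2) ^ (kk c1 p m + 1) ≤ Real.exp (7 * c1 * m) ∧
      (8 : ℝ) ^ (kk c1 p m + 1) ≤ Real.exp (c1 * m) := by
  have h0 : Tendsto (fun m : ℝ => c1 * (m / Real.log m)) atTop atTop := by
    apply Tendsto.const_mul_atTop hc
    have h1 : Tendsto (fun m : ℝ => Real.log m / m) atTop (𝓝[>] 0) := by
      rw [tendsto_nhdsWithin_iff]
      constructor
      · have := Real.isLittleO_log_id_atTop.tendsto_div_nhds_zero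
        simpa using this
      · filter_upwards [eventually_gt_atTop 1] with m hm
        exact div_pos (Real.log_pos hm) (by linarith)
    have h2 := h1.inv_tendsto_nhdsGT_zero
    refine h2.congr fun m => ?_
    simp
  filter_upwards [h0.eventually_ge_atTop 3, Real.tendsto_log_atTop.eventually_ge_atTop 12,
    eventually_ge_atTop (4 / c1), eventually_ge_atTop 1] with m h3 h4 h5 h6
  obtain ⟨r, hr⟩ : ∃ r : ℝ, r = c1 * (m / Real.log m) := ⟨_, rfl⟩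
  obtain ⟨ℓ, hℓ⟩ : ∃ ℓ : ℝ, ℓ = Real.log m := ⟨_, rfl⟩
  have hm0 : 0 < m := by linarith
  rw [← hr] at h3
  rw [← hℓ] at h4
  have hℓ0 : 0 < ℓ := by linarith
  have hrm : r * ℓ = c1 * m := by
    rw [hr, ← hℓ]
    field_simp
  have hk : (kk c1 p m : ℝ) = 2 * (⌊r⌋₊ : ℝ) + p := by
    unfold kk
    rw [← hr]
    push_cast
    ring
  have hf1 : (⌊r⌋₊ : ℝ) ≤ r := Nat.floor_le (by linarith)
  have hf2 : r < (⌊r⌋₊ : ℝ) + 1 := Nat.lt_floor_add_one r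
  have hpR : (1 : ℝ) ≤ p := by exact_mod_cast hp
  have hpR2 : (p : ℝ) ≤ 2 := by exact_mod_cast hp2
  have hk1 : (kk c1 p m : ℝ) + 1 ≤ 3 * r := by rw [hk]; linarith
  have hk2 : r ≤ kk c1 p m := by rw [hk]; linarith
  have hk0 : (0 : ℝ) ≤ (kk c1 p m : ℝ) + 1 := by positivity
  have hlog4 : Real.log 4 ≤ 1.4 := by
    have : Real.log 4 = 2 * Real.log 2 := by
      rw [show (4 : ℝ) = 2 ^ 2 by norm_num, Real.log_pow]; norm_num
    rw [this]
    linarith [Real.log_two_lt_d9]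
  have hlog8 : Real.log 8 ≤ 2.1 := by
    have : Real.log 8 = 3 * Real.log 2 := by
      rw [show (8 : ℝ) = 2 ^ 3 by norm_num, Real.log_pow]; norm_num
    rw [this]
    linarith [Real.log_two_lt_d9]
  have hr12 : r ≤ c1 * m / 12 := by
    rw [le_div_iff₀ (by norm_num), ← hrm]
    apply mul_le_mul_of_nonneg_left h4 (by linarith)
  have hcm : 4 ≤ c1 * m := by
    rw [div_le_iff₀ hc] at h5
    linarith
  refine ⟨by rw [← hr]; exact hk2, ?_, ?_, ?_⟩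
  · have : c1 * m ≤ m := by nlinarith
    linarith
  · have e1 : 4 * (4 * m ^ 2) ^ (kk c1 p m + 1) = Real.exp (Real.log 4 + ((kk c1 p m : ℝ) + 1) * (Real.log 4 + 2 * ℓ)) := by
      rw [Real.exp_add, Real.exp_log (by norm_num : (0:ℝ) < 4)]
      congr 1
      have e2 : ((kk c1 p m : ℝ) + 1) * (Real.log 4 + 2 * ℓ) = ((kk c1 p m + 1 : ℕ) : ℝ) * Real.log (4 * m ^ 2) := by
        rw [Real.log_mul (by norm_num) (by positivity), Real.log_pow, hℓ]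
        push_cast
        ring
      rw [e2, Real.exp_nat_mul, Real.exp_log (by positivity)]
    rw [e1, Real.exp_le_exp]
    have e3 : ((kk c1 p m : ℝ) + 1) * (Real.log 4 + 2 * ℓ) ≤ 3 * r * (1.4 + 2 * ℓ) := by
      apply mul_le_mul hk1 (by linarith) (by have := Real.log_nonneg (by norm_num : (1:ℝ) ≤ 4); linarith) (by linarith)
    have e4 : 3 * r * (1.4 + 2 * ℓ) = 4.2 * r + 6 * (c1 * m) := by rw [← hrm]; ring
    linarith
  · have e1 : (8 : ℝ) ^ (kk c1 p m + 1) = Real.exp (((kk c1 p m : ℝ) + 1) * Real.log 8) := by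
      have e2 : ((kk c1 p m : ℝ) + 1) * Real.log 8 = ((kk c1 p m + 1 : ℕ) : ℝ) * Real.log 8 := by push_cast; ring
      rw [e2, Real.exp_nat_mul, Real.exp_log (by norm_num)]
    rw [e1, Real.exp_le_exp]
    have e3 : ((kk c1 p m : ℝ) + 1) * Real.log 8 ≤ 3 * r * 2.1 := by
      apply mul_le_mul hk1 hlog8 (Real.log_nonneg (by norm_num)) (by linarith)
    linarith

/-- numerical facts -/
structure F2 (b b' c1 : ℝ) (p A K : ℕ) (L : ℝ) : Prop where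
  f1 : 4 ≤ L
  f2 : c1 * (Real.log L / Real.log (Real.log L)) ≤ kk c1 p (Real.log L)
  f3 : (kk c1 p (Real.log L) : ℝ) + 1 ≤ Real.log L
  f4 : 4 * (4 * Real.log L ^ 2) ^ (kk c1 p (Real.log L) + 1) ≤ L ^ (7 * c1)
  f5 : (8 : ℝ) ^ (kk c1 p (Real.log L) + 1) ≤ L ^ c1
  f6 : L ^ b / 2 ≤ ⌊L ^ b⌋₊
  f7 : 48 * Real.log L * L ^ (7 * c1) ≤ L ^ b
  f8 : 12 * L ^ (72 * c1) ≤ L ^ b
  f9 : 4 ≤ L ^ (16 * c1)
  f10 : 131072 * L ^ (14 * c1) ≤ L ^ (16 * c1)
  f11 : (2 * Real.exp (L ^ (1 / 2 : ℝ)) + 2) * (1 + L * 2) ^ 2 * Real.exp (L ^ (1 / 4 : ℝ)) * (4096 * L ^ (14 * c1)) ≤ Real.exp L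
  f12 : Real.exp (L ^ (1 / 4 : ℝ)) ^ 2 * (2048 * L ^ (14 * c1)) < Real.exp L
  f13 : Real.log L ^ 2 ≤ L ^ (1 / 4 : ℝ)
  f14 : L ^ (1 / 4 : ℝ) * (64 * L ^ (7 * c1)) ≤ L
  f15 : 2048 * L ^ (14 * c1) ≤ L ^ A
  f16 : (2 * L ^ b' + 2) * Real.log (2 * L ^ b' + 3) ≤ L ^ (1 / 2 : ℝ)
  f17 : 2 * L ^ b ≤ L ^ b'
  f18 : L ^ b' < L / 2
  f19 : 16 * L ^ (7 * c1) ≤ Real.exp (L / 2)
  f20 : 65 * L ^ (7 * c1) ≤ L ^ (1 / 2 : ℝ)
  f21 : Real.exp (L ^ (1 / 4 : ℝ)) ^ 2 * L ^ K ≤ Real.exp L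

lemma f2_ev (b b' c1 : ℝ) (p A K : ℕ) (hc : 0 < c1) (hb : b = 100 * c1) (hbb : b < b') (hb8 : b' ≤ 1 / 8)
    (hA : 14 * c1 < A) (hp : 1 ≤ p) (hp2 : p ≤ 2) : ∀ᶠ L : ℝ in atTop, F2 b b' c1 p A K L := by
  have hb0 : 0 < b := by rw [hb]; positivity
  have hc8 : c1 ≤ 1 / 800 := by linarith
  have hlog14 : ∀ᶠ L : ℝ in atTop, Real.log L ^ 2 ≤ L ^ (1 / 4 : ℝ) := by
    have h := (isLittleO_log_rpow_atTop (by norm_num : (0:ℝ) < 1 / 8)).bound one_pos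
    filter_upwards [h, eventually_ge_atTop 1] with L hL h1
    rw [Real.norm_eq_abs, Real.norm_eq_abs, one_mul, abs_of_nonneg (Real.log_nonneg h1),
      abs_of_nonneg (Real.rpow_nonneg (by linarith) _)] at hL
    calc Real.log L ^ 2 ≤ (L ^ (1 / 8 : ℝ)) ^ 2 := pow_le_pow_left₀ (Real.log_nonneg h1) hL 2
      _ = L ^ (1 / 4 : ℝ) := by
          rw [← Real.rpow_natCast, ← Real.rpow_mul (by linarith)]
          norm_num
  have hlogb : ∀ᶠ L : ℝ in atTop, 48 * Real.log L * L ^ (7 * c1) ≤ L ^ b := by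
    have h := ((isLittleO_log_rpow_atTop (by linarith : 0 < b - 7 * c1)).const_mul_left 48).bound one_pos
    filter_upwards [h, eventually_ge_atTop 1] with L hL h1
    rw [Real.norm_eq_abs, Real.norm_eq_abs, one_mul, abs_of_nonneg (Real.rpow_nonneg (by linarith) _)] at hL
    calc 48 * Real.log L * L ^ (7 * c1) ≤ L ^ (b - 7 * c1) * L ^ (7 * c1) :=
          mul_le_mul_of_nonneg_right ((le_abs_self _).trans hL) (Real.rpow_nonneg (by linarith) _)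
      _ = L ^ b := by rw [← Real.rpow_add (by linarith)]; ring_nf
  filter_upwards [eventually_ge_atTop 4, Real.tendsto_log_atTop.eventually (kk_facts c1 p hc (by linarith) hp hp2),
    hlogb, ev_rpow (72 * c1) b 12 (by linarith), (tendsto_rpow_atTop (by linarith : 0 < 16 * c1)).eventually_ge_atTop 4,
    ev_rpow (14 * c1) (16 * c1) 131072 (by linarith), ev_rpow_exp (2 + 14 * c1) (36 * 4096) (1 / 4) (by norm_num),
    ev_rpow_exp (14 * c1) 4096 (1 / 2) (by norm_num), hlog14, ev_rpow (1 / 4 + 7 * c1) 1 64 (by linarith),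
    ev_rpow (14 * c1) A 2048 hA, ev_rpow (1 / 4) (1 / 2) 25 (by norm_num), ev_rpow b b' 2 hbb,
    ev_rpow (1 / 8) 1 4 (by norm_num), ev_rpow_exp (7 * c1) 16 (1 / 2) (by norm_num),
    ev_rpow (7 * c1) (1 / 2) 65 (by linarith), ev_rpow_exp K 1 (1 / 2) (by norm_num),
    ev_rpow (1 / 4) 1 4 (by norm_num), (tendsto_rpow_atTop hb0).eventually_ge_atTop 2]
    with L g1 gk g3 g4 g5 g6 g7 g8 g9 g10 g11 g12 g13 g14 g15 g16 g17 g18 g19
  obtain ⟨k1, k2, k3, k4⟩ := gk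
  have hL0 : 0 < L := by linarith
  have hL1 : 1 ≤ L := by linarith
  have hexp : ∀ a : ℝ, Real.exp (a * Real.log L) = L ^ a := fun a => by
    rw [Real.rpow_def_of_pos hL0, mul_comm]
  have hsq : Real.exp (L ^ (1 / 2 : ℝ)) ≤ Real.exp (1 / 2 * L) := by
    apply Real.exp_le_exp.2
    rw [← Real.sqrt_eq_rpow, Real.sqrt_le_left (by linarith)]
    nlinarith
  rw [Real.rpow_one] at g10 g14 g18
  have hq : Real.exp (L ^ (1 / 4 : ℝ)) ≤ Real.exp (1 / 4 * L) := Real.exp_le_exp.2 (by linarith)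
  have hq2 : Real.exp (L ^ (1 / 4 : ℝ)) ^ 2 ≤ Real.exp (1 / 2 * L) := by
    rw [← Real.exp_nat_mul]
    apply Real.exp_le_exp.2
    push_cast
    linarith
  have hhalf : Real.exp L = Real.exp (1 / 2 * L) * Real.exp (1 / 2 * L) := by
    rw [← Real.exp_add]; ring_nf
  have h14 : 0 < L ^ (14 * c1) := Real.rpow_pos_of_pos hL0 _
  refine
    { f1 := g1, f2 := k1, f3 := k2
      f4 := by rw [hexp] at k3; exact k3
      f5 := by rw [hexp] at k4; exact k4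
      f6 := ?_, f7 := g3, f8 := g4, f9 := g5, f10 := g6, f11 := ?_, f12 := ?_, f13 := g9, f14 := ?_
      f15 := by rw [Real.rpow_natCast] at g11; exact g11
      f16 := ?_, f17 := g13, f18 := ?_, f19 := ?_, f20 := g16, f21 := ?_ }
  · have := Nat.lt_floor_add_one (L ^ b)
    linarith
  · have e1 : (1 : ℝ) ≤ Real.exp (L ^ (1 / 2 : ℝ)) := Real.one_le_exp (Real.rpow_nonneg hL0.le _)
    have e2 : 2 * Real.exp (L ^ (1 / 2 : ℝ)) + 2 ≤ 4 * Real.exp (1 / 2 * L) := by linarith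
    have e3 : (1 + L * 2) ^ 2 ≤ 9 * L ^ (2 : ℝ) := by
      rw [Real.rpow_two]
      nlinarith
    calc (2 * Real.exp (L ^ (1 / 2 : ℝ)) + 2) * (1 + L * 2) ^ 2 * Real.exp (L ^ (1 / 4 : ℝ)) * (4096 * L ^ (14 * c1))
        ≤ (4 * Real.exp (1 / 2 * L)) * (9 * L ^ (2 : ℝ)) * Real.exp (1 / 4 * L) * (4096 * L ^ (14 * c1)) := by gcongr
      _ = Real.exp (1 / 2 * L) * Real.exp (1 / 4 * L) * (36 * 4096 * (L ^ (2 : ℝ) * L ^ (14 * c1))) := by ring
      _ = Real.exp (1 / 2 * L) * Real.exp (1 / 4 * L) * (36 * 4096 * L ^ (2 + 14 * c1)) := by rw [← Real.rpow_add hL0]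
      _ ≤ Real.exp (1 / 2 * L) * Real.exp (1 / 4 * L) * Real.exp (1 / 4 * L) := by gcongr
      _ = Real.exp L := by rw [← Real.exp_add, ← Real.exp_add]; ring_nf
  · rw [hhalf]
    have e1 : 2048 * L ^ (14 * c1) < Real.exp (1 / 2 * L) := by linarith
    calc Real.exp (L ^ (1 / 4 : ℝ)) ^ 2 * (2048 * L ^ (14 * c1)) ≤ Real.exp (1 / 2 * L) * (2048 * L ^ (14 * c1)) := by gcongr
      _ < _ := mul_lt_mul_of_pos_left e1 (Real.exp_pos _)
  · calc L ^ (1 / 4 : ℝ) * (64 * L ^ (7 * c1)) = 64 * L ^ (1 / 4 + 7 * c1) := by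
          rw [Real.rpow_add hL0]; ring
      _ ≤ L := g10
  · have e1 : L ^ b' ≤ L ^ (1 / 8 : ℝ) := Real.rpow_le_rpow_of_exponent_le hL1 hb8
    have e2 : 1 ≤ L ^ (1 / 8 : ℝ) := Real.one_le_rpow hL1 (by norm_num)
    have e3 : 0 < L ^ b' := Real.rpow_pos_of_pos hL0 _
    have e4 : Real.log (2 * L ^ b' + 3) ≤ 2 * L ^ b' + 3 := by
      have := Real.log_le_sub_one_of_pos (by linarith : 0 < 2 * L ^ b' + 3)
      linarith
    have e5 : L ^ (1 / 8 : ℝ) * L ^ (1 / 8 : ℝ) = L ^ (1 / 4 : ℝ) := by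
      rw [← Real.rpow_add hL0]; norm_num
    calc (2 * L ^ b' + 2) * Real.log (2 * L ^ b' + 3) ≤ (2 * L ^ b' + 3) * (2 * L ^ b' + 3) := by
          apply mul_le_mul (by linarith) e4 (Real.log_nonneg (by linarith)) (by linarith)
      _ ≤ (5 * L ^ (1 / 8 : ℝ)) * (5 * L ^ (1 / 8 : ℝ)) := by
          apply mul_le_mul <;> linarith
      _ = 25 * L ^ (1 / 4 : ℝ) := by rw [← e5]; ring
      _ ≤ _ := g12
  · have e1 : L ^ b' ≤ L ^ (1 / 8 : ℝ) := Real.rpow_le_rpow_of_exponent_le hL1 hb8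
    have e2 : 1 ≤ L ^ (1 / 8 : ℝ) := Real.one_le_rpow hL1 (by norm_num)
    linarith
  · rw [show L / 2 = 1 / 2 * L by ring]
    exact g15
  · rw [hhalf]
    rw [one_mul, Real.rpow_natCast] at g17
    gcongr

end Pool.Agent.V5helper42.FG
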