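import Pool.Agent.V5helper42.FG.K3

/-!
# Friedlander-Granville phenomenon: growing number of prime factors, the choice of the primes (helper42)
-/

set_option autoImplicit false

namespace Pool.Agent.V5helper42.FG

open Finset Filter Topology Asymptotics

lemma pi_split (m n : ℕ) (h : m ≤ n) : Nat.primeCounting n = Nat.primeCounting m + ((Ioc m n).filter Nat.Prime).card := by
  rw [Nat.primeCounting, Nat.primeCounting', Nat.count_eq_card_filter_range, Nat.primeCounting, Nat.primeCounting',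
    Nat.count_eq_card_filter_range, ← card_union_of_disjoint]
  · congr 1
    rw [← filter_union]
    congr 1
    ext a
    simp only [mem_range, mem_union, mem_Ioc]
    omega
  · rw [disjoint_left]
    intro a ha hb
    rw [mem_filter, mem_range] at ha
    rw [mem_filter, mem_Ioc] at hb
    omega

lemma dyadic : ∀ᶠ z : ℕ in atTop, (z : ℝ) / (4 * Real.log z) ≤ ((Ioc (z / 2) z).filter Nat.Prime).card ∧
    (((Ioc (z / 2) z).filter Nat.Prime).card : ℝ) ≤ 2 * z / Real.log z ∧ 128 ≤ Real.log z := by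
  have h1 := (Metric.tendsto_nhds.1 Pool.Agent.Helper601.PNT.pi_tendsto) (1 / 20) (by norm_num)
  have hn : Tendsto (fun z : ℕ => (z : ℝ)) atTop atTop := tendsto_natCast_atTop_atTop
  have hn2 : Tendsto (fun z : ℕ => (z : ℝ) / 2) atTop atTop := hn.atTop_div_const (by norm_num)
  filter_upwards [hn.eventually h1, hn2.eventually h1, (Real.tendsto_log_atTop.comp hn).eventually_ge_atTop 128,
    eventually_ge_atTop 4] with z hz hz2 hlog hz4
  simp only [Function.comp] at hlog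
  rw [Real.dist_eq, abs_lt, Nat.floor_natCast] at hz
  rw [Real.dist_eq, abs_lt] at hz2
  have hz0 : (0 : ℝ) < z := by exact_mod_cast (by omega : 0 < z)
  obtain ⟨ℓ, hℓ⟩ : ∃ ℓ : ℝ, ℓ = Real.log z := ⟨_, rfl⟩
  rw [← hℓ] at hlog hz ⊢
  have hℓ0 : 0 < ℓ := by linarith
  have hfl : ⌊(z : ℝ) / 2⌋₊ = z / 2 := by
    have := Nat.floor_div_natCast (z : ℝ) 2
    rw [Nat.floor_natCast] at this
    exact_mod_cast this
  rw [hfl] at hz2
  have hl2 : Real.log ((z : ℝ) / 2) = ℓ - Real.log 2 := by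
    rw [Real.log_div hz0.ne' (by norm_num), hℓ]
  rw [hl2] at hz2
  have hlog2 := Real.log_two_lt_d9
  have hlog2' := Real.log_two_gt_d9
  obtain ⟨π1, hπ1⟩ : ∃ π1 : ℝ, π1 = (Nat.primeCounting z : ℝ) := ⟨_, rfl⟩
  obtain ⟨π2, hπ2⟩ : ∃ π2 : ℝ, π2 = (Nat.primeCounting (z / 2) : ℝ) := ⟨_, rfl⟩
  rw [← hπ1] at hz
  rw [← hπ2] at hz2
  have hπ20 : 0 ≤ π2 := by rw [hπ2]; positivity
  have hcard : (((Ioc (z / 2) z).filter Nat.Prime).card : ℝ) = π1 - π2 := by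
    rw [hπ1, hπ2, pi_split (z / 2) z (Nat.div_le_self z 2)]
    push_cast
    ring
  rw [hcard]
  have a1 : 19 / 20 * z ≤ π1 * ℓ := by
    have : 19 / 20 ≤ π1 * ℓ / z := by linarith [hz.1]
    rwa [le_div_iff₀ hz0] at this
  have a2 : π1 * ℓ ≤ 21 / 20 * z := by
    have : π1 * ℓ / z ≤ 21 / 20 := by linarith [hz.2]
    rwa [div_le_iff₀ hz0] at this
  have a3 : π2 * (ℓ - Real.log 2) ≤ 21 / 40 * z := by
    have : π2 * (ℓ - Real.log 2) / (z / 2) ≤ 21 / 20 := by linarith [hz2.2]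
    rw [div_le_iff₀ (by positivity)] at this
    linarith
  have a4 : π2 * ℓ ≤ 3 / 5 * z := by
    have : π2 * (ℓ * (99 / 100)) ≤ π2 * (ℓ - Real.log 2) := mul_le_mul_of_nonneg_left (by linarith) hπ20
    nlinarith
  refine ⟨?_, ?_, hlog⟩
  · rw [div_le_iff₀ (by positivity)]
    nlinarith
  · rw [le_div_iff₀ hℓ0]
    nlinarith [mul_nonneg hπ20 hℓ0.le]

open Pool.Agent.N610.MS in
/-- the primes of the modulus, with a growing number of prime factors in the inclusion-exclusion -/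
theorem cntk (b b' c1 σ L : ℝ) (p A K : ℕ) (hc : 0 < c1) (hb : b = 100 * c1) (hb1 : b ≤ 1) (F : F2 b b' c1 p A K L)
    (hσ : σ = (-1) ^ p) (hp : 1 ≤ p)
    (D1 : ((⌊L ^ b⌋₊ : ℕ) : ℝ) / (4 * Real.log ⌊L ^ b⌋₊) ≤ ((Ioc (⌊L ^ b⌋₊ / 2) ⌊L ^ b⌋₊).filter Nat.Prime).card)
    (D2 : (((Ioc (⌊L ^ b⌋₊ / 2) ⌊L ^ b⌋₊).filter Nat.Prime).card : ℝ) ≤ 2 * ⌊L ^ b⌋₊ / Real.log ⌊L ^ b⌋₊)
    (D3 : 128 ≤ Real.log ⌊L ^ b⌋₊) :
    ∃ (P : Finset ℕ) (δ Y0 Yb : ℝ), (∀ p ∈ P, p.Prime) ∧ ((∏ p ∈ P, p : ℕ) : ℝ) ≤ Real.exp (L ^ b') ∧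
      0 < δ ∧ δ ≤ 1 ∧ 1 / δ ≤ L ^ (7 * c1) ∧ 1 / 2 ≤ ∏ p ∈ P, (1 - 1 / (p : ℝ)) ∧ 1 ≤ Y0 ∧ 1 / Y0 < 2 * δ ∧
      Y0 * (L ^ (16 * c1)) ^ 4 ≤ Yb ∧ Real.log Yb ≤ Real.log L ^ 2 ∧
      7 * c1 ^ 2 * (Real.log L ^ 2 / Real.log (Real.log L)) ≤ Real.log Y0 ∧
      (∀ y : ℝ, Y0 ≤ y → y ≤ Yb → 2 * δ ≤ σ * (rel P y - 1)) := by
  have hL0 : 0 < L := by linarith [F.f1]
  obtain ⟨z, hz⟩ : ∃ z : ℕ, z = ⌊L ^ b⌋₊ := ⟨_, rfl⟩
  have hf6 := F.f6
  rw [← hz] at D1 D2 D3 hf6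
  obtain ⟨m, hm⟩ : ∃ m : ℝ, m = Real.log L := ⟨_, rfl⟩
  have hf2 := F.f2
  have hf3 := F.f3
  have hf4 := F.f4
  have hf5 := F.f5
  have hf7 := F.f7
  rw [← hm] at hf2 hf3 hf4 hf5 hf7
  obtain ⟨k, hk⟩ : ∃ k : ℕ, k = kk c1 p m := ⟨_, rfl⟩
  rw [← hk] at hf2 hf3 hf4 hf5
  have hk1 : 1 ≤ k := by rw [hk]; unfold kk; omega
  have hσk : σ = (-1) ^ k := by
    rw [hσ, hk]
    unfold kk
    rw [pow_add, pow_mul]
    norm_num
  obtain ⟨P, hPd⟩ : ∃ P : Finset ℕ, P = (Ioc (z / 2) z).filter Nat.Prime := ⟨_, rfl⟩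
  rw [← hPd] at D1 D2
  have hP : ∀ p ∈ P, p.Prime := fun p hp => by rw [hPd, mem_filter] at hp; exact hp.2
  obtain ⟨n, hn⟩ : ∃ n : ℕ, n = P.card := ⟨_, rfl⟩
  rw [← hn] at D1 D2
  obtain ⟨ℓ, hℓ⟩ : ∃ ℓ : ℝ, ℓ = Real.log z := ⟨_, rfl⟩
  rw [← hℓ] at D1 D2 D3
  have hℓ0 : 0 < ℓ := by linarith
  have hLb : 0 < L ^ b := Real.rpow_pos_of_pos hL0 _
  have hz0 : (0 : ℝ) < z := by linarith
  have hzL : (z : ℝ) ≤ L ^ b := by rw [hz]; exact Nat.floor_le hLb.le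
  have hm0 : 1 ≤ m := by
    have : (0 : ℝ) ≤ k := Nat.cast_nonneg _
    linarith
  have hℓm : ℓ ≤ m := by
    have h1 : ℓ ≤ Real.log (L ^ b) := by rw [hℓ]; exact Real.log_le_log hz0 hzL
    rw [Real.log_rpow hL0, ← hm] at h1
    have : b * m ≤ 1 * m := mul_le_mul_of_nonneg_right hb1 (by linarith)
    linarith
  have hn0 : (0 : ℝ) ≤ n := Nat.cast_nonneg _
  have hnz : (n : ℝ) ≤ z / 64 := by
    refine D2.trans ?_
    rw [div_le_iff₀ hℓ0]
    nlinarith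
  have hz128 : 128 ≤ (z : ℝ) := by
    have := Real.log_le_sub_one_of_pos hz0
    rw [← hℓ] at this
    linarith
  -- sizes of the primes
  have hp1 : ∀ p ∈ P, (z : ℝ) / 2 < p ∧ (p : ℝ) ≤ z := by
    intro p hp
    rw [hPd, mem_filter, mem_Ioc] at hp
    refine ⟨?_, by exact_mod_cast hp.1.2⟩
    have h1 : z < 2 * p := by omega
    have h2 : (z : ℝ) < 2 * p := by exact_mod_cast h1
    linarith
  have hinv1 : ∀ p ∈ P, 1 / (p : ℝ) ≤ 2 / z := by
    intro p hp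
    obtain ⟨h1, _⟩ := hp1 p hp
    rw [div_le_div_iff₀ (by linarith) hz0]
    linarith
  have hinv2 : ∀ p ∈ P, 1 / (z : ℝ) ≤ 1 / p := by
    intro p hp
    obtain ⟨h1, h2⟩ := hp1 p hp
    exact one_div_le_one_div_of_le (by linarith) h2
  obtain ⟨s0, hs0⟩ : ∃ s0 : ℝ, s0 = ∑ p ∈ P, 1 / (p : ℝ) := ⟨_, rfl⟩
  have hs0a : (n : ℝ) * (1 / z) ≤ s0 := by
    rw [hs0, hn, ← nsmul_eq_mul]
    exact card_nsmul_le_sum _ _ _ hinv2
  have hs0b : s0 ≤ n * (2 / z) := by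
    rw [hs0, hn, ← nsmul_eq_mul]
    exact sum_le_card_nsmul _ _ _ hinv1
  have hs0c : 1 / (4 * m) ≤ s0 := by
    refine le_trans ?_ hs0a
    have h1 : 1 / (4 * m) ≤ 1 / (4 * ℓ) := one_div_le_one_div_of_le (by linarith) (by linarith)
    have h2 : 1 / (4 * ℓ) = z / (4 * ℓ) * (1 / z) := by field_simp
    have h3 : (z : ℝ) / (4 * ℓ) * (1 / z) ≤ n * (1 / z) := mul_le_mul_of_nonneg_right D1 (by positivity)
    linarith
  have hs0pos : 0 < s0 := lt_of_lt_of_le (by positivity) hs0c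
  have hs0d : s0 ≤ 1 / 32 := by
    refine hs0b.trans ?_
    have : (n : ℝ) * (2 / z) ≤ z / 64 * (2 / z) := mul_le_mul_of_nonneg_right hnz (by positivity)
    refine this.trans (le_of_eq ?_)
    field_simp
    norm_num
  obtain ⟨δ, hδ⟩ : ∃ δ : ℝ, δ = s0 ^ (k + 1) / (4 * (k + 1).factorial) := ⟨_, rfl⟩
  have hfac : (0 : ℝ) < (k + 1).factorial := by exact_mod_cast Nat.factorial_pos _
  have hδ0 : 0 < δ := by rw [hδ]; positivity
  have hδ1 : δ ≤ 1 := by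
    rw [hδ, div_le_one (by positivity)]
    have h1 : s0 ^ (k + 1) ≤ 1 := pow_le_one₀ hs0pos.le (by linarith)
    have h2 : (1 : ℝ) ≤ (k + 1).factorial := by exact_mod_cast Nat.succ_le_of_lt (Nat.factorial_pos _)
    linarith
  have hδL : 1 / δ ≤ L ^ (7 * c1) := by
    refine le_trans ?_ hf4
    rw [hδ, one_div_div, div_le_iff₀ (by positivity)]
    have h1 : ((k + 1).factorial : ℝ) ≤ m ^ (k + 1) := by
      have h2 : ((k + 1).factorial : ℝ) ≤ ((k + 1 : ℕ) : ℝ) ^ (k + 1) := by exact_mod_cast Nat.factorial_le_pow (k + 1)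
      refine h2.trans ?_
      apply pow_le_pow_left₀ (Nat.cast_nonneg _)
      push_cast
      exact hf3
    have h3 : 1 ≤ (4 * m) ^ (k + 1) * s0 ^ (k + 1) := by
      rw [← mul_pow]
      apply one_le_pow₀
      rw [div_le_iff₀ (by positivity)] at hs0c
      linarith
    calc 4 * ((k + 1).factorial : ℝ) ≤ 4 * m ^ (k + 1) * 1 := by linarith
      _ ≤ 4 * m ^ (k + 1) * ((4 * m) ^ (k + 1) * s0 ^ (k + 1)) := by gcongr
      _ = 4 * (4 * m ^ 2) ^ (k + 1) * s0 ^ (k + 1) := by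
          rw [mul_pow, mul_pow, ← pow_mul, mul_comm 2 (k + 1), pow_mul]
          ring
  have hL7 : 0 < L ^ (7 * c1) := Real.rpow_pos_of_pos hL0 _
  have hδz : 24 * m ≤ δ * z := by
    have h1 : 1 ≤ δ * L ^ (7 * c1) := by
      rw [div_le_iff₀ hδ0] at hδL
      linarith
    have h2 : 48 * m * L ^ (7 * c1) ≤ 2 * z := by linarith
    have h3 : 48 * m * L ^ (7 * c1) * δ ≤ 2 * z * δ := mul_le_mul_of_nonneg_right h2 hδ0.le
    have h4 : 48 * m * 1 ≤ 48 * m * (δ * L ^ (7 * c1)) := mul_le_mul_of_nonneg_left h1 (by linarith)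
    linarith
  have hQ : ((k : ℝ) + 1) * ∑ p ∈ P, (1 / (p : ℝ)) ^ 2 ≤ δ / 6 := by
    have h1 : ∑ p ∈ P, (1 / (p : ℝ)) ^ 2 ≤ (n : ℝ) * ((2 : ℝ) / (z : ℝ)) ^ 2 := by
      rw [hn, ← nsmul_eq_mul]
      apply sum_le_card_nsmul
      intro p hp
      exact pow_le_pow_left₀ (by positivity) (hinv1 p hp) 2
    have h2 : (n : ℝ) * (2 / z) ^ 2 ≤ 4 / z := by
      have : (n : ℝ) * (2 / z) ^ 2 ≤ z * (2 / z) ^ 2 := mul_le_mul_of_nonneg_right (by linarith) (by positivity)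
      refine this.trans (le_of_eq ?_)
      field_simp
      norm_num
    calc ((k : ℝ) + 1) * ∑ p ∈ P, (1 / (p : ℝ)) ^ 2 ≤ m * (4 / z) := by
          apply mul_le_mul hf3 (h1.trans h2) (sum_nonneg fun p _ => by positivity) (by linarith)
      _ ≤ δ / 6 := by
          rw [mul_div_assoc', div_le_div_iff₀ hz0 (by norm_num)]
          linarith
  obtain ⟨Ya, hYa⟩ : ∃ Ya : ℝ, Ya = ((n : ℝ) + 1) ^ k * (6 / δ) := ⟨_, rfl⟩
  obtain ⟨Yc, hYc⟩ : ∃ Yc : ℝ, Yc = ((n : ℝ) + 1) ^ (k + 1) * (6 / δ) := ⟨_, rfl⟩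
  obtain ⟨Yb, hYb⟩ : ∃ Yb : ℝ, Yb = ((z : ℝ) / 2) ^ (k + 1) := ⟨_, rfl⟩
  have h6δ : 6 ≤ 6 / δ := by rw [le_div_iff₀ hδ0]; linarith
  have hYa1 : ((n : ℝ) + 1) ^ k * 6 ≤ Ya := by rw [hYa]; gcongr
  have hpow1 : (1 : ℝ) ≤ ((n : ℝ) + 1) ^ k := one_le_pow₀ (by linarith)
  have hYa0 : 6 ≤ Ya := by linarith
  have hYaδ : 6 / δ ≤ Ya := by
    rw [hYa]
    exact le_mul_of_one_le_left (by positivity) hpow1
  obtain ⟨r1, r2, _, _⟩ := CNTaux.core t_BON (t_LEG t_BON) P hP k hk1 σ s0 1 (δ / 6) δ Ya Yb Yc hσk hs0pos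
    (by linarith) one_pos (by linarith) hδ (by
      rw [← hs0]
      have : (0 : ℝ) ≤ 1 / (8 * ((k : ℝ) + 2)) := by positivity
      nlinarith) (by
      rw [← hs0]
      have : (0 : ℝ) ≤ 1 / (8 * ((k : ℝ) + 2)) := by positivity
      nlinarith) hQ (by positivity) le_rfl (by linarith) (by linarith)
    (by rw [← hn, hYa]; apply le_of_eq; field_simp)
    (by
      rw [hYa, hYc, pow_succ]
      apply mul_le_mul_of_nonneg_right _ (by positivity)
      exact le_mul_of_one_le_right (by positivity) (by linarith))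
    (by rw [← hn, hYc]; apply le_of_eq; field_simp)
    (by
      intro T hT
      rw [mem_powersetCard] at hT
      rw [hYb, ← hT.2, ← prod_const]
      apply prod_lt_prod_of_nonempty
      · intro i _; positivity
      · intro i hi; exact (hp1 i (hT.1 hi)).1
      · rw [← card_pos, hT.2]; omega)
  refine ⟨P, δ, Ya, Yb, hP, ?_, hδ0, hδ1, hδL, r1, by linarith, ?_, ?_, ?_, ?_, r2⟩
  · have h1 : ∏ p ∈ P, p ≤ 4 ^ z := by
      refine le_trans ?_ (primorial_le_four_pow z)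
      unfold primorial
      apply prod_le_prod_of_subset_of_one_le'
      · intro p hp
        rw [hPd, mem_filter, mem_Ioc] at hp
        rw [mem_filter, mem_range]
        exact ⟨by omega, hp.2⟩
      · intro i hi _
        rw [mem_filter] at hi
        exact hi.2.one_le
    have h2 : ((∏ p ∈ P, p : ℕ) : ℝ) ≤ 4 ^ z := by exact_mod_cast h1
    refine h2.trans ?_
    have h3 : (4 : ℝ) ^ z ≤ Real.exp (2 * z) := by
      have h4 : (4 : ℝ) ≤ Real.exp 2 := by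
        have h5 := Real.add_one_le_exp (1 : ℝ)
        have h6 : Real.exp 2 = Real.exp 1 * Real.exp 1 := by rw [← Real.exp_add]; norm_num
        rw [h6]
        nlinarith
      calc (4 : ℝ) ^ z ≤ Real.exp 2 ^ z := pow_le_pow_left₀ (by norm_num) h4 z
        _ = Real.exp (2 * z) := by rw [← Real.exp_nat_mul, mul_comm]
    refine h3.trans (Real.exp_le_exp.2 ?_)
    linarith [F.f17]
  · have h1 : 1 / Ya ≤ δ / 6 := by
      rw [div_le_iff₀ (by linarith)]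
      have : δ / 6 * (6 / δ) ≤ δ / 6 * Ya := mul_le_mul_of_nonneg_left hYaδ (by positivity)
      have h2 : δ / 6 * (6 / δ) = 1 := by field_simp
      linarith
    linarith
  · -- the range
    have e1 : (L ^ (16 * c1)) ^ 4 = L ^ (64 * c1) := by
      rw [← Real.rpow_natCast, ← Real.rpow_mul hL0.le]
      congr 1
      push_cast
      ring
    have e2 : 6 / δ ≤ 6 * L ^ (7 * c1) := by
      have : 6 / δ = 6 * (1 / δ) := by ring
      rw [this]
      linarith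
    have e3 : ((n : ℝ) + 1) ^ k ≤ (z : ℝ) ^ k := pow_le_pow_left₀ (by linarith) (by linarith) k
    have e4 : (2 : ℝ) ^ (k + 1) ≤ L ^ c1 := by
      refine le_trans ?_ hf5
      exact pow_le_pow_left₀ (by norm_num) (by norm_num) _
    have e5 : 6 * (2 : ℝ) ^ (k + 1) * L ^ (71 * c1) ≤ z := by
      have h1 : L ^ (72 * c1) = L ^ c1 * L ^ (71 * c1) := by
        rw [← Real.rpow_add hL0]
        congr 1
        ring
      have h2 : 6 * (2 : ℝ) ^ (k + 1) * L ^ (71 * c1) ≤ 6 * L ^ c1 * L ^ (71 * c1) := by gcongr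
      have h3 := F.f8
      rw [h1] at h3
      linarith
    rw [e1, hYa, hYb, div_pow]
    rw [le_div_iff₀ (by positivity)]
    have e6 : L ^ (7 * c1) * L ^ (64 * c1) = L ^ (71 * c1) := by
      rw [← Real.rpow_add hL0]
      congr 1
      ring
    calc ((n : ℝ) + 1) ^ k * (6 / δ) * L ^ (64 * c1) * 2 ^ (k + 1) ≤
        (z : ℝ) ^ k * (6 * L ^ (7 * c1)) * L ^ (64 * c1) * 2 ^ (k + 1) := by gcongr
      _ = (z : ℝ) ^ k * (6 * 2 ^ (k + 1) * (L ^ (7 * c1) * L ^ (64 * c1))) := by ring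
      _ ≤ (z : ℝ) ^ k * z := by rw [e6]; gcongr
      _ = (z : ℝ) ^ (k + 1) := by rw [pow_succ]
  · rw [hYb, Real.log_pow, ← hm]
    have h1 : Real.log ((z : ℝ) / 2) ≤ ℓ := by
      rw [hℓ]
      apply Real.log_le_log (by positivity)
      linarith
    have h2 : 0 ≤ Real.log ((z : ℝ) / 2) := Real.log_nonneg (by linarith)
    push_cast
    calc ((k : ℝ) + 1) * Real.log ((z : ℝ) / 2) ≤ m * m := by
          apply mul_le_mul hf3 (by linarith) h2 (by linarith)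
      _ = m ^ 2 := by ring
  · rw [← hm]
    have h1 : (L ^ (7 * c1)) ^ k ≤ Ya := by
      refine le_trans ?_ hYa1
      have h2 : L ^ (7 * c1) ≤ (n : ℝ) + 1 := by
        have h3 : (z : ℝ) / (4 * m) ≤ n := by
          refine le_trans ?_ D1
          apply div_le_div_of_nonneg_left hz0.le (by positivity)
          linarith
        rw [div_le_iff₀ (by linarith)] at h3
        have h4 : 48 * m * L ^ (7 * c1) ≤ 2 * (n * (4 * m)) := by linarith
        have h5 : m * (6 * L ^ (7 * c1)) ≤ m * n := by linarith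
        have h6 := le_of_mul_le_mul_left h5 (by linarith)
        linarith
      have h3 : (L ^ (7 * c1)) ^ k ≤ ((n : ℝ) + 1) ^ k := pow_le_pow_left₀ hL7.le h2 k
      linarith
    have h2 := Real.log_le_log (by positivity) h1
    rw [Real.log_pow, Real.log_rpow hL0, ← hm] at h2
    refine le_trans ?_ h2
    have h3 : c1 * (m / Real.log m) * (7 * c1 * m) ≤ k * (7 * c1 * m) :=
      mul_le_mul_of_nonneg_right hf2 (by positivity)
    refine le_trans (le_of_eq ?_) h3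
    ring

end Pool.Agent.V5helper42.FG
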