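import Pool.Agent.V5helper42.FG.K4

/-!
# Friedlander-Granville phenomenon: growing number of prime factors, final assembly (helper42)
-/

set_option autoImplicit false

namespace Pool.Agent.V5helper42.FG

open Finset Filter Topology Asymptotics

lemma n_E32 (δ T x R LA G : ℝ) (hδ : 0 < δ) (hT : 0 < T) (hx : 0 < x) (hR0 : 0 ≤ R) (hR : R ≤ T)
    (hLA : 0 < LA) (hG : x * (δ / 32) ≤ G) (hxT : T ^ 2 * (2048 / δ ^ 2) ≤ x) (f6 : 2048 / δ ^ 2 ≤ LA) :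
    R * R + 2 * (x / LA) ≤ G * (δ / 8) := by
  have h1 : R * R ≤ T ^ 2 := by
    rw [sq]
    exact mul_le_mul hR hR hR0 hT.le
  have h3 : T ^ 2 ≤ x * (δ ^ 2 / 2048) := by
    rw [← le_div_iff₀ (by positivity)] at hxT
    refine hxT.trans (le_of_eq ?_)
    field_simp
  have h4 : x / LA ≤ x * (δ ^ 2 / 2048) := by
    rw [div_le_iff₀ hLA]
    have h5 : x * (δ ^ 2 / 2048) * (2048 / δ ^ 2) ≤ x * (δ ^ 2 / 2048) * LA := mul_le_mul_of_nonneg_left f6 (by positivity)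
    have h6 : x * (δ ^ 2 / 2048) * (2048 / δ ^ 2) = x := by field_simp
    linarith
  have h5 : x * (δ / 32) * (δ / 8) ≤ G * (δ / 8) := mul_le_mul_of_nonneg_right hG (by positivity)
  have h6 : x * (δ / 32) * (δ / 8) = 8 * (x * (δ ^ 2 / 2048)) := by ring
  have h7 : 0 ≤ x * (δ ^ 2 / 2048) := by positivity
  linarith

open Pool.Agent.N610.MS in
lemma n_Blk2 (P : Finset ℕ) (hP : ∀ p ∈ P, p.Prime) (x l c u N D R A : ℕ) (hl : l.Prime)
    (hc : c = (∏ p ∈ P, p) * l) (δ b L T s ρ ρ' E0 E : ℝ) (hL : L = Real.log x)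
    (hδ : 0 < δ) (hδ1 : δ ≤ 1) (hx0 : 0 < x)
    (h1 : 2 ≤ L) (h2 : 4 ≤ s) (h3 : 2 * (256 / δ) ^ 2 ≤ s)
    (h4 : (2 * Real.exp (L ^ (1 / 2 : ℝ)) + 2) * (1 + L * 2) ^ 2 * T * (4096 / δ ^ 2) ≤ Real.exp L)
    (h5 : T ^ 2 * (2048 / δ ^ 2) < Real.exp L)
    (h6 : 2048 / δ ^ 2 ≤ L ^ A)
    (h7 : Real.log T ≤ δ / 64 * L)
    (h8 : (2 * L ^ b + 2) * Real.log (2 * L ^ b + 3) ≤ L ^ (1 / 2 : ℝ))
    (h9 : L ^ b < L / 2)
    (h10 : 16 / δ ≤ Real.exp (L / 2))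
    (hsT : s ≤ T)
    (hW : ((∏ p ∈ P, p : ℕ) : ℝ) ≤ Real.exp (L ^ b))
    (hWne : (∏ p ∈ P, p) ≠ 1)
    (hρ' : ρ' = ∏ p ∈ P, (1 - 1 / (p : ℝ))) (hρ2 : 1 / 2 ≤ ρ')
    (hρ : ρ = ρ' * (1 - 1 / (l : ℝ)))
    (hlx : Real.exp (L / 2) ≤ l)
    (hcT : (c : ℝ) ≤ x / T) (hu1 : (x : ℝ) / T ≤ u) (hux : u ≤ x)
    (hD : D = ⌊s⌋₊) (hN : N = ⌊δ / 16 * (u : ℝ)⌋₊)
    (hE0 : E0 = (((insert l P).card : ℝ) + 1) ^ (insert l P).card)
    (hR : R = x / u) (hE : E = 2 * ((x : ℝ) / L ^ A))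
    (hpi : |(Nat.primeCounting x : ℝ) * L / x - 1| < δ / 64)
    (hBV : ∀ r h : ℕ → ℕ, (∀ m ∈ Icc 1 R, Nat.Coprime (r m) m) → (∀ m, h m ≤ x) →
      ∑ m ∈ Icc 1 R, |∑ p ∈ (Icc 1 (h m)).filter (fun p => p.Prime ∧ p ≡ r m [MOD m]), Real.log p -
        (h m : ℝ) / Nat.totient m| ≤ x / L ^ A) :
    Blk2 x c u N D R δ ρ ρ' E0 E ∧ (x : ℝ) / u ≤ T ∧ T < l ∧ (x : ℝ) / 2 ≤ ((x - c : ℕ) : ℝ) ∧
      x * (δ / 32) ≤ (x : ℝ) * N / u := by
  have hxR : (0 : ℝ) < x := by exact_mod_cast hx0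
  have hxe : (x : ℝ) = Real.exp L := by rw [hL, Real.exp_log hxR]
  have hL0 : 0 < L := by linarith only [h1]
  have hs0 : 0 < s := by linarith only [h2]
  have hT0 : 0 < T := by linarith only [hs0, hsT]
  have hT1 : 1 ≤ T := by linarith only [h2, hsT]
  have hxT : T ^ 2 * (2048 / δ ^ 2) ≤ x := by rw [hxe]; exact h5.le
  obtain ⟨hNu2, huR⟩ := n_N δ T x u hδ hδ1 hT1 hxR hu1 hxT
  rw [← hN] at hNu2
  have hu0 : 0 < u := by exact_mod_cast huR
  have hxu : (x : ℝ) / u ≤ T := by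
    rw [div_le_iff₀ huR]
    rw [div_le_iff₀ hT0] at hu1
    linarith only [hu1]
  have hδ2 : δ ^ 2 ≤ 1 := pow_le_one₀ hδ.le hδ1
  have hδ2' : 0 < δ ^ 2 := by positivity
  have h2048 : 2048 ≤ 2048 / δ ^ 2 := by
    rw [le_div_iff₀ hδ2']
    linarith only [hδ2]
  have hxT2 : T ^ 2 * 2048 ≤ x := le_trans (mul_le_mul_of_nonneg_left h2048 (by positivity)) hxT
  have hW0 : 0 < ∏ p ∈ P, p := prod_pos fun p hp => (hP p hp).pos
  have hl2 : 2 ≤ l := hl.two_le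
  have hc0 : 0 < c := by rw [hc]; exact Nat.mul_pos hW0 (by omega)
  have hcp : ¬ c.Prime := by
    rw [hc]
    exact Nat.not_prime_mul hWne (by omega)
  have hcu : c ≤ u := by
    have h : (c : ℝ) ≤ u := hcT.trans hu1
    exact_mod_cast h
  have h16 : 16 / δ ≤ s := by
    have e1 : 16 / δ ≤ 256 / δ := by gcongr; norm_num
    have e2 : 1 ≤ 256 / δ := by rw [le_div_iff₀ hδ]; linarith only [hδ1]
    nlinarith only [h3, e1, e2]
  have hcx : (c : ℝ) ≤ δ / 16 * x := by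
    refine hcT.trans ?_
    rw [div_le_iff₀ hT0]
    have e1 : 1 ≤ δ / 16 * T := by
      rw [div_le_iff₀ hδ] at h16
      nlinarith only [h16, hsT, hδ]
    nlinarith only [e1, hxR]
  have hD1' : s / 2 ≤ D := by
    have := Nat.lt_floor_add_one s
    rw [← hD] at this
    linarith only [this, h2]
  have hDs : (D : ℝ) ≤ s := by rw [hD]; exact Nat.floor_le hs0.le
  have hD1 : 1 ≤ D := by
    have : (0 : ℝ) < D := by linarith only [hD1', hs0]
    exact_mod_cast this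
  have hDu : D ≤ u := by
    have e1 : (D : ℝ) ≤ u := by
      have e2 : T ≤ x / T := by
        rw [le_div_iff₀ hT0]
        nlinarith only [hxT2, hT0]
      linarith only [e2, hDs, hsT, hu1]
    exact_mod_cast e1
  have hDsq : 4 / Real.sqrt D ≤ δ / 64 := by
    have e1 : 256 / δ ≤ Real.sqrt D := by
      apply Real.le_sqrt_of_sq_le
      linarith only [hD1', h3]
    have e2 : 0 < 256 / δ := by positivity
    rw [div_le_iff₀ (lt_of_lt_of_le e2 e1)]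
    have e3 : δ / 64 * (256 / δ) ≤ δ / 64 * Real.sqrt D := mul_le_mul_of_nonneg_left e1 (by positivity)
    have e4 : δ / 64 * (256 / δ) = 4 := by field_simp; norm_num
    linarith only [e3, e4]
  have hNu : (N : ℝ) ≤ δ / 16 * u := by rw [hN]; exact Nat.floor_le (by positivity)
  have hNN : δ / 32 ≤ (N : ℝ) / u := by
    rw [le_div_iff₀ huR]
    exact hNu2
  have hxN : x * (δ / 32) ≤ (x : ℝ) * N / u := by
    rw [mul_div_assoc]
    exact mul_le_mul_of_nonneg_left hNN hxR.le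
  have hρ'0 : 0 < ρ' := by linarith only [hρ2]
  have hlR : (2 : ℝ) ≤ l := by exact_mod_cast hl2
  have hl1 : 1 / (l : ℝ) ≤ δ / 16 := by
    have e1 : 16 / δ ≤ l := h10.trans hlx
    rw [div_le_iff₀ (by linarith only [hlR])]
    rw [div_le_iff₀ hδ] at e1
    linarith only [e1]
  have hl0 : 0 ≤ 1 / (l : ℝ) := by positivity
  have hl1' : 1 / (l : ℝ) ≤ 1 := by
    rw [div_le_one (by linarith only [hlR])]
    linarith only [hlR]
  have hρ'1 : ρ' ≤ 1 := by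
    rw [hρ']
    apply prod_le_one
    · intro p hp
      have : (1 : ℝ) ≤ p := by exact_mod_cast (hP p hp).one_le
      rw [sub_nonneg, div_le_one (by linarith only [this])]
      exact this
    · intro p hp
      have : (0 : ℝ) ≤ 1 / (p : ℝ) := by positivity
      linarith only [this]
  have hlP : l ∉ P := by
    intro h
    have e1 : l ≤ ∏ p ∈ P, p := Nat.le_of_dvd hW0 (dvd_prod_of_mem _ h)
    have e2 : (l : ℝ) ≤ ((∏ p ∈ P, p : ℕ) : ℝ) := by exact_mod_cast e1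
    have e3 : Real.exp (L ^ b) < Real.exp (L / 2) := Real.exp_lt_exp.2 h9
    linarith only [e2, e3, hW, hlx]
  have hP' : ∀ p ∈ insert l P, p.Prime := by
    intro p hp
    rcases mem_insert.1 hp with rfl | h
    · exact hl
    · exact hP p h
  have hprod : ∏ p ∈ insert l P, p = c := by
    rw [prod_insert hlP, hc, mul_comm]
  have hprod2 : ∏ p ∈ insert l P, (1 - 1 / (p : ℝ)) = ρ := by
    rw [prod_insert hlP, hρ, hρ', mul_comm]
  have hV : ∀ z : ℕ, |(vc c z : ℝ) - ρ * z| ≤ E0 := by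
    intro z
    have := legendre (insert l P) hP' z
    rw [hprod, hprod2, ← hE0] at this
    exact this
  have hE00 : 0 ≤ E0 := by
    rw [hE0]
    exact pow_nonneg (add_nonneg (Nat.cast_nonneg _) zero_le_one) _
  have hLb : 0 ≤ L ^ b := Real.rpow_nonneg hL0.le _
  have hE0b : E0 ≤ Real.exp (L ^ (1 / 2 : ℝ)) := by
    have e1 : (P.card : ℝ) ≤ 2 * L ^ b := card_P P hP _ hW
    have e2 : (((insert l P).card : ℕ) : ℝ) ≤ (2 * L ^ b + 1) + 1 := by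
      rw [card_insert_of_notMem hlP]
      push_cast
      linarith only [e1]
    have e3 := n_pow (insert l P).card (2 * L ^ b + 1) (by linarith only [hLb]) e2
    rw [← hE0] at e3
    refine e3.trans (Real.exp_le_exp.2 (le_trans (le_of_eq ?_) h8))
    ring_nf
  have hE1 : (2 * E0 + 2) * (1 + Real.log x * 2) ^ 2 ≤ N * (δ / 64) := by
    rw [← hL]
    refine n_E1 δ T x u N (Real.exp (L ^ (1 / 2 : ℝ))) E0 L hδ hT0 hL0.le huR hu1 hNu2 hE0b ?_
    rw [hxe]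
    exact h4
  have hRT : (R : ℝ) ≤ T := by
    rw [hR]
    exact Nat.cast_div_le.trans hxu
  have hxR1 : x < c + u * (R + 1) := by
    have := Nat.lt_mul_div_succ x hu0
    rw [← hR] at this
    omega
  have hLA : 0 < L ^ A := by positivity
  have hE2 : 0 ≤ E := by rw [hE]; positivity
  have hE3 : (R : ℝ) * R + E ≤ (x : ℝ) * N / u * (δ / 8) := by
    rw [hE]
    exact n_E32 δ T x R (L ^ A) _ hδ hT0 hxR (Nat.cast_nonneg _) hRT hLA hxN hxT h6
  have hE4 := rows_bv x c u (u + N) R (x / L ^ A) (by omega) hBV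
  rw [← hE] at hE4
  have hlogu : L - δ / 64 * L ≤ Real.log u := by
    have e1 : Real.log (x / T) ≤ Real.log u := Real.log_le_log (by positivity) hu1
    rw [Real.log_div hxR.ne' hT0.ne', ← hL] at e1
    linarith only [e1, h7]
  obtain ⟨hpi1, hpi2⟩ := n_pi δ L (Real.log u) (Nat.primeCounting x) x hδ hδ1 hxR (Nat.cast_nonneg _) hpi hlogu
  have hTl : T < l := by
    refine lt_of_lt_of_le ?_ hlx
    have e7 : T ^ 2 < Real.exp L := by
      rw [← hxe]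
      nlinarith only [hxT2, hT0]
    have e8 : Real.exp L = Real.exp (L / 2) ^ 2 := by
      rw [← Real.exp_nat_mul]
      congr 1
      push_cast
      ring
    rw [e8] at e7
    exact lt_of_pow_lt_pow_left₀ 2 (Real.exp_pos _).le e7
  have hcx2 : (x : ℝ) / 2 ≤ ((x - c : ℕ) : ℝ) := by
    rw [Nat.cast_sub (hcu.trans hux)]
    have : δ / 16 * (x : ℝ) ≤ 1 / 2 * x := by
      apply mul_le_mul_of_nonneg_right _ hxR.le
      linarith only [hδ1]
    linarith only [this, hcx]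
  refine ⟨?_, hxu, hTl, hcx2, hxN⟩
  exact {
      hδ0 := hδ, hδ1 := hδ1, hc0 := hc0, hc := hcp, hcu := hcu, hcx := hcx, hux := hux, hN := hNu, hx := hxR1
      hD := hD1, hDu := hDu, hDs := hDsq
      hρ0 := by rw [hρ]; exact mul_nonneg hρ'0.le (by linarith only [hl1'])
      hρ := by rw [hρ]; exact mul_le_of_le_one_right hρ'0.le (by linarith only [hl0])
      hρ1 := hρ'1
      hρ2 := hρ2
      hρ3 := by rw [hρ]; exact mul_le_mul_of_nonneg_left (by linarith only [hl1]) hρ'0.le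
      hE0 := hE00, hV := hV, hE1 := hE1, hE2 := hE2, hE3 := hE3, hE4 := hE4
      hu1 := by nlinarith only [hlogu, h1, hδ1, hδ]
      hpi1 := by rw [← hL]; exact hpi1
      hpi2 := hpi2
      hlx := by rw [← hL]; linarith only [h1] }


open Pool.Agent.N610.MS in
theorem core2 (b b' c1 : ℝ) (hc : 0 < c1) (hb : b = 100 * c1) (hbb : b < b') (hb8 : b' ≤ 1 / 8) (σ : ℝ) (hσ : σ = 1 ∨ σ = -1) :
    ∀ᶠ x : ℕ in atTop, ∃ (W u N : ℕ) (T : ℝ), 0 < W ∧ (W : ℝ) ≤ Real.exp (Real.log x ^ b') ∧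
      1 ≤ T ∧ Real.log T ≤ Real.log (Real.log x) ^ 2 ∧ (x : ℝ) / T ≤ u ∧
      ((u + N : ℕ) : ℝ) ≤ x * Real.exp (-(7 * c1 ^ 2 * (Real.log (Real.log x) ^ 2 / Real.log (Real.log (Real.log x))))) ∧
      ∀ l : ℕ, l.Prime → Real.exp (Real.log x / 2) ≤ l → ((W * l : ℕ) : ℝ) ≤ x / T →
        x / Real.log x ^ (1 + 16 * c1) ≤ σ * dev x (W * l) u (u + N) := by
  obtain ⟨p, hp1, hp2, hσp⟩ : ∃ p : ℕ, 1 ≤ p ∧ p ≤ 2 ∧ σ = (-1) ^ p := by
    rcases hσ with h | h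
    · exact ⟨2, by norm_num, le_rfl, by rw [h]; norm_num⟩
    · exact ⟨1, le_rfl, by norm_num, by rw [h]; norm_num⟩
  obtain ⟨A, hA⟩ := exists_nat_gt (14 * c1)
  obtain ⟨K, X0, hBVH⟩ := Pool.Agent.N403.QL.t_BVH A
  have hlogN : Tendsto (fun x : ℕ => Real.log (x : ℝ)) atTop atTop :=
    Real.tendsto_log_atTop.comp tendsto_natCast_atTop_atTop
  have hb0 : 0 < b := by rw [hb]; positivity
  have hz : Tendsto (fun x : ℕ => ⌊Real.log (x : ℝ) ^ b⌋₊) atTop atTop :=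
    tendsto_nat_floor_atTop.comp ((tendsto_rpow_atTop hb0).comp hlogN)
  filter_upwards [hlogN.eventually (f2_ev b b' c1 p A K hc hb hbb hb8 hA hp1 hp2), hz.eventually dyadic, pnt_rate,
    eventually_ge_atTop X0, eventually_gt_atTop 1] with x F Dz hpi hxX0 hx1
  obtain ⟨D1, D2, D3⟩ := Dz
  obtain ⟨P, δ, Y0, Yb, hP, hW, hδ, hδ1, hδL, hρ2, hY01, hY0δ, hYb, hYbl, hY0l, hrel⟩ :=
    cntk b b' c1 σ (Real.log x) p A K hc hb (by linarith) F hσp hp1 D1 D2 D3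
  have hBV := hBVH x hxX0
  obtain ⟨L, hL⟩ : ∃ L : ℝ, L = Real.log x := ⟨_, rfl⟩
  rw [← hL] at F hW hδL hYb hYbl hY0l hpi hBV ⊢
  have hL0 : 0 < L := by linarith only [F.f1]
  have hL1 : 1 ≤ L := by linarith only [F.f1]
  have hx0 : 0 < x := by omega
  have hxR : (0 : ℝ) < x := by exact_mod_cast hx0
  have hxe : (x : ℝ) = Real.exp L := by rw [hL, Real.exp_log hxR]
  obtain ⟨s, hs⟩ : ∃ s : ℝ, s = L ^ (16 * c1) := ⟨_, rfl⟩
  have hs4 : 4 ≤ s := by rw [hs]; exact F.f9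
  have hs0 : 0 < s := by linarith only [hs4]
  have hs1 : 1 ≤ s := by linarith only [hs4]
  rw [← hs] at hYb
  obtain ⟨T, hT⟩ : ∃ T : ℝ, T = Y0 * s ^ 4 := ⟨_, rfl⟩
  rw [← hT] at hYb
  have hss4 : s ≤ s ^ 4 := by
    calc s = s ^ 1 := (pow_one s).symm
      _ ≤ s ^ 4 := pow_le_pow_right₀ hs1 (by norm_num)
  have hsT : s ≤ T := by
    rw [hT]
    nlinarith only [hss4, hY01, pow_pos hs0 4]
  have hT1 : 1 ≤ T := by linarith only [hs1, hsT]
  have hT0 : 0 < T := by linarith only [hT1]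
  have hTl : Real.log T ≤ Real.log L ^ 2 := (Real.log_le_log hT0 hYb).trans hYbl
  have hTe : T ≤ Real.exp (L ^ (1 / 4 : ℝ)) := by
    rw [← Real.exp_log hT0]
    exact Real.exp_le_exp.2 (hTl.trans F.f13)
  -- powers of `1 / δ`
  have hL7 : 0 < L ^ (7 * c1) := Real.rpow_pos_of_pos hL0 _
  have hδ2 : 1 / δ ^ 2 ≤ L ^ (14 * c1) := by
    have h1 : (1 / δ) ^ 2 ≤ (L ^ (7 * c1)) ^ 2 := pow_le_pow_left₀ (by positivity) hδL 2
    rw [← Real.rpow_natCast (L ^ (7 * c1)) 2, ← Real.rpow_mul hL0.le] at h1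
    rw [div_pow, one_pow] at h1
    refine h1.trans (le_of_eq ?_)
    congr 1
    push_cast
    ring
  have hcδ : ∀ C : ℝ, 0 ≤ C → C / δ ^ 2 ≤ C * L ^ (14 * c1) := by
    intro C hC
    rw [div_eq_mul_one_div]
    exact mul_le_mul_of_nonneg_left hδ2 hC
  have h3 : 2 * (256 / δ) ^ 2 ≤ s := by
    have h1 : 2 * (256 / δ) ^ 2 = 131072 / δ ^ 2 := by field_simp; norm_num
    rw [h1, hs]
    exact (hcδ _ (by norm_num)).trans F.f10
  have hE4 : 0 ≤ L ^ (14 * c1) := (Real.rpow_pos_of_pos hL0 _).le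
  have h4 : (2 * Real.exp (L ^ (1 / 2 : ℝ)) + 2) * (1 + L * 2) ^ 2 * T * (4096 / δ ^ 2) ≤ Real.exp L := by
    refine le_trans ?_ F.f11
    have := hcδ 4096 (by norm_num)
    gcongr
  have h5 : T ^ 2 * (2048 / δ ^ 2) < Real.exp L := by
    refine lt_of_le_of_lt ?_ F.f12
    have := hcδ 2048 (by norm_num)
    gcongr
  have h6 : 2048 / δ ^ 2 ≤ L ^ A := (hcδ 2048 (by norm_num)).trans F.f15
  have hδ7 : 1 ≤ δ * L ^ (7 * c1) := by
    rw [div_le_iff₀ hδ] at hδL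
    linarith only [hδL]
  have h7 : Real.log T ≤ δ / 64 * L := by
    refine (hTl.trans F.f13).trans ?_
    have h1 : L ^ (1 / 4 : ℝ) * (64 * L ^ (7 * c1)) * δ ≤ L * δ := mul_le_mul_of_nonneg_right F.f14 hδ.le
    have h2 : 0 ≤ L ^ (1 / 4 : ℝ) := Real.rpow_nonneg hL0.le _
    have h3 : L ^ (1 / 4 : ℝ) * 64 * 1 ≤ L ^ (1 / 4 : ℝ) * 64 * (δ * L ^ (7 * c1)) :=
      mul_le_mul_of_nonneg_left hδ7 (by positivity)
    nlinarith only [h1, h3]
  have h10 : 16 / δ ≤ Real.exp (L / 2) := by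
    refine le_trans ?_ F.f19
    rw [div_eq_mul_one_div]
    exact mul_le_mul_of_nonneg_left hδL (by norm_num)
  have hWne := n_ne P hP Y0 σ δ hσ (by linarith only [hY01]) hY0δ (hrel Y0 le_rfl (le_trans (by
    rw [hT]
    have : (1 : ℝ) ≤ s ^ 4 := one_le_pow₀ hs1
    nlinarith only [this, hY01]) hYb))
  have hpi' : |(Nat.primeCounting x : ℝ) * L / x - 1| < δ / 64 := by
    refine lt_of_le_of_lt hpi ?_
    have h1 : L ^ (-(1 / 2 : ℝ)) * L ^ (1 / 2 : ℝ) = 1 := by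
      rw [← Real.rpow_add hL0]
      norm_num
    have h2 : 0 < L ^ (-(1 / 2 : ℝ)) := Real.rpow_pos_of_pos hL0 _
    have h3 := mul_le_mul_of_nonneg_left F.f20 h2.le
    rw [h1] at h3
    have h4 : L ^ (-(1 / 2 : ℝ)) * 65 * 1 ≤ L ^ (-(1 / 2 : ℝ)) * 65 * (δ * L ^ (7 * c1)) :=
      mul_le_mul_of_nonneg_left hδ7 (by positivity)
    have h5 : L ^ (-(1 / 2 : ℝ)) * (65 * L ^ (7 * c1)) * δ ≤ 1 * δ := mul_le_mul_of_nonneg_right h3 hδ.le
    have h6 : L ^ (-(1 / 2 : ℝ)) * 65 ≤ δ := by nlinarith only [h4, h5]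
    linarith only [h6, h2]
  -- `u`
  obtain ⟨u, hu⟩ : ∃ u : ℕ, u = ⌈(x : ℝ) / T⌉₊ := ⟨_, rfl⟩
  have hu1 : (x : ℝ) / T ≤ u := by rw [hu]; exact Nat.le_ceil _
  have hxT1 : 1 ≤ (x : ℝ) / T := by
    rw [le_div_iff₀ hT0, one_mul, hxe]
    refine hTe.trans (Real.exp_le_exp.2 ?_)
    calc L ^ (1 / 4 : ℝ) ≤ L ^ (1 : ℝ) := Real.rpow_le_rpow_of_exponent_le hL1 (by norm_num)
      _ = L := Real.rpow_one L
  have hu2 : (u : ℝ) ≤ 2 * (x / T) := by
    have := Nat.ceil_lt_add_one (by positivity : 0 ≤ (x : ℝ) / T)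
    rw [← hu] at this
    linarith only [this, hxT1]
  have hY00 : 0 < Y0 := by linarith only [hY01]
  have hs22 : 16 ≤ s ^ 2 := by nlinarith only [hs4]
  have hu2' : (u : ℝ) * (Y0 * s ^ 2) ≤ x := by
    have h1 : (x : ℝ) / T * (Y0 * s ^ 2) = x / s ^ 2 := by
      rw [hT]
      field_simp
    have h2 : (u : ℝ) * (Y0 * s ^ 2) ≤ 2 * (x / T) * (Y0 * s ^ 2) := mul_le_mul_of_nonneg_right hu2 (by positivity)
    have h3 : (x : ℝ) / s ^ 2 ≤ x / 16 := div_le_div_of_nonneg_left hxR.le (by norm_num) hs22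
    linarith only [h1, h2, h3, hxR]
  have hux : u ≤ x := by
    have h1 : (u : ℝ) * 1 ≤ u * (Y0 * s ^ 2) := by
      apply mul_le_mul_of_nonneg_left _ (Nat.cast_nonneg _)
      nlinarith only [hs22, hY01]
    have h2 : (u : ℝ) ≤ x := by linarith only [h1, hu2']
    exact_mod_cast h2
  obtain ⟨N, hN⟩ : ∃ N : ℕ, N = ⌊δ / 16 * (u : ℝ)⌋₊ := ⟨_, rfl⟩
  have hNu : (N : ℝ) ≤ δ / 16 * u := by rw [hN]; exact Nat.floor_le (by positivity)
  have hW0 : 0 < ∏ p ∈ P, p := prod_pos fun p hp => (hP p hp).pos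
  refine ⟨∏ p ∈ P, p, u, N, T, hW0, hW, hT1, hTl, hu1, ?_, fun l hl hlx hcT => ?_⟩
  · -- the size of the moduli
    have h1 : ((u + N : ℕ) : ℝ) ≤ 2 * u := by
      push_cast
      have : δ / 16 * (u : ℝ) ≤ 1 * u := mul_le_mul_of_nonneg_right (by linarith only [hδ1]) (Nat.cast_nonneg _)
      linarith only [this, hNu]
    have h2 : 2 * (u : ℝ) ≤ x / Y0 := by
      rw [le_div_iff₀ hY00]
      have h3 : (u : ℝ) * Y0 * 16 ≤ u * Y0 * s ^ 2 := mul_le_mul_of_nonneg_left hs22 (by positivity)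
      have h4 : (0 : ℝ) ≤ u * Y0 := by positivity
      linarith only [h3, h4, hu2']
    refine h1.trans (h2.trans ?_)
    rw [div_eq_mul_inv]
    apply mul_le_mul_of_nonneg_left _ hxR.le
    rw [Real.exp_neg]
    apply inv_anti₀ (Real.exp_pos _)
    rw [← Real.exp_log hY00]
    exact Real.exp_le_exp.2 hY0l
  · have hTR : ((x / u : ℕ) : ℝ) ≤ T := by
      have huR : (0 : ℝ) < u := lt_of_lt_of_le (by positivity) hu1
      refine Nat.cast_div_le.trans ?_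
      rw [div_le_iff₀ huR]
      rw [div_le_iff₀ hT0] at hu1
      linarith only [hu1]
    have hBVR := hBV (x / u) (by
      have h1 : ((x / u : ℕ) : ℝ) ^ 2 ≤ Real.exp (L ^ (1 / 4 : ℝ)) ^ 2 :=
        pow_le_pow_left₀ (Nat.cast_nonneg _) (hTR.trans hTe) 2
      calc ((x / u : ℕ) : ℝ) ^ 2 * L ^ K ≤ Real.exp (L ^ (1 / 4 : ℝ)) ^ 2 * L ^ K :=
            mul_le_mul_of_nonneg_right h1 (by positivity)
        _ ≤ Real.exp L := F.f21
        _ = x := hxe.symm)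
    obtain ⟨hBlk, hxu, hTl', hcx2, hxN⟩ := n_Blk2 P hP x l ((∏ p ∈ P, p) * l) u N ⌊s⌋₊ (x / u) A hl rfl
      δ b' L T s ((∏ p ∈ P, (1 - 1 / (p : ℝ))) * (1 - 1 / (l : ℝ))) (∏ p ∈ P, (1 - 1 / (p : ℝ)))
      ((((insert l P).card : ℝ) + 1) ^ (insert l P).card) (2 * ((x : ℝ) / L ^ A)) hL hδ hδ1 hx0 (by linarith only [F.f1])
      hs4 h3 h4 h5 h6 h7 F.f16 F.f18 h10 hsT hW hWne rfl hρ2 rfl hlx hcT hu1 hux rfl hN rfl rfl rfl hpi' hBVR
    obtain ⟨D, hD⟩ : ∃ D : ℕ, D = ⌊s⌋₊ := ⟨_, rfl⟩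
    obtain ⟨c, hcd⟩ : ∃ c : ℕ, c = (∏ p ∈ P, p) * l := ⟨_, rfl⟩
    rw [← hcd] at hcT hcx2 hBlk ⊢
    rw [← hD] at hBlk
    have hDs : (D : ℝ) ≤ s := by rw [hD]; exact Nat.floor_le hs0.le
    have hu0 : 0 < u := by
      have : (0 : ℝ) < u := lt_of_lt_of_le (by positivity) hu1
      exact_mod_cast this
    have hirr := n_irr P hP x c l u N D hl hcd δ σ Y0 s T Yb hδ hδ1 hY01 hs4 hDs hu0
      hNu hu2' hxu hTl' hYb hcx2 hx0 hrel
    have hfinal : x / L ^ (1 + 16 * c1) ≤ (x : ℝ) * N / u * (δ / 4) / Real.log x := by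
      rw [← hL, Real.rpow_add hL0, Real.rpow_one, mul_comm L, ← div_div]
      apply div_le_div_of_nonneg_right _ hL0.le
      have h1 : x * (δ / 32) * (δ / 4) ≤ (x : ℝ) * N / u * (δ / 4) := mul_le_mul_of_nonneg_right hxN (by positivity)
      refine le_trans ?_ h1
      rw [div_le_iff₀ (Real.rpow_pos_of_pos hL0 _)]
      have h2 : 128 / δ ^ 2 ≤ L ^ (16 * c1) := by
        have h3 := (hcδ 128 (by norm_num)).trans (le_trans (by nlinarith only [hE4]) F.f10)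
        exact h3
      rw [div_le_iff₀ (by positivity)] at h2
      have h3 : x * (δ / 32) * (δ / 4) * L ^ (16 * c1) = x * (L ^ (16 * c1) * δ ^ 2) / 128 := by ring
      rw [h3]
      have h4 : (x : ℝ) * 128 ≤ x * (L ^ (16 * c1) * δ ^ 2) := mul_le_mul_of_nonneg_left h2 hxR.le
      linarith only [h4]
    have hρ'0 : 0 < ∏ p ∈ P, (1 - 1 / (p : ℝ)) := by linarith only [hρ2]
    obtain ⟨ρ', hρ'⟩ : ∃ ρ' : ℝ, ρ' = ∏ p ∈ P, (1 - 1 / (p : ℝ)) := ⟨_, rfl⟩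
    rw [← hρ'] at hρ'0 hBlk
    rcases hσ with h | h
    · rw [h, one_mul]
      refine hfinal.trans (block_plus2 x c u N D _ δ _ ρ' _ _ hBlk fun q hq => ?_)
      obtain ⟨w1, w2⟩ := hirr q hq
      refine ⟨w1, fun d hd => ?_⟩
      obtain ⟨w3, w4, w5⟩ := w2 d hd
      rw [w3]
      rw [h, one_mul] at w5
      unfold rel at w5
      rw [← hρ'] at w5
      have w6 : 1 + 2 * δ ≤ (V P ⌊((x - c : ℕ) : ℝ) / q / d⌋₊ : ℝ) / (((x - c : ℕ) : ℝ) / q / d * ρ') := by linarith only [w5]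
      rw [le_div_iff₀ (mul_pos w4 hρ'0)] at w6
      linarith only [w6]
    · rw [h, neg_one_mul]
      refine hfinal.trans (block_minus2 x c u N D _ δ _ ρ' _ _ hBlk fun q hq => ?_)
      obtain ⟨w1, w2⟩ := hirr q hq
      refine ⟨w1, fun d hd => ?_⟩
      obtain ⟨w3, w4, w5⟩ := w2 d hd
      rw [w3]
      rw [h, neg_one_mul] at w5
      unfold rel at w5
      rw [← hρ'] at w5
      have w6 : (V P ⌊((x - c : ℕ) : ℝ) / q / d⌋₊ : ℝ) / (((x - c : ℕ) : ℝ) / q / d * ρ') ≤ 1 - 2 * δ := by linarith only [w5]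
      rw [div_le_iff₀ (mul_pos w4 hρ'0)] at w6
      linarith only [w6]

end Pool.Agent.V5helper42.FG
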